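import Mathlib

/-!
# Additive functions on centralizers
-/

set_option autoImplicit false
set_option linter.unusedSectionVars false

namespace Pool.Agent.Y69.DZ

open Finset Module

section lin

theorem eval_span_rat {Z : Type} {d : ℕ} (h : Fin d → (Z → ℤ)) (hli : LinearIndependent ℤ h) :
    Submodule.span ℚ (Set.range fun (z : Z) (b : Fin d) => ((h b z : ℤ) : ℚ)) = ⊤ := by
  classical
  by_contra hne
  obtain ⟨f, hf, hle⟩ := Submodule.exists_le_ker_of_lt_top _ (lt_top_iff_ne_top.2 hne)
  set c : Fin d → ℚ := fun b => f (fun j => if b = j then 1 else 0) with hc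
  have hfy : ∀ y, f y = ∑ b, y b * c b := by
    intro y
    rw [LinearMap.pi_apply_eq_sum_univ f y]
    rfl
  set D : ℕ := ∏ b, (c b).den with hD
  have hD0 : (D : ℚ) ≠ 0 := by
    rw [hD, Nat.cast_ne_zero, Finset.prod_ne_zero_iff]
    intro b _
    exact (c b).den_nz
  have hn : ∀ b, ∃ n : ℤ, (n : ℚ) = c b * D := by
    intro b
    obtain ⟨k, hk⟩ : (c b).den ∣ D := Finset.dvd_prod_of_mem _ (Finset.mem_univ b)
    refine ⟨(c b).num * k, ?_⟩
    rw [hk]
    push_cast
    rw [← mul_assoc, Rat.mul_den_eq_num]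
  choose n hn using hn
  have hrel : ∑ b, n b • h b = 0 := by
    funext z
    have h1 : f (fun b => ((h b z : ℤ) : ℚ)) = 0 := hle (Submodule.subset_span ⟨z, rfl⟩)
    rw [hfy] at h1
    have h2 : ((∑ b, n b * h b z : ℤ) : ℚ) = 0 := by
      push_cast
      simp only [hn]
      rw [← zero_mul (D : ℚ), ← h1, Finset.sum_mul]
      apply Finset.sum_congr rfl
      intro b _
      ring
    rw [Finset.sum_apply]
    exact_mod_cast h2
  have h3 := Fintype.linearIndependent_iff.1 hli n hrel
  apply hf
  apply LinearMap.ext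
  intro y
  rw [hfy]
  apply Finset.sum_eq_zero
  intro b _
  have h4 := hn b
  rw [h3 b, Int.cast_zero] at h4
  rcases mul_eq_zero.1 h4.symm with h5 | h5
  · rw [h5, mul_zero]
  · exact absurd h5 hD0

theorem eval_span {K : Type} [Field K] [CharZero K] {Z : Type} {d : ℕ} (h : Fin d → (Z → ℤ))
    (hli : LinearIndependent ℤ h) :
    Submodule.span K (Set.range fun (z : Z) (b : Fin d) => ((h b z : ℤ) : K)) = ⊤ := by
  classical
  have key : ∀ y ∈ Submodule.span ℚ (Set.range fun (z : Z) (b : Fin d) => ((h b z : ℤ) : ℚ)),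
      (fun b => ((y b : ℚ) : K)) ∈
        Submodule.span K (Set.range fun (z : Z) (b : Fin d) => ((h b z : ℤ) : K)) := by
    intro y hy
    induction hy using Submodule.span_induction with
    | mem y hy =>
      obtain ⟨z, rfl⟩ := hy
      apply Submodule.subset_span
      refine ⟨z, ?_⟩
      funext b
      simp
    | zero =>
      have h1 : (fun b : Fin d => (((0 : Fin d → ℚ) b : ℚ) : K)) = 0 := by
        funext b
        simp
      rw [h1]
      exact Submodule.zero_mem _
    | add x y _ _ hx hy =>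
      have h1 : (fun b : Fin d => (((x + y) b : ℚ) : K)) =
          (fun b => ((x b : ℚ) : K)) + fun b => ((y b : ℚ) : K) := by
        funext b
        simp
      rw [h1]
      exact Submodule.add_mem _ hx hy
    | smul a x _ hx =>
      have h1 : (fun b : Fin d => (((a • x) b : ℚ) : K)) = (a : K) • fun b => ((x b : ℚ) : K) := by
        funext b
        simp
      rw [h1]
      exact Submodule.smul_mem _ _ hx
  rw [eq_top_iff]
  intro y _
  rw [← Finset.univ_sum_single y]
  apply Submodule.sum_mem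
  intro b _
  have h1 := key (Pi.single b 1) (by rw [eval_span_rat h hli]; exact Submodule.mem_top)
  have h2 : (fun b' : Fin d => (((Pi.single b 1 : Fin d → ℚ) b' : ℚ) : K)) = Pi.single b 1 := by
    funext b'
    by_cases hb : b' = b
    · subst hb
      simp
    · rw [Pi.single_eq_of_ne hb, Pi.single_eq_of_ne hb, Rat.cast_zero]
  rw [h2] at h1
  have h3 : (Pi.single b (y b) : Fin d → K) = y b • Pi.single b 1 := by
    rw [← Pi.single_smul, smul_eq_mul, mul_one]
  rw [h3]
  exact Submodule.smul_mem _ _ h1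

theorem rank_rel {V : Type} [AddCommGroup V] (hfin : Module.rank ℤ V < Cardinal.aleph0)
    (b : Fin (finrank ℤ V) → V) (hb : LinearIndependent ℤ b) (v : V) :
    ∃ (M : ℤ) (a : Fin (finrank ℤ V) → ℤ), M ≠ 0 ∧ M • v = ∑ j, a j • b j := by
  classical
  let w : Option (Fin (finrank ℤ V)) → V := fun o => o.elim v b
  have hw : ¬ LinearIndependent ℤ w := by
    intro hli
    have h1 := hli.cardinal_le_rank
    rw [Cardinal.mk_fintype, Fintype.card_option, Fintype.card_fin] at h1
    have h2 : ((finrank ℤ V : ℕ) : Cardinal) = Module.rank ℤ V :=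
      Cardinal.cast_toNat_of_lt_aleph0 hfin
    rw [← h2] at h1
    have h3 : finrank ℤ V + 1 ≤ finrank ℤ V := by exact_mod_cast h1
    omega
  rw [Fintype.not_linearIndependent_iff] at hw
  obtain ⟨g, hg, i, hi⟩ := hw
  rw [Fintype.sum_option] at hg
  have hg' : g none • v + ∑ j, g (some j) • b j = 0 := hg
  refine ⟨g none, fun j => -g (some j), ?_, ?_⟩
  · intro h0
    rw [h0, zero_smul, zero_add] at hg'
    have h1 := Fintype.linearIndependent_iff.1 hb _ hg'
    rcases i with _ | j
    · exact hi h0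
    · exact hi (h1 j)
  · rw [eq_neg_of_add_eq_zero_left hg', ← Finset.sum_neg_distrib]
    apply Finset.sum_congr rfl
    intro j _
    rw [neg_smul]

end lin

noncomputable section

variable {G : Type} [Group G]

/-- the additive functions `h : Z_G(C) → ℤ` such that `h (n x n⁻¹) = h x` for all `n` in `G` that
act on `C` by `c ↦ c ^ u` for a number `u` with `P u` -/
def CentHom (C : Subgroup G) (P : ℕ → Prop) :
    AddSubgroup (Subgroup.centralizer (C : Set G) → ℤ) where
  carrier := {h | (∀ x y, h (x * y) = h x + h y) ∧ ∀ (n : G) (u : ℕ), P u →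
    (∀ c ∈ C, n * c * n⁻¹ = c ^ u) → ∀ x y : Subgroup.centralizer (C : Set G),
      (y : G) = n * x * n⁻¹ → h y = h x}
  add_mem' := by
    rintro h h' ⟨h1, h2⟩ ⟨h3, h4⟩
    refine ⟨fun x y => ?_, fun n u hu hn x y hxy => ?_⟩
    · show h (x * y) + h' (x * y) = h x + h' x + (h y + h' y)
      rw [h1, h3]
      ring
    · show h y + h' y = h x + h' x
      rw [h2 n u hu hn x y hxy, h4 n u hu hn x y hxy]
  zero_mem' := ⟨fun _ _ => rfl, fun _ _ _ _ _ _ _ => rfl⟩
  neg_mem' := by
    rintro h ⟨h1, h2⟩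
    refine ⟨fun x y => ?_, fun n u hu hn x y hxy => ?_⟩
    · show -h (x * y) = -h x + -h y
      rw [h1]
      ring
    · show -h y = -h x
      rw [h2 n u hu hn x y hxy]

theorem CentHom_mono (C : Subgroup G) {P Q : ℕ → Prop} (h : ∀ u, P u → Q u) :
    CentHom C Q ≤ CentHom C P :=
  fun _ hf => ⟨hf.1, fun n u hu => hf.2 n u (h u hu)⟩

/-- all the additive functions -/
abbrev AH (C : Subgroup G) : Type := CentHom C (fun _ => False)

variable (D : Subgroup G)

/-- conjugation -/
def cj (n : Subgroup.normalizer (D : Set G)) (z : Subgroup.centralizer (D : Set G)) :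
    Subgroup.centralizer (D : Set G) := ⟨n * z * (n : G)⁻¹, by
  rw [Subgroup.mem_centralizer_iff]
  intro x hx
  have h1 : (n : G)⁻¹ * x * n ∈ (D : Set G) := by
    have h2 := (Subgroup.mem_normalizer_iff.1 (Subgroup.inv_mem _ n.2) x).1 hx
    rwa [inv_inv] at h2
  have h3 := Subgroup.mem_centralizer_iff.1 z.2 _ h1
  calc x * (n * z * (n : G)⁻¹) = n * ((n : G)⁻¹ * x * n * z) * (n : G)⁻¹ := by group
    _ = n * z * (n : G)⁻¹ * x := by rw [h3]; group⟩

theorem cj_mul (n : Subgroup.normalizer (D : Set G)) (x y : Subgroup.centralizer (D : Set G)) :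
    cj D n (x * y) = cj D n x * cj D n y := by
  apply Subtype.ext
  show (n : G) * (x * y) * (n : G)⁻¹ = n * x * (n : G)⁻¹ * (n * y * (n : G)⁻¹)
  group

theorem cj_cj (n n' : Subgroup.normalizer (D : Set G)) (x : Subgroup.centralizer (D : Set G)) :
    cj D n (cj D n' x) = cj D (n * n') x := by
  apply Subtype.ext
  show (n : G) * (n' * x * (n' : G)⁻¹) * (n : G)⁻¹ = n * n' * x * (n * n' : G)⁻¹
  group

variable {D}

theorem add_conj {h : Subgroup.centralizer (D : Set G) → ℤ} (hh : ∀ x y, h (x * y) = h x + h y)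
    (u z : Subgroup.centralizer (D : Set G)) : h (u * z * u⁻¹) = h z := by
  have h1 := hh 1 1
  rw [mul_one] at h1
  have h2 := hh u u⁻¹
  rw [mul_inv_cancel] at h2
  rw [hh, hh]
  omega

theorem cj_eq {h : Subgroup.centralizer (D : Set G) → ℤ} (hh : ∀ x y, h (x * y) = h x + h y)
    (n n' : Subgroup.normalizer (D : Set G))
    (hn : D.normalizerMonoidHom n = D.normalizerMonoidHom n')
    (z : Subgroup.centralizer (D : Set G)) : h (cj D n z) = h (cj D n' z) := by
  have h1 : n'⁻¹ * n ∈ D.normalizerMonoidHom.ker := by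
    rw [MonoidHom.mem_ker, map_mul, map_inv, hn, inv_mul_cancel]
  rw [Subgroup.normalizerMonoidHom_ker, Subgroup.mem_subgroupOf] at h1
  set k : Subgroup.centralizer (D : Set G) := ⟨_, h1⟩ with hk
  have h2 : cj D n z = cj D n' k * cj D n' z * (cj D n' k)⁻¹ := by
    apply Subtype.ext
    show (n : G) * z * (n : G)⁻¹ = (n' : G) * ((n' : G)⁻¹ * n) * (n' : G)⁻¹ * (n' * z * (n' : G)⁻¹) *
      ((n' : G) * ((n' : G)⁻¹ * n) * (n' : G)⁻¹)⁻¹
    group
  rw [h2, add_conj hh]

section average

variable [Finite D]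

instance finAut : Finite (MulAut D) :=
  Finite.of_injective (fun e : MulAut D => (e : D → D)) DFunLike.coe_injective

variable (D) in
/-- a section -/
def sec (a : D.normalizerMonoidHom.range) : Subgroup.normalizer (D : Set G) := a.2.choose

theorem sec_spec (a : D.normalizerMonoidHom.range) : D.normalizerMonoidHom (sec D a) = a.1 :=
  a.2.choose_spec

theorem mem_norm {n : G} (h : ∀ c ∈ D, n * c * n⁻¹ ∈ D) : n ∈ Subgroup.normalizer (D : Set G) := by
  have : Finite (D : Set G) := inferInstanceAs (Finite D)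
  exact Subgroup.mem_normalizer_fintype h

instance : Fintype D.normalizerMonoidHom.range := Fintype.ofFinite _

/-- the average of an additive function -/
def Av (h : AH D) : CentHom D (fun _ => True) :=
  ⟨fun z => ∑ a : D.normalizerMonoidHom.range, h.1 (cj D (sec D a) z), by
    refine ⟨fun x y => ?_, fun n u _ hn x y hxy => ?_⟩
    · rw [← Finset.sum_add_distrib]
      apply Finset.sum_congr rfl
      intro a _
      rw [cj_mul, h.2.1]
    · have hn' : n ∈ Subgroup.normalizer (D : Set G) := by
        apply mem_norm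
        intro c hc
        rw [hn c hc]
        exact D.pow_mem hc u
      have hy : y = cj D ⟨n, hn'⟩ x := Subtype.ext hxy
      rw [hy]
      let a₀ : D.normalizerMonoidHom.range := ⟨D.normalizerMonoidHom ⟨n, hn'⟩, ⟨_, rfl⟩⟩
      show ∑ a : D.normalizerMonoidHom.range, h.1 (cj D (sec D a) (cj D ⟨n, hn'⟩ x)) =
        ∑ a : D.normalizerMonoidHom.range, h.1 (cj D (sec D a) x)
      rw [← Equiv.sum_comp (Equiv.mulRight a₀) (fun a => h.1 (cj D (sec D a) x))]
      apply Finset.sum_congr rfl
      intro a _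
      rw [cj_cj]
      apply cj_eq h.2.1
      rw [map_mul, sec_spec, sec_spec]
      rfl⟩

/-- conjugation of additive functions -/
def cH (n : Subgroup.normalizer (D : Set G)) (h : AH D) : AH D :=
  ⟨fun z => h.1 (cj D n z), fun x y => by
    show h.1 (cj D n (x * y)) = _
    rw [cj_mul, h.2.1], fun _ _ hu => hu.elim⟩

/-- the inclusion -/
abbrev inA {P : ℕ → Prop} : CentHom D P →+ AH D :=
  AddSubgroup.inclusion (CentHom_mono D (fun _ hu => hu.elim))

theorem exists_coef (hfin : Module.rank ℤ (CentHom D (fun _ => True)) < Cardinal.aleph0)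
    (b : Fin (finrank ℤ (CentHom D (fun _ => True))) → CentHom D (fun _ => True))
    (hb : LinearIndependent ℤ b) (h : AH D) :
    ∃ r : Fin (finrank ℤ (CentHom D (fun _ => True))) → ℚ, ∀ ω : AH D →+ ℚ,
      (∀ n h, ω (cH n h) = ω h) → ω h = ∑ j, r j * ω (inA (b j)) := by
  obtain ⟨M, a, hM, hMa⟩ := rank_rel hfin b hb (Av h)
  have hM' : (M : ℚ) ≠ 0 := Int.cast_ne_zero.2 hM
  set m : ℕ := Fintype.card D.normalizerMonoidHom.range with hm
  have hm0 : (m : ℚ) ≠ 0 := by
    rw [hm, Nat.cast_ne_zero]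
    exact Fintype.card_ne_zero
  refine ⟨fun j => (a j : ℚ) / (M * m), fun ω hω => ?_⟩
  have h1 : ω (inA (Av h)) = m * ω h := by
    have h2 : inA (Av h) = ∑ a : D.normalizerMonoidHom.range, cH (sec D a) h := by
      apply Subtype.ext
      rw [AddSubgroup.val_finsetSum]
      funext z
      rw [Finset.sum_apply]
      rfl
    rw [h2, map_sum, Finset.sum_congr rfl (fun a _ => hω (sec D a) h), Finset.sum_const,
      Finset.card_univ, nsmul_eq_mul]
  have h3 := congrArg (fun v => ω (inA v)) hMa
  simp only [map_zsmul, map_sum, h1, zsmul_eq_mul] at h3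
  have h4 : ω h = (∑ j, (a j : ℚ) * ω (inA (b j))) / (M * m) := by
    rw [eq_div_iff (mul_ne_zero hM' hm0), ← h3]
    ring
  rw [h4, Finset.sum_div]
  apply Finset.sum_congr rfl
  intro j _
  ring

end average

end

end Pool.Agent.Y69.DZ
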