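import Mathlib
import Pool.Agent.H26R2.Bass.Main

/-!
# Bilinear functionals on the group ring
-/

set_option autoImplicit false
set_option linter.unusedSectionVars false

namespace Pool.Agent.Y69.DZ

open Finset Matrix
open Pool.Agent.H26R2.IdemLI (ch ch_coeff)

noncomputable section

variable {G : Type} [Group G] {R : Type} [CommRing R]

section bil

variable {N : Type} [AddCommGroup N]

/-- the biadditive extension -/
def bil (c : G → G → R →+ N) (a b : MonoidAlgebra R G) : N :=
  a.coeff.sum fun x r => b.coeff.sum fun z t => c x z (r * t)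

theorem bil_single (c : G → G → R →+ N) (x z : G) (r t : R) :
    bil c (MonoidAlgebra.single x r) (MonoidAlgebra.single z t) = c x z (r * t) := by
  unfold bil
  rw [MonoidAlgebra.coeff_single, Finsupp.sum_single_index]
  · rw [MonoidAlgebra.coeff_single, Finsupp.sum_single_index]
    rw [mul_zero, map_zero]
  · simp

theorem bil_add_left (c : G → G → R →+ N) (a a' b : MonoidAlgebra R G) :
    bil c (a + a') b = bil c a b + bil c a' b := by
  unfold bil
  rw [MonoidAlgebra.coeff_add, Finsupp.sum_add_index']
  · intro x
    simp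
  · intro x r s
    rw [← Finsupp.sum_add]
    apply Finsupp.sum_congr
    intro z _
    rw [add_mul, map_add]

theorem bil_add_right (c : G → G → R →+ N) (a b b' : MonoidAlgebra R G) :
    bil c a (b + b') = bil c a b + bil c a b' := by
  unfold bil
  rw [← Finsupp.sum_add]
  apply Finsupp.sum_congr
  intro x _
  rw [MonoidAlgebra.coeff_add, Finsupp.sum_add_index']
  · intro z
    simp
  · intro z r s
    rw [mul_add, map_add]

theorem bil_zero_left (c : G → G → R →+ N) (b : MonoidAlgebra R G) : bil c 0 b = 0 := by
  unfold bil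
  rw [MonoidAlgebra.coeff_zero, Finsupp.sum_zero_index]

theorem bil_zero_right (c : G → G → R →+ N) (a : MonoidAlgebra R G) : bil c a 0 = 0 := by
  unfold bil
  simp

/-- as a homomorphism -/
def bilHom (c : G → G → R →+ N) : MonoidAlgebra R G →+ MonoidAlgebra R G →+ N where
  toFun a :=
    { toFun := fun b => bil c a b
      map_zero' := bil_zero_right c a
      map_add' := bil_add_right c a }
  map_zero' := AddMonoidHom.ext fun b => bil_zero_left c b
  map_add' a a' := AddMonoidHom.ext fun b => bil_add_left c a a' b

theorem bil_sum_left (c : G → G → R →+ N) {ι : Type} (s : Finset ι) (a : ι → MonoidAlgebra R G)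
    (b : MonoidAlgebra R G) : bil c (∑ i ∈ s, a i) b = ∑ i ∈ s, bil c (a i) b := by
  show bilHom c (∑ i ∈ s, a i) b = _
  rw [map_sum, AddMonoidHom.finsetSum_apply]
  rfl

theorem bil_sum_right (c : G → G → R →+ N) {ι : Type} (s : Finset ι)
    (a : MonoidAlgebra R G) (b : ι → MonoidAlgebra R G) :
    bil c a (∑ i ∈ s, b i) = ∑ i ∈ s, bil c a (b i) := by
  show bilHom c a (∑ i ∈ s, b i) = _
  rw [map_sum]
  rfl

theorem map_bil {N' : Type} [AddCommGroup N'] (φ : N →+ N') (c : G → G → R →+ N)
    (a b : MonoidAlgebra R G) : φ (bil c a b) = bil (fun x z => φ.comp (c x z)) a b := by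
  unfold bil
  rw [map_finsuppSum]
  apply Finsupp.sum_congr
  intro x _
  rw [map_finsuppSum]
  rfl

/-- an induction principle for biadditive functions -/
theorem bi_ext {f g : MonoidAlgebra R G → MonoidAlgebra R G → N}
    (f1 : ∀ b, f 0 b = 0) (f2 : ∀ a, f a 0 = 0)
    (f3 : ∀ a a' b, f (a + a') b = f a b + f a' b) (f4 : ∀ a b b', f a (b + b') = f a b + f a b')
    (g1 : ∀ b, g 0 b = 0) (g2 : ∀ a, g a 0 = 0)
    (g3 : ∀ a a' b, g (a + a') b = g a b + g a' b) (g4 : ∀ a b b', g a (b + b') = g a b + g a b')
    (h : ∀ x r z t, f (MonoidAlgebra.single x r) (MonoidAlgebra.single z t) =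
      g (MonoidAlgebra.single x r) (MonoidAlgebra.single z t)) (a b : MonoidAlgebra R G) :
    f a b = g a b := by
  induction a using MonoidAlgebra.induction_linear with
  | zero => rw [f1, g1]
  | add a a' ha ha' => rw [f3, g3, ha, ha']
  | single x r =>
    induction b using MonoidAlgebra.induction_linear with
    | zero => rw [f2, g2]
    | add b b' hb hb' => rw [f4, g4, hb, hb']
    | single z t => exact h x r z t

end bil

section bz

/-- the scalar kernel -/
def kz (R : Type) [CommRing R] (c : G → G → ℤ) (x z : G) : R →+ R :=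
  AddMonoidHom.mulRight (c x z : R)

/-- the bilinear functional of an integral kernel -/
def bz (c : G → G → ℤ) (a b : MonoidAlgebra R G) : R := bil (kz R c) a b

theorem bz_single (c : G → G → ℤ) (x z : G) (r t : R) :
    bz c (MonoidAlgebra.single x r) (MonoidAlgebra.single z t) = r * t * (c x z : R) :=
  bil_single _ _ _ _ _

theorem bz_cocycle (c : G → G → ℤ) (hc : ∀ x y z, c (x * y) z - c x (y * z) + c (z * x) y = 0)
    (a b d : MonoidAlgebra R G) :
    bz c (a * b) d - bz c a (b * d) + bz c (d * a) b = 0 := by
  induction a using MonoidAlgebra.induction_linear with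
  | zero =>
    rw [zero_mul, mul_zero]
    unfold bz
    rw [bil_zero_left, bil_zero_left, bil_zero_left]
    simp
  | add a a' ha ha' =>
    have h1 : bz c ((a + a') * b) d - bz c (a + a') (b * d) + bz c (d * (a + a')) b =
        (bz c (a * b) d - bz c a (b * d) + bz c (d * a) b) +
        (bz c (a' * b) d - bz c a' (b * d) + bz c (d * a') b) := by
      rw [add_mul, mul_add]
      unfold bz
      rw [bil_add_left, bil_add_left, bil_add_left]
      abel
    rw [h1, ha, ha', add_zero]
  | single x r =>
    induction b using MonoidAlgebra.induction_linear with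
    | zero =>
      rw [zero_mul, mul_zero]
      unfold bz
      rw [bil_zero_left, bil_zero_right, bil_zero_right]
      simp
    | add a a' ha ha' =>
      have h1 : bz c (MonoidAlgebra.single x r * (a + a')) d -
          bz c (MonoidAlgebra.single x r) ((a + a') * d) +
            bz c (d * MonoidAlgebra.single x r) (a + a') =
          (bz c (MonoidAlgebra.single x r * a) d - bz c (MonoidAlgebra.single x r) (a * d) +
            bz c (d * MonoidAlgebra.single x r) a) +
          (bz c (MonoidAlgebra.single x r * a') d - bz c (MonoidAlgebra.single x r) (a' * d) +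
            bz c (d * MonoidAlgebra.single x r) a') := by
        rw [add_mul, mul_add]
        unfold bz
        rw [bil_add_left, bil_add_right, bil_add_right]
        abel
      rw [h1, ha, ha', add_zero]
    | single y t =>
      induction d using MonoidAlgebra.induction_linear with
      | zero =>
        rw [zero_mul, mul_zero]
        unfold bz
        rw [bil_zero_left, bil_zero_right, bil_zero_right]
        simp
      | add a a' ha ha' =>
        have h1 : bz c (MonoidAlgebra.single x r * MonoidAlgebra.single y t) (a + a') -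
            bz c (MonoidAlgebra.single x r) (MonoidAlgebra.single y t * (a + a')) +
              bz c ((a + a') * MonoidAlgebra.single x r) (MonoidAlgebra.single y t) =
            (bz c (MonoidAlgebra.single x r * MonoidAlgebra.single y t) a -
              bz c (MonoidAlgebra.single x r) (MonoidAlgebra.single y t * a) +
              bz c (a * MonoidAlgebra.single x r) (MonoidAlgebra.single y t)) +
            (bz c (MonoidAlgebra.single x r * MonoidAlgebra.single y t) a' -
              bz c (MonoidAlgebra.single x r) (MonoidAlgebra.single y t * a') +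
              bz c (a' * MonoidAlgebra.single x r) (MonoidAlgebra.single y t)) := by
          rw [add_mul, mul_add]
          unfold bz
          rw [bil_add_left, bil_add_right, bil_add_right]
          abel
        rw [h1, ha, ha', add_zero]
      | single z s =>
        rw [MonoidAlgebra.single_mul_single, MonoidAlgebra.single_mul_single,
          MonoidAlgebra.single_mul_single, bz_single, bz_single, bz_single]
        have h1 := congrArg (fun n : ℤ => (n : R)) (hc x y z)
        push_cast at h1
        linear_combination (r * t * s) * h1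

theorem bz_ch {S : Type} [CommRing S] (f : R →+* S) (c : G → G → ℤ) (a b : MonoidAlgebra R G) :
    bz c (ch f G a) (ch f G b) = f (bz c a b) := by
  refine bi_ext (f := fun a b => bz c (ch f G a) (ch f G b)) (g := fun a b => f (bz c a b))
    ?_ ?_ ?_ ?_ ?_ ?_ ?_ ?_ ?_ a b
  · intro b; show bz c _ _ = 0; rw [map_zero]; exact bil_zero_left _ _
  · intro b; show bz c _ _ = 0; rw [map_zero]; exact bil_zero_right _ _
  · intro a a' b; show bz c _ _ = _; rw [map_add]; exact bil_add_left _ _ _ _
  · intro a a' b; show bz c _ _ = _; rw [map_add]; exact bil_add_right _ _ _ _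
  · intro b
    show f (bil _ _ _) = 0
    rw [bil_zero_left, map_zero]
  · intro b
    show f (bil _ _ _) = 0
    rw [bil_zero_right, map_zero]
  · intro a a' b
    show f (bil _ _ _) = _
    rw [bil_add_left, map_add]
    rfl
  · intro a a' b
    show f (bil _ _ _) = _
    rw [bil_add_right, map_add]
    rfl
  · intro x r z t
    show bz c (MonoidAlgebra.mapRingHom _ _ _) (MonoidAlgebra.mapRingHom _ _ _) = f (bz c _ _)
    rw [MonoidAlgebra.mapRingHom_single, MonoidAlgebra.mapRingHom_single, bz_single, bz_single,
      map_mul, map_mul, map_intCast]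

end bz

section mat

variable {I J K : Type} [Fintype I] [Fintype J] [Fintype K]

/-- the bilinear functional on matrices -/
def BM (c : G → G → ℤ) (A : Matrix I J (MonoidAlgebra R G)) (B : Matrix J I (MonoidAlgebra R G)) :
    R := ∑ i, ∑ j, bz c (A i j) (B j i)

theorem BM_cocycle (c : G → G → ℤ)
    (hc : ∀ x y z, c (x * y) z - c x (y * z) + c (z * x) y = 0)
    (X : Matrix I J (MonoidAlgebra R G)) (Y : Matrix J K (MonoidAlgebra R G))
    (Z : Matrix K I (MonoidAlgebra R G)) :
    BM c (X * Y) Z - BM c X (Y * Z) + BM c (Z * X) Y = 0 := by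
  have h1 : BM c (X * Y) Z = ∑ i, ∑ j, ∑ k, bz c (X i j * Y j k) (Z k i) := by
    unfold BM
    apply Finset.sum_congr rfl
    intro i _
    rw [Finset.sum_comm]
    apply Finset.sum_congr rfl
    intro k _
    rw [Matrix.mul_apply]
    exact bil_sum_left _ _ _ _
  have h2 : BM c X (Y * Z) = ∑ i, ∑ j, ∑ k, bz c (X i j) (Y j k * Z k i) := by
    unfold BM
    apply Finset.sum_congr rfl
    intro i _
    apply Finset.sum_congr rfl
    intro j _
    rw [Matrix.mul_apply]
    exact bil_sum_right _ _ _ _
  have h3 : BM c (Z * X) Y = ∑ i, ∑ j, ∑ k, bz c (Z k i * X i j) (Y j k) := by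
    have h4 : BM c (Z * X) Y = ∑ k, ∑ j, ∑ i, bz c (Z k i * X i j) (Y j k) := by
      unfold BM
      apply Finset.sum_congr rfl
      intro k _
      apply Finset.sum_congr rfl
      intro j _
      rw [Matrix.mul_apply]
      exact bil_sum_left _ _ _ _
    rw [h4]
    calc ∑ k, ∑ j, ∑ i, bz c (Z k i * X i j) (Y j k) =
        ∑ k, ∑ i, ∑ j, bz c (Z k i * X i j) (Y j k) :=
          Finset.sum_congr rfl fun k _ => Finset.sum_comm
      _ = ∑ i, ∑ k, ∑ j, bz c (Z k i * X i j) (Y j k) := Finset.sum_comm
      _ = ∑ i, ∑ j, ∑ k, bz c (Z k i * X i j) (Y j k) :=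
          Finset.sum_congr rfl fun i _ => Finset.sum_comm
  rw [h1, h2, h3, ← Finset.sum_sub_distrib, ← Finset.sum_add_distrib]
  apply Finset.sum_eq_zero
  intro i _
  rw [← Finset.sum_sub_distrib, ← Finset.sum_add_distrib]
  apply Finset.sum_eq_zero
  intro j _
  rw [← Finset.sum_sub_distrib, ← Finset.sum_add_distrib]
  apply Finset.sum_eq_zero
  intro k _
  exact bz_cocycle c hc _ _ _

theorem BM_ch {S : Type} [CommRing S] (f : R →+* S) (c : G → G → ℤ)
    (A : Matrix I J (MonoidAlgebra R G)) (B : Matrix J I (MonoidAlgebra R G)) :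
    BM c (A.map (ch f G)) (B.map (ch f G)) = f (BM c A B) := by
  unfold BM
  rw [map_sum]
  apply Finset.sum_congr rfl
  intro i _
  rw [map_sum]
  apply Finset.sum_congr rfl
  intro j _
  exact bz_ch f c _ _

theorem BM_add (c d : G → G → ℤ) (A : Matrix I J (MonoidAlgebra R G))
    (B : Matrix J I (MonoidAlgebra R G)) :
    BM (fun x z => c x z + d x z) A B = BM c A B + BM d A B := by
  unfold BM
  rw [← Finset.sum_add_distrib]
  apply Finset.sum_congr rfl
  intro i _
  rw [← Finset.sum_add_distrib]
  apply Finset.sum_congr rfl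
  intro j _
  unfold bz bil
  rw [← Finsupp.sum_add]
  apply Finsupp.sum_congr
  intro x _
  rw [← Finsupp.sum_add]
  apply Finsupp.sum_congr
  intro z _
  show _ * ((c x z + d x z : ℤ) : R) = _ * (c x z : R) + _ * (d x z : R)
  push_cast
  ring

open Pool.Agent.H23R2.Cyc (ell ell_single) in
theorem bz_cob1 (h : G → ℤ) (a b : MonoidAlgebra R G) :
    bz (fun x z => h (x * z)) a b = ell (fun g => (h g : R)) (a * b) := by
  refine bi_ext (f := fun a b => bz (fun x z => h (x * z)) a b)
    (g := fun a b => ell (fun g => (h g : R)) (a * b)) ?_ ?_ ?_ ?_ ?_ ?_ ?_ ?_ ?_ a b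
  · intro b; exact bil_zero_left _ _
  · intro b; exact bil_zero_right _ _
  · intro a a' b; exact bil_add_left _ _ _ _
  · intro a a' b; exact bil_add_right _ _ _ _
  · intro b; rw [zero_mul, map_zero]
  · intro b; rw [mul_zero, map_zero]
  · intro a a' b; rw [add_mul, map_add]
  · intro a a' b; rw [mul_add, map_add]
  · intro x r z t
    show bz _ _ _ = ell _ (_ * _)
    rw [MonoidAlgebra.single_mul_single, ell_single, bz_single]

open Pool.Agent.H23R2.Cyc (ell ell_single) in
theorem bz_cob2 (h : G → ℤ) (a b : MonoidAlgebra R G) :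
    bz (fun x z => h (z * x)) a b = ell (fun g => (h g : R)) (b * a) := by
  refine bi_ext (f := fun a b => bz (fun x z => h (z * x)) a b)
    (g := fun a b => ell (fun g => (h g : R)) (b * a)) ?_ ?_ ?_ ?_ ?_ ?_ ?_ ?_ ?_ a b
  · intro b; exact bil_zero_left _ _
  · intro b; exact bil_zero_right _ _
  · intro a a' b; exact bil_add_left _ _ _ _
  · intro a a' b; exact bil_add_right _ _ _ _
  · intro b; rw [mul_zero, map_zero]
  · intro b; rw [zero_mul, map_zero]
  · intro a a' b; rw [mul_add, map_add]
  · intro a a' b; rw [add_mul, map_add]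
  · intro x r z t
    show bz _ _ _ = ell _ (_ * _)
    rw [MonoidAlgebra.single_mul_single, ell_single, bz_single, mul_comm r t]

open Pool.Agent.H23R2.Cyc (ell ell_single tf tf_apply) in
theorem BM_cob [DecidableEq I] [DecidableEq J] (h : G → ℤ) (h1 : h 1 = 0)
    (A : Matrix I J (MonoidAlgebra R G)) (B : Matrix J I (MonoidAlgebra R G)) (hAB : A * B = 1)
    (hBA : B * A = 1) : BM (fun x z => h (z * x) - h (x * z)) A B = 0 := by
  have e0 : BM (fun x z => h (z * x)) A B =
      BM (fun x z => h (z * x) - h (x * z)) A B + BM (fun x z => h (x * z)) A B := by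
    rw [← BM_add]
    congr 1
    funext x z
    ring
  have e1 : BM (fun x z => h (x * z)) A B = 0 := by
    unfold BM
    apply Finset.sum_eq_zero
    intro i _
    simp only [bz_cob1]
    rw [← map_sum, ← Matrix.mul_apply, hAB, Matrix.one_apply_eq, MonoidAlgebra.one_def, ell_single,
      h1]
    simp
  have e2 : BM (fun x z => h (z * x)) A B = 0 := by
    unfold BM
    rw [Finset.sum_comm]
    apply Finset.sum_eq_zero
    intro i _
    simp only [bz_cob2]
    rw [← map_sum, ← Matrix.mul_apply, hBA, Matrix.one_apply_eq, MonoidAlgebra.one_def, ell_single,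
      h1]
    simp
  rw [e1, e2, add_zero] at e0
  exact e0.symm

end mat

end

end Pool.Agent.Y69.DZ
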