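import Mathlib

/-!
# The crossed product of pairs of functions on a `G`-set, and its trace
-/

set_option autoImplicit false
set_option linter.unusedSectionVars false

namespace Pool.Agent.Y69.DZ

noncomputable section

/-- a `G`-set with an equivariant map to `G` -/
structure Lev (G : Type) [Group G] where
  /-- the set -/
  L : Type
  /-- the action -/
  act : MulAction G L
  /-- the equivariant map -/
  k : L → G
  equi : ∀ (y : G) (l : L), k (y • l) = y * k l * y⁻¹

variable {G : Type} [Group G]

instance (Λ : Lev G) : MulAction G Λ.L := Λ.act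

/-- pairs of functions -/
def Fn (Λ : Lev G) (R : Type) : Type := Λ.L → R × R

variable (Λ : Lev G) (R : Type) [CommRing R]

instance : CommRing (Fn Λ R) := inferInstanceAs (CommRing (Λ.L → R × R))

variable {Λ R}

theorem Fn.ext {a b : Fn Λ R} (h : ∀ l, a l = b l) : a = b := funext h

@[simp] theorem Fn.add_apply (a b : Fn Λ R) (l : Λ.L) : (a + b) l = a l + b l := rfl
@[simp] theorem Fn.mul_apply (a b : Fn Λ R) (l : Λ.L) : (a * b) l = a l * b l := rfl
@[simp] theorem Fn.neg_apply (a : Fn Λ R) (l : Λ.L) : (-a) l = -a l := rfl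
@[simp] theorem Fn.sub_apply (a b : Fn Λ R) (l : Λ.L) : (a - b) l = a l - b l := rfl
@[simp] theorem Fn.zero_apply (l : Λ.L) : (0 : Fn Λ R) l = 0 := rfl
@[simp] theorem Fn.one_apply (l : Λ.L) : (1 : Fn Λ R) l = 1 := rfl

variable (Λ R)

instance : MulSemiringAction G (Fn Λ R) where
  smul y c := fun l => c (y⁻¹ • l)
  one_smul c := by
    apply Fn.ext
    intro l
    show c ((1 : G)⁻¹ • l) = c l
    rw [inv_one, one_smul]
  mul_smul x y c := by
    apply Fn.ext
    intro l
    show c ((x * y)⁻¹ • l) = c (y⁻¹ • x⁻¹ • l)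
    rw [mul_inv_rev, mul_smul]
  smul_zero y := rfl
  smul_add y c d := rfl
  smul_one y := rfl
  smul_mul y c d := rfl

variable {Λ R}

theorem Fn.smul_apply (y : G) (c : Fn Λ R) (l : Λ.L) : (y • c) l = c (y⁻¹ • l) := rfl

variable (Λ R)

/-- pairs of functions which agree outside a finite subset of every fibre -/
def KD : Subring (Fn Λ R) where
  carrier := {c | ∀ y : G, {l | Λ.k l = y ∧ (c l).1 ≠ (c l).2}.Finite}
  mul_mem' := by
    intro c d hc hd y
    refine ((hc y).union (hd y)).subset ?_
    rintro l ⟨hl, hne⟩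
    by_contra hcon
    simp only [Set.mem_union, Set.mem_ofPred_eq, not_or, not_and, not_not] at hcon
    apply hne
    rw [Fn.mul_apply, Prod.fst_mul, Prod.snd_mul, hcon.1 hl, hcon.2 hl]
  one_mem' := by
    intro y
    refine Set.finite_empty.subset ?_
    rintro l ⟨_, hne⟩
    exact hne rfl
  add_mem' := by
    intro c d hc hd y
    refine ((hc y).union (hd y)).subset ?_
    rintro l ⟨hl, hne⟩
    by_contra hcon
    simp only [Set.mem_union, Set.mem_ofPred_eq, not_or, not_and, not_not] at hcon
    apply hne
    rw [Fn.add_apply, Prod.fst_add, Prod.snd_add, hcon.1 hl, hcon.2 hl]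
  zero_mem' := by
    intro y
    refine Set.finite_empty.subset ?_
    rintro l ⟨_, hne⟩
    exact hne rfl
  neg_mem' := by
    intro c hc y
    refine (hc y).subset ?_
    rintro l ⟨hl, hne⟩
    refine ⟨hl, fun h => hne ?_⟩
    rw [Fn.neg_apply, Prod.fst_neg, Prod.snd_neg, h]

variable {Λ R}

theorem KD.smul_mem (y : G) {c : Fn Λ R} (hc : c ∈ KD Λ R) : y • c ∈ KD Λ R := by
  intro x
  refine ((hc (y⁻¹ * x * y)).image (fun l => y • l)).subset ?_
  rintro l ⟨hl, hne⟩
  refine ⟨y⁻¹ • l, ⟨?_, hne⟩, smul_inv_smul y l⟩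
  rw [Λ.equi, hl, inv_inv]

variable (Λ R)

instance : MulSemiringAction G (KD Λ R) where
  smul y c := ⟨y • (c : Fn Λ R), KD.smul_mem y c.2⟩
  one_smul c := Subtype.ext (one_smul G (c : Fn Λ R))
  mul_smul x y c := Subtype.ext (mul_smul x y (c : Fn Λ R))
  smul_zero y := Subtype.ext (smul_zero y)
  smul_add y c d := Subtype.ext (smul_add y (c : Fn Λ R) (d : Fn Λ R))
  smul_one y := Subtype.ext (smul_one y)
  smul_mul y c d := Subtype.ext (smul_mul' y (c : Fn Λ R) (d : Fn Λ R))

variable {Λ R}

theorem KD.coe_smul (y : G) (c : KD Λ R) : ((y • c : KD Λ R) : Fn Λ R) = y • (c : Fn Λ R) := rfl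

variable (Λ R)

/-- the crossed product with the pairs of functions which agree almost everywhere -/
abbrev Db : Type := SkewMonoidAlgebra (KD Λ R) G

variable {Λ R}

theorem single_mul_single {K : Type} [Ring K] [MulSemiringAction G K] (x y : G) (c d : K) :
    (SkewMonoidAlgebra.single x c * SkewMonoidAlgebra.single y d : SkewMonoidAlgebra K G) =
      SkewMonoidAlgebra.single (x * y) (c * x • d) := by
  rw [SkewMonoidAlgebra.mul_def, SkewMonoidAlgebra.sum_single_index,
    SkewMonoidAlgebra.sum_single_index]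
  · rw [smul_zero, mul_zero, SkewMonoidAlgebra.single_zero_right]
  · simp

section skm

variable {K K' : Type} [Ring K] [MulSemiringAction G K] [Ring K'] [MulSemiringAction G K']

/-- the homomorphism of crossed products -/
def skm (θ : K →+* K') (hθ : ∀ (y : G) (c : K), θ (y • c) = y • θ c) :
    SkewMonoidAlgebra K G →+* SkewMonoidAlgebra K' G :=
  SkewMonoidAlgebra.liftNCRingHom
    ({ toFun := fun c => SkewMonoidAlgebra.single 1 (θ c)
       map_one' := by rw [map_one]; rfl
       map_mul' := by
         intro c d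
         rw [single_mul_single, one_smul, one_mul, map_mul]
       map_zero' := by rw [map_zero]; exact SkewMonoidAlgebra.single_zero_right _
       map_add' := by
         intro c d
         rw [map_add]
         exact SkewMonoidAlgebra.single_add _ _ _ } : K →+* SkewMonoidAlgebra K' G)
    ({ toFun := fun y => SkewMonoidAlgebra.single y 1
       map_one' := rfl
       map_mul' := by
         intro x y
         rw [single_mul_single, smul_one, one_mul] } : G →* SkewMonoidAlgebra K' G)
    (by
      intro y c
      show SkewMonoidAlgebra.single 1 _ * SkewMonoidAlgebra.single _ 1 =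
        SkewMonoidAlgebra.single _ 1 * SkewMonoidAlgebra.single 1 _
      rw [single_mul_single, single_mul_single, one_mul, mul_one, smul_one, mul_one, one_mul, hθ])

theorem skm_single (θ : K →+* K') (hθ : ∀ (y : G) (c : K), θ (y • c) = y • θ c) (y : G) (c : K) :
    skm θ hθ (SkewMonoidAlgebra.single y c) = SkewMonoidAlgebra.single y (θ c) := by
  unfold skm
  refine (SkewMonoidAlgebra.liftNC_single _ _ _ _).trans ?_
  show SkewMonoidAlgebra.single 1 (θ c) * SkewMonoidAlgebra.single y 1 = _
  rw [single_mul_single, smul_one, mul_one, one_mul]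

theorem skm_coeff (θ : K →+* K') (hθ : ∀ (y : G) (c : K), θ (y • c) = y • θ c)
    (u : SkewMonoidAlgebra K G) (y : G) : (skm θ hθ u).coeff y = θ (u.coeff y) := by
  classical
  induction u using SkewMonoidAlgebra.induction_on with
  | zero => rw [map_zero]; exact (map_zero θ).symm
  | single g a =>
    rw [skm_single, SkewMonoidAlgebra.coeff_single_apply, SkewMonoidAlgebra.coeff_single_apply]
    split_ifs
    · rfl
    · exact (map_zero θ).symm
  | add f g hf hg =>
    rw [map_add, SkewMonoidAlgebra.coeff_add, SkewMonoidAlgebra.coeff_add, Finsupp.add_apply,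
      Finsupp.add_apply, hf, hg, map_add]

end skm

variable (Λ R)

/-- the functions -/
def Fo (Λ : Lev G) (R : Type) : Type := Λ.L → R

instance : CommRing (Fo Λ R) := inferInstanceAs (CommRing (Λ.L → R))

instance : MulSemiringAction G (Fo Λ R) where
  smul y c := fun l => c (y⁻¹ • l)
  one_smul c := by
    funext l
    show c ((1 : G)⁻¹ • l) = c l
    rw [inv_one, one_smul]
  mul_smul x y c := by
    funext l
    show c ((x * y)⁻¹ • l) = c (y⁻¹ • x⁻¹ • l)
    rw [mul_inv_rev, mul_smul]
  smul_zero y := rfl
  smul_add y c d := rfl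
  smul_one y := rfl
  smul_mul y c d := rfl

/-- the crossed product with the functions -/
abbrev Ob : Type := SkewMonoidAlgebra (Fo Λ R) G

/-- the first components -/
def q1 : KD Λ R →+* Fo Λ R where
  toFun c := fun l => (c.1 l).1
  map_one' := rfl
  map_mul' _ _ := rfl
  map_zero' := rfl
  map_add' _ _ := rfl

/-- the second components -/
def q2 : KD Λ R →+* Fo Λ R where
  toFun c := fun l => (c.1 l).2
  map_one' := rfl
  map_mul' _ _ := rfl
  map_zero' := rfl
  map_add' _ _ := rfl

theorem q1_smul (y : G) (c : KD Λ R) : q1 Λ R (y • c) = y • q1 Λ R c := rfl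

theorem q2_smul (y : G) (c : KD Λ R) : q2 Λ R (y • c) = y • q2 Λ R c := rfl

/-- the first projection -/
def pr1 : Db Λ R →+* Ob Λ R := skm (q1 Λ R) (q1_smul Λ R)

/-- the second projection -/
def pr2 : Db Λ R →+* Ob Λ R := skm (q2 Λ R) (q2_smul Λ R)

variable {Λ R}

theorem pr1_single (y : G) (c : KD Λ R) :
    pr1 Λ R (SkewMonoidAlgebra.single y c) = SkewMonoidAlgebra.single y (q1 Λ R c) :=
  skm_single _ _ _ _

theorem pr2_single (y : G) (c : KD Λ R) :
    pr2 Λ R (SkewMonoidAlgebra.single y c) = SkewMonoidAlgebra.single y (q2 Λ R c) :=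
  skm_single _ _ _ _

theorem pr_ext {u v : Db Λ R} (h1 : pr1 Λ R u = pr1 Λ R v) (h2 : pr2 Λ R u = pr2 Λ R v) :
    u = v := by
  apply SkewMonoidAlgebra.ext
  intro y
  apply Subtype.ext
  apply Fn.ext
  intro l
  have e1 : q1 Λ R (u.coeff y) = q1 Λ R (v.coeff y) := by
    rw [← skm_coeff (q1 Λ R) (q1_smul Λ R) u, ← skm_coeff (q1 Λ R) (q1_smul Λ R) v]
    exact congrArg (fun w => w.coeff y) h1
  have e2 : q2 Λ R (u.coeff y) = q2 Λ R (v.coeff y) := by
    rw [← skm_coeff (q2 Λ R) (q2_smul Λ R) u, ← skm_coeff (q2 Λ R) (q2_smul Λ R) v]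
    exact congrArg (fun w => w.coeff y) h2
  exact Prod.ext (congrFun e1 l) (congrFun e2 l)

section trace

variable (m : Λ.L → G) (hm : ∀ (y : G) (l : Λ.L), m (y • l) = y * m l * y⁻¹)
  (hfix : ∀ l, m l • l = l) (hfib : ∀ l l', m l = m l' → Λ.k l = Λ.k l')

include hfib in
theorem fib_finite (c : KD Λ R) (y : G) : {l | m l = y ∧ (c.1 l).1 ≠ (c.1 l).2}.Finite := by
  by_cases h : ∃ l, m l = y
  · obtain ⟨l₀, hl₀⟩ := h
    refine (c.2 (Λ.k l₀)).subset ?_
    rintro l ⟨hl, hne⟩
    exact ⟨hfib l l₀ (hl.trans hl₀.symm), hne⟩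
  · refine Set.finite_empty.subset ?_
    rintro l ⟨hl, _⟩
    exact h ⟨l, hl⟩

open Classical in
/-- the difference at the elements of a fibre -/
def dif (y : G) (c : Fn Λ R) (l : Λ.L) : R := if m l = y then (c l).1 - (c l).2 else 0

include hfib in
theorem dif_support (y : G) (c : KD Λ R) :
    (Function.support (dif m y (c : Fn Λ R))).Finite := by
  refine (fib_finite m hfib c y).subset ?_
  intro l hl
  rw [Function.mem_support] at hl
  unfold dif at hl
  by_cases h : m l = y
  · rw [if_pos h] at hl
    exact ⟨h, fun h' => hl (sub_eq_zero.2 h')⟩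
  · rw [if_neg h] at hl
    exact absurd rfl hl

/-- the sum of the differences over a fibre -/
def ty (y : G) : KD Λ R →+ R where
  toFun c := ∑ᶠ l, dif m y (c : Fn Λ R) l
  map_zero' := by
    rw [← finsum_zero (α := Λ.L) (M := R)]
    apply finsum_congr
    intro l
    unfold dif
    split_ifs
    · show (0 : R) - 0 = 0
      rw [sub_zero]
    · rfl
  map_add' c d := by
    rw [← finsum_add_distrib (dif_support m hfib y c) (dif_support m hfib y d)]
    apply finsum_congr
    intro l
    unfold dif
    split_ifs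
    · show ((c.1 l).1 + (d.1 l).1) - ((c.1 l).2 + (d.1 l).2) = _
      ring
    · rw [add_zero]

/-- the trace -/
def T : Db Λ R →+ R where
  toFun u := u.sum fun y c => ty m hfib y c
  map_zero' := SkewMonoidAlgebra.sum_zero_index
  map_add' _ _ := SkewMonoidAlgebra.sum_add_index' (fun _ => map_zero _) (fun _ _ _ => map_add _ _ _)

theorem T_single (y : G) (c : KD Λ R) :
    T m hfib (SkewMonoidAlgebra.single y c) = ∑ᶠ l, dif m y (c : Fn Λ R) l := by
  show (SkewMonoidAlgebra.single y c).sum (fun y c => ty m hfib y c) = _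
  rw [SkewMonoidAlgebra.sum_single_index]
  · rfl
  · exact map_zero _

include hm hfix in
theorem T_comm (u v : Db Λ R) : T m hfib (u * v) = T m hfib (v * u) := by
  induction u using SkewMonoidAlgebra.induction_on with
  | zero => rw [zero_mul, mul_zero]
  | add f g hf hg => rw [add_mul, mul_add, map_add, map_add, hf, hg]
  | single y c =>
    induction v using SkewMonoidAlgebra.induction_on with
    | zero => rw [zero_mul, mul_zero]
    | add f g hf hg => rw [add_mul, mul_add, map_add, map_add, hf, hg]
    | single z d =>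
      rw [single_mul_single, single_mul_single, T_single, T_single]
      rw [← finsum_comp_equiv (MulAction.toPerm y : Equiv.Perm Λ.L)]
      apply finsum_congr
      intro l
      show dif m (y * z) _ (y • l) = _
      unfold dif
      have h1 : m (y • l) = y * z ↔ m l = z * y := by
        rw [hm]
        constructor
        · intro h
          calc m l = y⁻¹ * (y * m l * y⁻¹) * y := by group
            _ = z * y := by rw [h]; group
        · intro h
          rw [h]
          group
      by_cases h2 : m l = z * y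
      · rw [if_pos h2, if_pos (h1.2 h2)]
        have h3 : ((c * y • d : KD Λ R) : Fn Λ R) (y • l) = c.1 (y • l) * d.1 l := by
          show c.1 (y • l) * d.1 (y⁻¹ • y • l) = _
          rw [inv_smul_smul]
        have h4 : ((d * z • c : KD Λ R) : Fn Λ R) l = d.1 l * c.1 (y • l) := by
          show d.1 l * c.1 (z⁻¹ • l) = _
          have h5 : z⁻¹ • l = y • l := by rw [inv_smul_eq_iff, ← mul_smul, ← h2, hfix]
          rw [h5]
        rw [h3, h4, mul_comm]
      · rw [if_neg h2, if_neg (fun h => h2 (h1.1 h))]

end trace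

end

end Pool.Agent.Y69.DZ
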