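import Mathlib
import Pool.Agent.Y69.DZ.Sk
import Pool.Agent.Y69.DZ.Bil

/-!
# The idempotent attached to an invertible matrix over the group ring
-/

set_option autoImplicit false
set_option linter.unusedSectionVars false

namespace Pool.Agent.Y69.DZ

open Finset Matrix

noncomputable section

variable {G : Type} [Group G] {Λ : Lev G} (P : Λ.L → Prop)

open Classical in
/-- the characteristic function -/
def ci (l : Λ.L) : ℤ := if P l then 1 else 0

/-- the variation -/
def dz (x : G) (l : Λ.L) : ℤ := ci P (x⁻¹ • l) - ci P l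

open Classical in
/-- the kernel of the trace -/
def ker (m : Λ.L → G) (x z : G) : ℤ := ∑ᶠ l, if m l = x * z then dz P x l else 0

variable {P} (hP : ∀ x g : G, {l | Λ.k l = g ∧ dz P x l ≠ 0}.Finite) {R : Type} [CommRing R]

include hP in
theorem gx_mem (x : G) : (fun l => ((dz P x l : R), (0 : R)) : Fn Λ R) ∈ KD Λ R := by
  intro y
  refine (hP x y).subset ?_
  rintro l ⟨hl, hne⟩
  refine ⟨hl, fun h => hne ?_⟩
  show ((dz P x l : ℤ) : R) = 0
  rw [h, Int.cast_zero]

/-- the variation as an element of the ring of pairs -/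
def gx (x : G) : KD Λ R := ⟨fun l => ((dz P x l : R), (0 : R)), gx_mem hP x⟩

variable (Λ R) in
/-- constants -/
def cst : R →+* KD Λ R where
  toFun r := ⟨fun _ => (r, r), fun _ => Set.finite_empty.subset fun _ hl => hl.2 rfl⟩
  map_one' := rfl
  map_mul' _ _ := rfl
  map_zero' := rfl
  map_add' _ _ := rfl

variable (P) in
/-- the characteristic function as an element of the ring of pairs -/
def ce : KD Λ R := ⟨fun l => ((ci P l : R), (ci P l : R)),
  fun _ => Set.finite_empty.subset fun _ hl => hl.2 rfl⟩

variable (P) in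
/-- the characteristic function -/
def cf : Fo Λ R := fun l => (ci P l : R)

variable (Λ R) in
/-- constants -/
def cst' : R →+* Fo Λ R where
  toFun r := fun _ => r
  map_one' := rfl
  map_mul' _ _ := rfl
  map_zero' := rfl
  map_add' _ _ := rfl

theorem smul_cst' (y : G) (r : R) : y • cst' Λ R r = cst' Λ R r := rfl

variable (Λ R) in
/-- the homomorphism from the group ring -/
def iota : MonoidAlgebra R G →+* Ob Λ R :=
  MonoidAlgebra.liftNCRingHom
    ({ toFun := fun c => SkewMonoidAlgebra.single 1 (cst' Λ R c)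
       map_one' := rfl
       map_mul' := by
         intro c d
         rw [single_mul_single, one_smul, one_mul, map_mul]
       map_zero' := by rw [map_zero]; exact SkewMonoidAlgebra.single_zero_right _
       map_add' := by
         intro c d
         rw [map_add]
         exact SkewMonoidAlgebra.single_add _ _ _ } : R →+* Ob Λ R)
    ({ toFun := fun y => SkewMonoidAlgebra.single y 1
       map_one' := rfl
       map_mul' := by
         intro x y
         rw [single_mul_single, smul_one, one_mul] } : G →* Ob Λ R)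
    (by
      intro c y
      show SkewMonoidAlgebra.single 1 _ * SkewMonoidAlgebra.single _ 1 =
        SkewMonoidAlgebra.single _ 1 * SkewMonoidAlgebra.single 1 _
      rw [single_mul_single, single_mul_single, one_mul, mul_one, smul_one, mul_one, one_mul,
        smul_cst'])

theorem iota_single (y : G) (r : R) :
    iota Λ R (MonoidAlgebra.single y r) = SkewMonoidAlgebra.single y (cst' Λ R r) := by
  unfold iota
  refine (MonoidAlgebra.liftNC_single _ _ _ _).trans ?_
  show SkewMonoidAlgebra.single 1 (cst' Λ R r) * SkewMonoidAlgebra.single y 1 = _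
  rw [single_mul_single, smul_one, mul_one, one_mul]

/-- the kernel with values in the crossed product -/
def kd (x z : G) : R →+ Db Λ R where
  toFun r := SkewMonoidAlgebra.single (x * z) (cst Λ R r * gx hP x)
  map_zero' := by
    rw [map_zero, zero_mul]
    exact SkewMonoidAlgebra.single_zero_right _
  map_add' r s := by
    rw [map_add, add_mul]
    exact SkewMonoidAlgebra.single_add _ _ _

theorem pr1_bil (a b : MonoidAlgebra R G) : pr1 Λ R (bil (kd hP) a b) =
    iota Λ R a * SkewMonoidAlgebra.single 1 (cf P) * iota Λ R b -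
      SkewMonoidAlgebra.single 1 (cf P) * iota Λ R (a * b) := by
  refine bi_ext (f := fun a b => pr1 Λ R (bil (kd hP) a b))
    (g := fun a b => iota Λ R a * SkewMonoidAlgebra.single 1 (cf P) * iota Λ R b -
      SkewMonoidAlgebra.single 1 (cf P) * iota Λ R (a * b)) ?_ ?_ ?_ ?_ ?_ ?_ ?_ ?_ ?_ a b
  · intro b; show pr1 Λ R (bil _ _ _) = 0; rw [bil_zero_left, map_zero]
  · intro b; show pr1 Λ R (bil _ _ _) = 0; rw [bil_zero_right, map_zero]
  · intro a a' b; show pr1 Λ R (bil _ _ _) = _; rw [bil_add_left, map_add]
  · intro a a' b; show pr1 Λ R (bil _ _ _) = _; rw [bil_add_right, map_add]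
  · intro b
    show iota Λ R 0 * _ * iota Λ R b - _ * iota Λ R (0 * b) = 0
    rw [zero_mul, map_zero, zero_mul, zero_mul, mul_zero, sub_zero]
  · intro a
    show iota Λ R a * _ * iota Λ R 0 - _ * iota Λ R (a * 0) = 0
    rw [mul_zero, map_zero, mul_zero, mul_zero, sub_zero]
  · intro a a' b
    simp only [map_add, add_mul, mul_add]
    abel
  · intro a b b'
    simp only [map_add, mul_add]
    abel
  · intro x r z t
    show pr1 Λ R (bil (kd hP) _ _) = _ * _ * _ - _ * iota Λ R (_ * _)
    rw [bil_single, MonoidAlgebra.single_mul_single, iota_single, iota_single, iota_single,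
      single_mul_single, single_mul_single, single_mul_single, mul_one, one_mul, one_smul]
    show pr1 Λ R (SkewMonoidAlgebra.single (x * z) (cst Λ R (r * t) * gx hP x)) = _
    rw [pr1_single, eq_sub_iff_add_eq, ← SkewMonoidAlgebra.single_add]
    congr 1
    funext l
    show r * t * ((ci P (x⁻¹ • l) - ci P l : ℤ) : R) + (ci P l : R) * (r * t) =
      r * (ci P (x⁻¹ • l) : R) * t
    push_cast
    ring

theorem pr2_bil (a b : MonoidAlgebra R G) : pr2 Λ R (bil (kd hP) a b) = 0 := by
  refine bi_ext (f := fun a b => pr2 Λ R (bil (kd hP) a b))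
    (g := fun a b => 0) ?_ ?_ ?_ ?_ ?_ ?_ ?_ ?_ ?_ a b
  · intro b; show pr2 Λ R (bil _ _ _) = 0; rw [bil_zero_left, map_zero]
  · intro b; show pr2 Λ R (bil _ _ _) = 0; rw [bil_zero_right, map_zero]
  · intro a a' b; show pr2 Λ R (bil _ _ _) = _; rw [bil_add_left, map_add]
  · intro a a' b; show pr2 Λ R (bil _ _ _) = _; rw [bil_add_right, map_add]
  · intro b; rfl
  · intro a; rfl
  · intro a a' b; exact (add_zero 0).symm
  · intro a b b'; exact (add_zero 0).symm
  · intro x r z t
    show pr2 Λ R (bil (kd hP) _ _) = 0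
    rw [bil_single]
    show pr2 Λ R (SkewMonoidAlgebra.single (x * z) (cst Λ R (r * t) * gx hP x)) = _
    rw [pr2_single]
    have h1 : q2 Λ R (cst Λ R (r * t) * gx hP x) = 0 := by
      funext l
      show r * t * 0 = 0
      rw [mul_zero]
    rw [h1]
    exact SkewMonoidAlgebra.single_zero_right _

section mat

variable {I J : Type} [Fintype I] [Fintype J] [DecidableEq I] [DecidableEq J]

variable (P R) in
/-- the diagonal matrix of the characteristic function -/
def dg (K : Type) [Fintype K] [DecidableEq K] : Matrix K K (Ob Λ R) :=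
  Matrix.diagonal (fun _ => SkewMonoidAlgebra.single 1 (cf P))

/-- the matrix over the crossed product -/
def EM (A : Matrix I J (MonoidAlgebra R G)) (B : Matrix J I (MonoidAlgebra R G)) :
    Matrix I I (Db Λ R) :=
  Matrix.diagonal (fun _ => SkewMonoidAlgebra.single 1 (ce P)) +
    Matrix.of fun i j => ∑ k, bil (kd hP) (A i k) (B k j)

theorem EM_pr1 (A : Matrix I J (MonoidAlgebra R G)) (B : Matrix J I (MonoidAlgebra R G))
    (hAB : A * B = 1) : (EM hP A B).map (pr1 Λ R) =
      A.map (iota Λ R) * dg P R J * B.map (iota Λ R) := by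
  ext1 i j
  have h1 : (A * B) i j = (1 : Matrix I I (MonoidAlgebra R G)) i j := by rw [hAB]
  rw [Matrix.mul_apply] at h1
  unfold EM dg
  rw [Matrix.map_apply, Matrix.add_apply, Matrix.of_apply, map_add, map_sum]
  simp only [pr1_bil]
  rw [Finset.sum_sub_distrib, ← Finset.mul_sum, ← map_sum (iota Λ R), h1, Matrix.mul_apply]
  simp only [Matrix.mul_diagonal, Matrix.map_apply]
  rw [add_sub_left_comm, add_eq_left, sub_eq_zero, Matrix.diagonal_apply, Matrix.one_apply]
  split_ifs
  · rw [map_one, mul_one]
    rw [pr1_single]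
    rfl
  · rw [map_zero, map_zero, mul_zero]

theorem EM_pr2 (A : Matrix I J (MonoidAlgebra R G)) (B : Matrix J I (MonoidAlgebra R G)) :
    (EM hP A B).map (pr2 Λ R) =
      dg P R I := by
  ext1 i j
  unfold EM dg
  rw [Matrix.map_apply, Matrix.add_apply, Matrix.of_apply, map_add, map_sum]
  simp only [pr2_bil]
  rw [Finset.sum_const_zero, add_zero, Matrix.diagonal_apply, Matrix.diagonal_apply]
  split_ifs
  · unfold pr2
    rw [skm_single]
    rfl
  · rw [map_zero]

theorem cf_sq : (SkewMonoidAlgebra.single 1 (cf P) * SkewMonoidAlgebra.single 1 (cf P) : Ob Λ R) =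
    SkewMonoidAlgebra.single 1 (cf P) := by
  rw [single_mul_single, one_smul, one_mul]
  congr 1
  funext l
  show (ci P l : R) * (ci P l : R) = (ci P l : R)
  unfold ci
  split_ifs <;> simp

theorem EM_idem (A : Matrix I J (MonoidAlgebra R G)) (B : Matrix J I (MonoidAlgebra R G))
    (hAB : A * B = 1) (hBA : B * A = 1) : EM hP A B * EM hP A B = EM hP A B := by
  have hd : ∀ {K : Type} [Fintype K] [DecidableEq K],
      dg P R K * dg P R K = dg P R K := by
    intro K _ _
    unfold dg
    rw [Matrix.diagonal_mul_diagonal]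
    congr 1
    funext _
    exact cf_sq
  have h1 : (EM hP A B * EM hP A B).map (pr1 Λ R) = (EM hP A B).map (pr1 Λ R) := by
    rw [Matrix.map_mul, EM_pr1 hP A B hAB]
    have h2 : B.map (iota Λ R) * A.map (iota Λ R) = 1 := by
      rw [← Matrix.map_mul, hBA]
      exact Matrix.map_one _ (map_zero _) (map_one _)
    set D : Matrix J J (Ob Λ R) := dg P R J with hD
    calc A.map (iota Λ R) * D * B.map (iota Λ R) * (A.map (iota Λ R) * D * B.map (iota Λ R)) =
        A.map (iota Λ R) * (D * ((B.map (iota Λ R) * A.map (iota Λ R)) * (D *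
          B.map (iota Λ R)))) := by simp only [Matrix.mul_assoc]
      _ = A.map (iota Λ R) * D * B.map (iota Λ R) := by
        rw [h2, Matrix.one_mul, ← Matrix.mul_assoc D, hD, hd, Matrix.mul_assoc]
  have h2 : (EM hP A B * EM hP A B).map (pr2 Λ R) = (EM hP A B).map (pr2 Λ R) := by
    rw [Matrix.map_mul, EM_pr2 hP A B, hd]
  ext1 i j
  exact pr_ext (congrFun (congrFun h1 i) j) (congrFun (congrFun h2 i) j)

section trace

variable (m : Λ.L → G) (hfib : ∀ l l', m l = m l' → Λ.k l = Λ.k l')

/-- the trace of a matrix -/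
def TM : Matrix I I (Db Λ R) →+ R :=
  (T m hfib).comp (Matrix.traceAddMonoidHom I (Db Λ R))

theorem TM_apply (X : Matrix I I (Db Λ R)) : TM m hfib X = ∑ i, T m hfib (X i i) := by
  show T m hfib (∑ i, X i i) = _
  rw [map_sum]

theorem TM_comm (hm : ∀ (y : G) (l : Λ.L), m (y • l) = y * m l * y⁻¹) (hfix : ∀ l, m l • l = l)
    (X Y : Matrix I I (Db Λ R)) : TM m hfib (X * Y) = TM m hfib (Y * X) := by
  rw [TM_apply, TM_apply]
  simp only [Matrix.mul_apply, map_sum]
  rw [Finset.sum_comm]
  exact Finset.sum_congr rfl fun i _ => Finset.sum_congr rfl fun j _ =>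
    T_comm m hm hfix hfib _ _

include hP hfib in
theorem ker_support (x z : G) [DecidablePred fun l => m l = x * z] :
    (Function.support fun l => if m l = x * z then dz P x l else 0).Finite := by
  by_cases h : ∃ l, m l = x * z
  · obtain ⟨l₀, hl₀⟩ := h
    refine (hP x (Λ.k l₀)).subset ?_
    intro l hl
    rw [Function.mem_support] at hl
    by_cases h1 : m l = x * z
    · rw [if_pos h1] at hl
      exact ⟨hfib l l₀ (h1.trans hl₀.symm), hl⟩
    · rw [if_neg h1] at hl
      exact absurd rfl hl
  · refine Set.finite_empty.subset ?_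
    intro l hl
    rw [Function.mem_support] at hl
    by_cases h1 : m l = x * z
    · exact h ⟨l, h1⟩
    · rw [if_neg h1] at hl
      exact absurd rfl hl

theorem T_bil (a b : MonoidAlgebra R G) :
    T m hfib (bil (kd hP) a b) = bz (ker P m) a b := by
  classical
  rw [map_bil]
  unfold bz
  congr 1
  funext x z
  ext r
  show T m hfib (SkewMonoidAlgebra.single (x * z) (cst Λ R r * gx hP x)) =
    r * ((ker P m x z : ℤ) : R)
  rw [T_single]
  unfold ker
  have h1 : (((∑ᶠ l, if m l = x * z then dz P x l else 0 : ℤ)) : R) =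
      ∑ᶠ l, (((if m l = x * z then dz P x l else 0 : ℤ)) : R) :=
    (Int.castAddHom R).map_finsum (ker_support hP m hfib x z)
  rw [h1, mul_finsum' _ _ ?_]
  · apply finsum_congr
    intro l
    unfold dif
    split_ifs
    · show r * ((dz P x l : ℤ) : R) - r * 0 = _
      rw [mul_zero, sub_zero]
    · rw [Int.cast_zero, mul_zero]
  · refine (ker_support hP m hfib x z).subset ?_
    intro l hl
    rw [Function.mem_support] at hl ⊢
    intro h2
    apply hl
    rw [h2, Int.cast_zero]

theorem T_ce : T m hfib (SkewMonoidAlgebra.single 1 (ce P) : Db Λ R) = 0 := by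
  rw [T_single, ← finsum_zero (α := Λ.L) (M := R)]
  apply finsum_congr
  intro l
  unfold dif
  split_ifs
  · exact sub_self _
  · rfl

/-- the trace of the idempotent -/
theorem TM_EM (A : Matrix I J (MonoidAlgebra R G)) (B : Matrix J I (MonoidAlgebra R G)) :
    TM m hfib (EM hP A B) = BM (ker P m) A B := by
  rw [TM_apply]
  unfold BM
  apply Finset.sum_congr rfl
  intro i _
  unfold EM
  rw [Matrix.add_apply, Matrix.diagonal_apply_eq, Matrix.of_apply, map_add, T_ce, zero_add,
    map_sum]
  apply Finset.sum_congr rfl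
  intro j _
  exact T_bil hP m hfib _ _

end trace

end mat

end

end Pool.Agent.Y69.DZ
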