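import Mathlib
import Pool.Agent.Y69.DZ.Em
import Pool.Agent.H71R2.Idem.Frob

/-!
# Traces of powers over the crossed product
-/

set_option autoImplicit false
set_option linter.unusedSectionVars false

namespace Pool.Agent.Y69.DZ

open Finset Matrix

noncomputable section

variable {G : Type} [Group G] {Λ : Lev G} {R : Type} [CommRing R]
  {I : Type} [Fintype I] [DecidableEq I]

/-- the matrix `K ⊗ y` -/
def io (K : Matrix I I (KD Λ R)) (y : G) : Matrix I I (Db Λ R) :=
  K.map (SkewMonoidAlgebra.single y)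

/-- the twist of a matrix -/
def tw (y : G) (K : Matrix I I (KD Λ R)) : Matrix I I (KD Λ R) := K.map (fun c => y • c)

theorem single_sum {K : Type} [Ring K] (y : G) {ι : Type} (s : Finset ι) (c : ι → K) :
    (SkewMonoidAlgebra.single y (∑ i ∈ s, c i) : SkewMonoidAlgebra K G) =
      ∑ i ∈ s, SkewMonoidAlgebra.single y (c i) := by
  classical
  induction s using Finset.induction_on with
  | empty =>
    rw [Finset.sum_empty, Finset.sum_empty]
    exact SkewMonoidAlgebra.single_zero_right _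
  | insert a s ha ih => rw [Finset.sum_insert ha, Finset.sum_insert ha,
      SkewMonoidAlgebra.single_add, ih]

theorem io_mul (K K' : Matrix I I (KD Λ R)) (y z : G) :
    io K y * io K' z = io (K * tw y K') (y * z) := by
  ext1 i j
  unfold io tw
  rw [Matrix.mul_apply, Matrix.map_apply, Matrix.mul_apply, single_sum]
  apply Finset.sum_congr rfl
  intro k _
  rw [Matrix.map_apply, Matrix.map_apply, Matrix.map_apply, single_mul_single]

theorem io_one : io (1 : Matrix I I (KD Λ R)) (1 : G) = 1 := by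
  ext1 i j
  unfold io
  rw [Matrix.map_apply, Matrix.one_apply, Matrix.one_apply]
  split_ifs
  · rfl
  · exact SkewMonoidAlgebra.single_zero_right _

/-- the twisted powers -/
def twp (K : Matrix I I (KD Λ R)) (y : G) : ℕ → Matrix I I (KD Λ R)
  | 0 => 1
  | n + 1 => twp K y n * tw (y ^ n) K

theorem io_pow (K : Matrix I I (KD Λ R)) (y : G) (n : ℕ) :
    (io K y) ^ n = io (twp K y n) (y ^ n) := by
  induction n with
  | zero => rw [pow_zero, pow_zero]; exact io_one.symm
  | succ n ih => rw [pow_succ, ih, io_mul, ← pow_succ]; rfl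

theorem io_mpr {n : ℕ} (K : ZMod n → Matrix I I (KD Λ R)) (y : ZMod n → G) (k : ZMod n) (m : ℕ) :
    ∃ K', Pool.Agent.H23R2.Cyc.mpr (fun i => io (K i) (y i)) k m =
      io K' (Pool.Agent.H23R2.Cyc.mpr y k m) := by
  induction m with
  | zero => exact ⟨1, io_one.symm⟩
  | succ m ih =>
    obtain ⟨K', hK'⟩ := ih
    rw [Pool.Agent.H23R2.Cyc.mpr, hK', io_mul]
    exact ⟨_, rfl⟩

variable (R) in
/-- evaluation of the first component -/
def ev1 (l : Λ.L) : KD Λ R →+* R where
  toFun c := (c.1 l).1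
  map_one' := rfl
  map_mul' _ _ := rfl
  map_zero' := rfl
  map_add' _ _ := rfl

variable (R) in
/-- evaluation of the second component -/
def ev2 (l : Λ.L) : KD Λ R →+* R where
  toFun c := (c.1 l).2
  map_one' := rfl
  map_mul' _ _ := rfl
  map_zero' := rfl
  map_add' _ _ := rfl

theorem twp_ev1 (K : Matrix I I (KD Λ R)) (y : G) (l : Λ.L) (h : y • l = l) (n : ℕ) :
    (twp K y n).map (ev1 R l) = (K.map (ev1 R l)) ^ n := by
  have hl : ∀ n : ℕ, (y ^ n)⁻¹ • l = l := by
    intro n
    rw [inv_smul_eq_iff]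
    induction n with
    | zero => rw [pow_zero, one_smul]
    | succ n ih => rw [pow_succ, mul_smul, h, ← ih]
  induction n with
  | zero => exact Matrix.map_one _ (map_zero _) (map_one _)
  | succ n ih =>
    rw [pow_succ, ← ih]
    show (twp K y n * tw (y ^ n) K).map (ev1 R l) = _
    rw [Matrix.map_mul]
    congr 1
    ext1 i j
    show ((K i j).1 ((y ^ n)⁻¹ • l)).1 = ((K i j).1 l).1
    rw [hl]

theorem twp_ev2 (K : Matrix I I (KD Λ R)) (y : G) (l : Λ.L) (h : y • l = l) (n : ℕ) :
    (twp K y n).map (ev2 R l) = (K.map (ev2 R l)) ^ n := by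
  have hl : ∀ n : ℕ, (y ^ n)⁻¹ • l = l := by
    intro n
    rw [inv_smul_eq_iff]
    induction n with
    | zero => rw [pow_zero, one_smul]
    | succ n ih => rw [pow_succ, mul_smul, h, ← ih]
  induction n with
  | zero => exact Matrix.map_one _ (map_zero _) (map_one _)
  | succ n ih =>
    rw [pow_succ, ← ih]
    show (twp K y n * tw (y ^ n) K).map (ev2 R l) = _
    rw [Matrix.map_mul]
    congr 1
    ext1 i j
    show ((K i j).1 ((y ^ n)⁻¹ • l)).2 = ((K i j).1 l).2
    rw [hl]

section trace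

variable (m : Λ.L → G) (hfib : ∀ l l', m l = m l' → Λ.k l = Λ.k l')

open Classical in
theorem TM_io (K : Matrix I I (KD Λ R)) (y : G) : TM m hfib (io K y) =
    ∑ᶠ l, if m l = y then (K.map (ev1 R l)).trace - (K.map (ev2 R l)).trace else 0 := by
  rw [TM_apply]
  have h1 : ∑ i, T m hfib (io K y i i) = ty m hfib y (∑ i, K i i) := by
    rw [map_sum]
    apply Finset.sum_congr rfl
    intro i _
    exact T_single m hfib y (K i i)
  rw [h1]
  apply finsum_congr
  intro l
  unfold dif
  split_ifs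
  · show ev1 R l (∑ i, K i i) - ev2 R l (∑ i, K i i) = _
    rw [map_sum, map_sum]
    rfl
  · rfl

theorem TM_io_zero (K : Matrix I I (KD Λ R)) (y : G) (h : ∀ l, m l ≠ y) :
    TM m hfib (io K y) = 0 := by
  classical
  rw [TM_io, finsum_congr (g := fun _ => (0 : R)) (fun l => if_neg (h l))]
  exact finsum_zero

/-- The trace of an idempotent is divisible by every power of `p` when the elements have order
divisible by `p`. -/
theorem TM_van (hm : ∀ (y : G) (l : Λ.L), m (y • l) = y * m l * y⁻¹) (hfix : ∀ l, m l • l = l)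
    (E : Matrix I I (Db Λ R)) (hE : E * E = E) {J : Type} [Fintype J]
    (K : J → Matrix I I (KD Λ R)) (y : J → G) (hK : E = ∑ j, io (K j) (y j))
    {p : ℕ} [hp : Fact p.Prime] (n : ℕ) (hn : n ≠ 0) (hpn : p ∣ n) (ho : ∀ l, orderOf (m l) = n)
    {M : Type} [AddCommGroup M] (e : ℕ) (hM : ∀ x : M, p ^ e • x = 0) (φ : R →+ M) :
    φ (TM m hfib E) = 0 := by
  classical
  by_contra hne
  have hEpow : ∀ n : ℕ, n ≠ 0 → E ^ n = E := by
    intro n hn
    obtain ⟨n, rfl⟩ : ∃ n', n = n' + 1 := ⟨n - 1, by omega⟩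
    exact IsIdempotentElem.pow_succ_eq n hE
  let W : (_root_.Fin (p ^ e) → J) → G := fun v => (List.ofFn fun i => y (v i)).prod
  have key : ∀ k : ℕ, ∃ v : _root_.Fin (p ^ e) → J, ∃ l, m l = (W v) ^ p ^ k := by
    intro k
    have hn : p ^ (e + k) ≠ 0 := pow_ne_zero _ hp.out.ne_zero
    have : NeZero (p ^ (e + k)) := ⟨hn⟩
    have h1 := Pool.Agent.H23R2.Cyc.trace_pow (φ.comp (TM (I := I) m hfib))
      (fun x y => congrArg φ (TM_comm m hfib hm hfix x y)) k (p ^ (e + k)) rfl hM
      (fun j : J => io (K j) (y j))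
    rw [← hK, hEpow _ hn] at h1
    rw [AddMonoidHom.comp_apply] at h1
    rw [h1] at hne
    obtain ⟨w, _, hw⟩ := Finset.exists_ne_zero_of_sum_ne_zero hne
    obtain ⟨K', hK'⟩ := io_mpr (fun i => K (w i)) (fun i => y (w i)) 0 (p ^ e)
    rw [hK', io_pow, AddMonoidHom.comp_apply] at hw
    by_contra hcon
    push Not at hcon
    apply hw
    rw [TM_io_zero, map_zero]
    intro l
    have h2 := hcon (fun i => w (0 + ((i : ℕ) : ZMod _))) l
    rw [Pool.Agent.H23R2.Cyc.mpr_eq_ofFn]
    exact h2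
  choose v l hl using key
  obtain ⟨a, b, hab, hvv⟩ := Finite.exists_ne_map_eq_of_infinite v
  wlog hlt : a < b generalizing a b
  · exact this b a hab.symm hvv.symm (by omega)
  have h1 := hl a
  have h2 := hl b
  rw [← hvv] at h2
  have h3 : (W (v a)) ^ p ^ b = ((W (v a)) ^ p ^ a) ^ p ^ (b - a) := by
    rw [← pow_mul, ← pow_add]
    congr 2
    omega
  rw [h3, ← h1] at h2
  have h4 := ho (l b)
  rw [h2, orderOf_pow' _ (pow_ne_zero _ hp.out.ne_zero), ho] at h4
  have h5 : 1 < n.gcd (p ^ (b - a)) := by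
    have h6 : p ∣ n.gcd (p ^ (b - a)) := Nat.dvd_gcd hpn (dvd_pow_self p (by omega))
    have h7 : 0 < n.gcd (p ^ (b - a)) := Nat.gcd_pos_of_pos_left _ (Nat.pos_of_ne_zero hn)
    exact lt_of_lt_of_le hp.out.one_lt (Nat.le_of_dvd h7 h6)
  have h6 := Nat.div_lt_self (Nat.pos_of_ne_zero hn) h5
  omega

end trace

/-- The Frobenius on the traces. -/
theorem TM_frob {q : ℕ} [hq : Fact q.Prime] (m m' : Λ.L → G)
    (hm : ∀ (y : G) (l : Λ.L), m (y • l) = y * m l * y⁻¹) (hfix : ∀ l, m l • l = l)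
    (hfib : ∀ l l', m l = m l' → Λ.k l = Λ.k l') (hfib' : ∀ l l', m' l = m' l' → Λ.k l = Λ.k l')
    (E : Matrix I I (Db Λ (ZMod q))) (hE : E * E = E) {J : Type} [Fintype J]
    (K : J → Matrix I I (KD Λ (ZMod q))) (y : J → G) (hK : E = ∑ j, io (K j) (y j))
    (h1 : ∀ j l, m l = y j ^ q ↔ m' l = y j) (h2 : ∀ j l, m l = y j ^ q → y j • l = l) :
    TM m hfib E = TM m' hfib' E := by
  classical
  have hEq : E ^ q = E := by
    have := IsIdempotentElem.pow_succ_eq (q - 1) hE
    rwa [Nat.sub_add_cancel hq.out.one_lt.le] at this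
  have key : ∀ S : Finset J, TM m hfib ((∑ j ∈ S, io (K j) (y j)) ^ q) =
      ∑ j ∈ S, TM m hfib ((io (K j) (y j)) ^ q) := by
    intro S
    induction S using Finset.induction_on with
    | empty => rw [Finset.sum_empty, Finset.sum_empty, zero_pow hq.out.ne_zero, map_zero]
    | insert a S ha ih =>
      rw [Finset.sum_insert ha, Finset.sum_insert ha,
        Pool.Agent.H71R2.Idem.trace_add_pow q _ (TM_comm m hfib hm hfix), ih]
  have h3 := key Finset.univ
  rw [← hK, hEq] at h3
  rw [h3]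
  conv_rhs => rw [hK, map_sum]
  apply Finset.sum_congr rfl
  intro j _
  rw [io_pow, TM_io, TM_io]
  apply finsum_congr
  intro l
  by_cases h4 : m l = y j ^ q
  · rw [if_pos h4, if_pos ((h1 j l).1 h4), twp_ev1 _ _ _ (h2 j l h4), twp_ev2 _ _ _ (h2 j l h4),
      ZMod.trace_pow_card, ZMod.trace_pow_card, ZMod.pow_card, ZMod.pow_card]
  · rw [if_neg h4, if_neg (fun h5 => h4 ((h1 j l).2 h5))]

section atoms

variable {P : Λ.L → Prop} (hP : ∀ x g : G, {l | Λ.k l = g ∧ dz P x l ≠ 0}.Finite)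
  {J : Type} [Fintype J] [DecidableEq J]

/-- the group elements of the atoms -/
def yy (S₁ S₂ : Finset G) : Option ({x // x ∈ S₁} × {z // z ∈ S₂}) → G
  | none => 1
  | some w => w.1.1 * w.2.1

theorem EM_atoms (A : Matrix I J (MonoidAlgebra R G)) (B : Matrix J I (MonoidAlgebra R G))
    (S₁ S₂ : Finset G) (h₁ : ∀ i k x, (A i k).coeff x ≠ 0 → x ∈ S₁)
    (h₂ : ∀ k j z, (B k j).coeff z ≠ 0 → z ∈ S₂) :
    ∃ K : Option ({x // x ∈ S₁} × {z // z ∈ S₂}) → Matrix I I (KD Λ R),
      EM hP A B = ∑ w, io (K w) (yy S₁ S₂ w) := by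
  classical
  let K : Option ({x // x ∈ S₁} × {z // z ∈ S₂}) → Matrix I I (KD Λ R) := fun w =>
    match w with
    | none => Matrix.diagonal (fun _ => ce P)
    | some w => Matrix.of fun i j => ∑ k, cst Λ R ((A i k).coeff w.1.1 * (B k j).coeff w.2.1) *
        gx hP w.1.1
  refine ⟨K, ?_⟩
  rw [Fintype.sum_option]
  unfold EM
  congr 1
  · ext1 i j
    show _ = SkewMonoidAlgebra.single 1 (Matrix.diagonal (fun _ => ce P) i j)
    rw [Matrix.diagonal_apply, Matrix.diagonal_apply]
    split_ifs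
    · rfl
    · exact (SkewMonoidAlgebra.single_zero_right _).symm
  · ext1 i j
    rw [Matrix.of_apply, Matrix.sum_apply]
    have h3 : ∀ w : {x // x ∈ S₁} × {z // z ∈ S₂},
        io (K (some w)) (yy S₁ S₂ (some w)) i j = ∑ k, kd hP w.1.1 w.2.1
          ((A i k).coeff w.1.1 * (B k j).coeff w.2.1) := by
      intro w
      show SkewMonoidAlgebra.single (w.1.1 * w.2.1) (∑ k, _) = _
      rw [single_sum]
      rfl
    simp only [h3]
    rw [Finset.sum_comm]
    apply Finset.sum_congr rfl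
    intro k _
    rw [Fintype.sum_prod_type]
    unfold bil
    rw [Finsupp.sum_of_support_subset (s := S₁) _ (fun x hx => h₁ i k x
      (Finsupp.mem_support_iff.1 hx)), ← Finset.sum_coe_sort S₁]
    · apply Finset.sum_congr rfl
      intro x _
      rw [Finsupp.sum_of_support_subset (s := S₂) _ (fun z hz => h₂ k j z
        (Finsupp.mem_support_iff.1 hz)), ← Finset.sum_coe_sort S₂]
      intro z _
      rw [mul_zero, map_zero]
    · intro x _
      simp

end atoms

end

end Pool.Agent.Y69.DZ
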