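import Mathlib
import Pool.Agent.Y69.DZ.Frob

/-!
# The `G`-set attached to a homomorphism on a centralizer
-/

set_option autoImplicit false
set_option linter.unusedSectionVars false

namespace Pool.Agent.Y69.DZ

open Finset Matrix

noncomputable section

variable {G : Type} [Group G]

/-- the cocycle condition on a conjugacy class -/
def IsCoc (s : G) (η : G → G → ℤ) : Prop :=
  ∀ y z k, IsConj s k → η (y * z) k = η y (z * k * z⁻¹) + η z k

theorem isConj_conj {s k : G} (h : IsConj s k) (y : G) : IsConj s (y * k * y⁻¹) :=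
  h.trans (isConj_iff.2 ⟨y, rfl⟩)

theorem IsCoc.one {s : G} {η : G → G → ℤ} (h : IsCoc s η) {k : G} (hk : IsConj s k) :
    η 1 k = 0 := by
  have h1 := h 1 1 k hk
  rw [one_mul, inv_one, mul_one, one_mul] at h1
  omega

open Classical in
/-- the kernel of a cocycle -/
def kn (s : G) (η : G → G → ℤ) (x z : G) : ℤ := if IsConj s (x * z) then η x⁻¹ (x * z) else 0

theorem kn_cocycle {s : G} {η : G → G → ℤ} (h : IsCoc s η) (h0 : ∀ k, IsConj s k → η k k = 0)
    (x y z : G) : kn s η (x * y) z - kn s η x (y * z) + kn s η (z * x) y = 0 := by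
  unfold kn
  have e1 : x * y * z = x * (y * z) := mul_assoc _ _ _
  have e2 : IsConj s (z * x * y) ↔ IsConj s (x * (y * z)) := by
    constructor
    · intro h1
      have := isConj_conj h1 z⁻¹
      rwa [show z⁻¹ * (z * x * y) * z⁻¹⁻¹ = x * (y * z) by group] at this
    · intro h1
      have := isConj_conj h1 z
      rwa [show z * (x * (y * z)) * z⁻¹ = z * x * y by group] at this
  by_cases hc : IsConj s (x * (y * z))
  · rw [e1, if_pos hc, if_pos hc, if_pos (e2.2 hc)]
    set k := x * (y * z) with hk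
    have a1 : η (x * y)⁻¹ k = η y⁻¹ (x⁻¹ * k * x⁻¹⁻¹) + η x⁻¹ k := by
      rw [_root_.mul_inv_rev]
      exact h _ _ _ hc
    have a2 : z * x * y = z * k * z⁻¹ := by rw [hk]; group
    have a3 : η (z * x)⁻¹ (z * k * z⁻¹) = η x⁻¹ (z⁻¹ * (z * k * z⁻¹) * z⁻¹⁻¹) +
        η z⁻¹ (z * k * z⁻¹) := by
      rw [_root_.mul_inv_rev]
      exact h _ _ _ (isConj_conj hc z)
    have a4 : z⁻¹ * (z * k * z⁻¹) * z⁻¹⁻¹ = k := by group
    have a5 := h z⁻¹ z k hc
    rw [inv_mul_cancel, h.one hc] at a5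
    have a6 : η z k = η y⁻¹ (x⁻¹ * k * x⁻¹⁻¹) + η x⁻¹ k + η k k := by
      have b1 : z = y⁻¹ * x⁻¹ * k := by rw [hk]; group
      have b2 := h (y⁻¹ * x⁻¹) k k hc
      rw [← b1, mul_inv_cancel_right] at b2
      rw [b2, h y⁻¹ x⁻¹ k hc]
    have a7 := h0 k hc
    rw [a1, a2, a3, a4]
    omega
  · rw [e1, if_neg hc, if_neg hc, if_neg (fun h1 => hc (e2.1 h1))]
    rfl

section section_

open Classical in
/-- a conjugating element -/
def cc (s k : G) : G := if h : IsConj s k then (isConj_iff.1 h).choose else 1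

theorem cc_spec {s k : G} (h : IsConj s k) : cc s k * s * (cc s k)⁻¹ = k := by
  unfold cc
  rw [dif_pos h]
  exact (isConj_iff.1 h).choose_spec

theorem cc_spec' {s k : G} (h : IsConj s k) : cc s k * s = k * cc s k := by
  calc cc s k * s = (cc s k * s * (cc s k)⁻¹) * cc s k := by group
    _ = k * cc s k := by rw [cc_spec h]

/-- additivity on the centralizer -/
def Adm (s : G) (f : G → ℤ) : Prop := ∀ x y, Commute x s → Commute y s → f (x * y) = f x + f y

/-- the cocycle of a homomorphism on the centralizer -/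
def et (s : G) (f : G → ℤ) (y k : G) : ℤ := f ((cc s (y * k * y⁻¹))⁻¹ * y * cc s k)

theorem comm_et {s k : G} (h : IsConj s k) (y : G) :
    Commute ((cc s (y * k * y⁻¹))⁻¹ * y * cc s k) s := by
  have h1 := cc_spec' h
  have h2 := cc_spec' (isConj_conj h y)
  show _ * _ * _ * s = s * (_ * _ * _)
  calc (cc s (y * k * y⁻¹))⁻¹ * y * cc s k * s =
      (cc s (y * k * y⁻¹))⁻¹ * y * (cc s k * s) := by group
    _ = (cc s (y * k * y⁻¹))⁻¹ * (y * k * y⁻¹ * cc s (y * k * y⁻¹)) *
        (cc s (y * k * y⁻¹))⁻¹ * y * cc s k := by rw [h1]; group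
    _ = s * ((cc s (y * k * y⁻¹))⁻¹ * y * cc s k) := by rw [← h2]; group

theorem et_coc {s : G} {f : G → ℤ} (hf : Adm s f) : IsCoc s (et s f) := by
  intro y z k hk
  unfold et
  have e1 : y * z * k * (y * z)⁻¹ = y * (z * k * z⁻¹) * y⁻¹ := by group
  rw [← hf _ _ (comm_et (isConj_conj hk z) y) (comm_et hk z), e1]
  congr 1
  group

theorem Adm.one {s : G} {f : G → ℤ} (hf : Adm s f) : f 1 = 0 := by
  have h := hf 1 1 (Commute.one_left s) (Commute.one_left s)
  rw [one_mul] at h
  omega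

theorem Adm.pow {s : G} {f : G → ℤ} (hf : Adm s f) {x : G} (hx : Commute x s) (n : ℕ) :
    f (x ^ n) = n * f x := by
  induction n with
  | zero => rw [pow_zero, hf.one]; simp
  | succ n ih =>
    rw [pow_succ, hf _ _ (hx.pow_left n) hx, ih]
    push_cast
    ring

theorem Adm.self {s : G} {f : G → ℤ} (hf : Adm s f) (hs : orderOf s ≠ 0) : f s = 0 := by
  have h := hf.pow (Commute.refl s) (orderOf s)
  rw [pow_orderOf_eq_one, hf.one] at h
  have h1 : (orderOf s : ℤ) ≠ 0 := by exact_mod_cast hs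
  rcases mul_eq_zero.1 h.symm with h2 | h2
  · exact absurd h2 h1
  · exact h2

theorem Adm.conj {s : G} {f : G → ℤ} (hf : Adm s f) {z x : G} (hz : Commute z s)
    (hx : Commute x s) : f (z⁻¹ * x * z) = f x := by
  have h1 := hf z z⁻¹ hz hz.inv_left
  rw [mul_inv_cancel, hf.one] at h1
  rw [hf _ _ (hz.inv_left.mul_left hx) hz, hf _ _ hz.inv_left hx]
  omega

theorem et_self {s : G} {f : G → ℤ} (hf : Adm s f) (hs : orderOf s ≠ 0) (k : G)
    (hk : IsConj s k) : et s f k k = 0 := by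
  unfold et
  rw [mul_inv_cancel_right]
  have h1 : (cc s k)⁻¹ * k * cc s k = s := by
    conv_lhs => rw [← cc_spec hk]
    simp only [cc_spec hk]
    rw [mul_assoc, ← cc_spec' hk]
    group
  rw [h1]
  exact hf.self hs

theorem et_comm {s : G} {f : G → ℤ} (hf : Adm s f) {z : G} (hz : Commute z s) :
    et s f z s = f z := by
  unfold et
  have h1 : z * s * z⁻¹ = s := by rw [hz.eq, mul_inv_cancel_right]
  rw [h1]
  apply hf.conj _ hz
  have h2 := cc_spec' (IsConj.refl s)
  exact h2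

/-- Two cocycles with the same restriction to the centralizer give the same functional. -/
theorem BM_coc {s : G} (hs : s ≠ 1) {f : G → ℤ} {η : G → G → ℤ}
    (hη : IsCoc s η) (h : ∀ z, Commute z s → η z s = f z)
    {R : Type} [CommRing R] {I J : Type} [Fintype I] [Fintype J] [DecidableEq I] [DecidableEq J]
    (A : Matrix I J (MonoidAlgebra R G)) (B : Matrix J I (MonoidAlgebra R G)) (hAB : A * B = 1)
    (hBA : B * A = 1) : BM (kn s η) A B = BM (kn s (et s f)) A B := by
  classical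
  let h' : G → ℤ := fun k => if IsConj s k then η (cc s k) s else 0
  have h1 : h' 1 = 0 := by
    show (if IsConj s 1 then η (cc s 1) s else 0) = 0
    rw [if_neg]
    rw [isConj_one_left]
    exact hs
  have hk : ∀ y k, IsConj s k → η y k = et s f y k + (h' (y * k * y⁻¹) - h' k) := by
    intro y k hk
    have hk' := isConj_conj hk y
    show η y k = et s f y k + ((if IsConj s (y * k * y⁻¹) then η (cc s (y * k * y⁻¹)) s else 0) -
      if IsConj s k then η (cc s k) s else 0)
    rw [if_pos hk, if_pos hk']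
    have a1 := hη y (cc s k) s (IsConj.refl s)
    rw [cc_spec hk] at a1
    have a2 := hη (cc s (y * k * y⁻¹)) ((cc s (y * k * y⁻¹))⁻¹ * y * cc s k) s (IsConj.refl s)
    have a3 := comm_et hk y
    have a4 : (cc s (y * k * y⁻¹))⁻¹ * y * cc s k * s *
        ((cc s (y * k * y⁻¹))⁻¹ * y * cc s k)⁻¹ = s := by
      rw [a3.eq, mul_inv_cancel_right]
    rw [a4, h _ a3] at a2
    have a5 : cc s (y * k * y⁻¹) * ((cc s (y * k * y⁻¹))⁻¹ * y * cc s k) = y * cc s k := by group
    rw [a5] at a2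
    unfold et
    omega
  have e1 : kn s η = fun x z => kn s (et s f) x z + (h' (z * x) - h' (x * z)) := by
    funext x z
    unfold kn
    have e2 : x⁻¹ * (x * z) * x⁻¹⁻¹ = z * x := by group
    by_cases hc : IsConj s (x * z)
    · rw [if_pos hc, if_pos hc, hk _ _ hc, e2]
    · have hc' : ¬ IsConj s (z * x) := by
        intro h3
        apply hc
        have := isConj_conj h3 x
        rwa [show x * (z * x) * x⁻¹ = x * z by group] at this
      rw [if_neg hc, if_neg hc]
      show 0 = 0 + ((if IsConj s (z * x) then _ else 0) - (if IsConj s (x * z) then _ else 0))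
      rw [if_neg hc, if_neg hc']
      rfl
  rw [e1, BM_add, BM_cob h' h1 A B hAB hBA, add_zero]

end section_

section level

variable {s : G} {η : G → G → ℤ} (hη : IsCoc s η)

/-- the level of a cocycle -/
def lev : Lev G where
  L := {k // IsConj s k} × ℤ
  act :=
    { smul := fun y l => (⟨y * l.1.1 * y⁻¹, isConj_conj l.1.2 y⟩, l.2 + η y l.1.1)
      one_smul := by
        rintro ⟨⟨k, hk⟩, i⟩
        show ((⟨1 * k * 1⁻¹, _⟩, i + η 1 k) : {k // IsConj s k} × ℤ) = _
        congr 1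
        · apply Subtype.ext
          show 1 * k * 1⁻¹ = k
          group
        · rw [hη.one hk, add_zero]
      mul_smul := by
        rintro x y ⟨⟨k, hk⟩, i⟩
        show ((⟨x * y * k * (x * y)⁻¹, _⟩, i + η (x * y) k) : {k // IsConj s k} × ℤ) =
          (⟨x * (y * k * y⁻¹) * x⁻¹, _⟩, i + η y k + η x (y * k * y⁻¹))
        congr 1
        · apply Subtype.ext
          show x * y * k * (x * y)⁻¹ = x * (y * k * y⁻¹) * x⁻¹
          group
        · rw [hη x y k hk]
          ring }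
  k := fun l => l.1.1
  equi := fun y l => rfl

/-- the nonnegative part -/
def pos (l : (lev hη).L) : Prop := 0 ≤ l.2

theorem smul_lev (y : G) (l : (lev hη).L) :
    y • l = (⟨y * l.1.1 * y⁻¹, isConj_conj l.1.2 y⟩, l.2 + η y l.1.1) := rfl

theorem ci_lev (l : (lev hη).L) : ci (Λ := lev hη) (pos hη) l = if 0 ≤ l.2 then 1 else 0 := by
  unfold ci
  by_cases h : 0 ≤ l.2
  · rw [if_pos h, if_pos (show pos hη l from h)]
  · rw [if_neg h, if_neg (show ¬ pos hη l from h)]

theorem dz_lev (x : G) (l : (lev hη).L) :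
    dz (Λ := lev hη) (pos hη) x l =
      (if 0 ≤ l.2 + η x⁻¹ l.1.1 then 1 else 0) - (if 0 ≤ l.2 then 1 else 0) := by
  unfold dz
  rw [ci_lev, ci_lev]
  rfl

theorem dz_ne {x : G} {l : (lev hη).L} (h : dz (Λ := lev hη) (pos hη) x l ≠ 0) :
    -|η x⁻¹ l.1.1| ≤ l.2 ∧ l.2 < |η x⁻¹ l.1.1| := by
  rw [dz_lev] at h
  have h1 := le_abs_self (η x⁻¹ l.1.1)
  have h2 := neg_abs_le (η x⁻¹ l.1.1)
  by_contra hcon
  apply h
  by_cases h3 : 0 ≤ l.2
  · rw [if_pos h3, if_pos (by omega)]
    rfl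
  · rw [if_neg h3, if_neg (by omega)]
    rfl

theorem lev_fin (x g : G) :
    {l | (lev hη).k l = g ∧ dz (Λ := lev hη) (pos hη) x l ≠ 0}.Finite := by
  by_cases hg : IsConj s g
  · have h1 : {l | (lev hη).k l = g ∧ dz (Λ := lev hη) (pos hη) x l ≠ 0} ⊆
        (fun i : ℤ => ((⟨g, hg⟩, i) : (lev hη).L)) '' Set.Icc (-|η x⁻¹ g|) |η x⁻¹ g| := by
      rintro ⟨⟨k, hk⟩, i⟩ ⟨hl, hne⟩
      have hkg : k = g := hl
      subst hkg
      have h2 := dz_ne hη hne
      exact ⟨i, ⟨h2.1, h2.2.le⟩, rfl⟩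
    exact (Set.Finite.image _ (Set.finite_Icc _ _)).subset h1
  · refine Set.finite_empty.subset ?_
    rintro ⟨⟨k, hk⟩, i⟩ ⟨hl, _⟩
    have hkg : k = g := hl
    subst hkg
    exact hg hk

theorem int_sum (e : ℤ) : ∑ i ∈ Finset.Ico (-|e|) |e|,
    (((if 0 ≤ i + e then 1 else 0) - (if 0 ≤ i then 1 else 0)) : ℤ) = e := by
  have h1 := le_abs_self e
  have h2 := neg_abs_le e
  have h3 := abs_nonneg e
  rw [Finset.sum_sub_distrib, Finset.sum_boole, Finset.sum_boole]
  have e1 : (Finset.Ico (-|e|) |e|).filter (fun i => 0 ≤ i + e) = Finset.Ico (-e) |e| := by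
    ext i
    rw [Finset.mem_filter, Finset.mem_Ico, Finset.mem_Ico]
    constructor
    · rintro ⟨⟨h4, h5⟩, h6⟩
      omega
    · rintro ⟨h4, h5⟩
      omega
  have e2 : (Finset.Ico (-|e|) |e|).filter (fun i => 0 ≤ i) = Finset.Ico 0 |e| := by
    ext i
    rw [Finset.mem_filter, Finset.mem_Ico, Finset.mem_Ico]
    constructor
    · rintro ⟨⟨h4, h5⟩, h6⟩
      omega
    · rintro ⟨h4, h5⟩
      omega
  rw [e1, e2, Int.card_Ico, Int.card_Ico]
  omega

/-- the kernel of the level -/
theorem ker_lev (m : (lev hη).L → G) (x z : G) (k₀ : {k // IsConj s k})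
    (h : ∀ l, m l = x * z ↔ l.1 = k₀) :
    ker (Λ := lev hη) (pos hη) m x z = η x⁻¹ k₀.1 := by
  classical
  unfold ker
  let em : ℤ ↪ (lev hη).L := ⟨fun i => (k₀, i), fun i j hij => congrArg Prod.snd hij⟩
  rw [finsum_eq_sum_of_support_subset (s := (Finset.Ico (-|η x⁻¹ k₀.1|) |η x⁻¹ k₀.1|).map em)]
  · rw [Finset.sum_map]
    refine Eq.trans ?_ (int_sum (η x⁻¹ k₀.1))
    apply Finset.sum_congr rfl
    intro i _
    rw [if_pos ((h _).2 rfl), dz_lev]
    rfl
  · intro l hl
    rw [Function.mem_support] at hl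
    by_cases h1 : m l = x * z
    · rw [if_pos h1] at hl
      have h2 : l.1 = k₀ := (h _).1 h1
      have h3 := dz_ne hη hl
      rw [h2] at h3
      rw [Finset.coe_map]
      refine ⟨l.2, Finset.mem_coe.2 (Finset.mem_Ico.2 h3), ?_⟩
      exact Prod.ext h2.symm rfl
    · rw [if_neg h1] at hl
      exact absurd rfl hl

theorem ker_lev_zero (m : (lev hη).L → G) (x z : G) (h : ∀ l, m l ≠ x * z) :
    ker (Λ := lev hη) (pos hη) m x z = 0 := by
  classical
  unfold ker
  rw [finsum_congr (g := fun _ => (0 : ℤ)) (fun l => if_neg (h l))]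
  exact finsum_zero

theorem ker_k : ker (Λ := lev hη) (pos hη) (lev hη).k = kn s η := by
  classical
  funext x z
  unfold kn
  by_cases h : IsConj s (x * z)
  · rw [if_pos h]
    exact ker_lev hη _ x z ⟨x * z, h⟩ (fun l => ⟨fun h1 => Subtype.ext h1, fun h1 =>
      congrArg Subtype.val h1⟩)
  · rw [if_neg h]
    apply ker_lev_zero
    rintro ⟨⟨k, hk⟩, i⟩ h1
    have h2 : k = x * z := h1
    rw [← h2] at h
    exact h hk

end level

end

end Pool.Agent.Y69.DZ
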