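import Mathlib
import Pool.Agent.Y69.DZ.Lvl
import Pool.Agent.Y69.NK.Patch

/-!
# Vanishing over `ℤ_p` and Galois invariance over `ℚ`
-/

set_option autoImplicit false
set_option linter.unusedSectionVars false

namespace Pool.Agent.Y69.DZ

open Finset Matrix
open Pool.Agent.H26R2.IdemLI (ch ch_coeff)

noncomputable section

variable {G : Type} [Group G] {I J : Type} [Fintype I] [Fintype J] [DecidableEq I]
  [DecidableEq J]

/-- the union of the supports of the entries -/
def supps {R : Type} [CommRing R] [DecidableEq G] (A : Matrix I J (MonoidAlgebra R G)) :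
    Finset G :=
  univ.biUnion fun i => univ.biUnion fun j => (A i j).coeff.support

theorem mem_supps {R : Type} [CommRing R] [DecidableEq G] (A : Matrix I J (MonoidAlgebra R G))
    (i : I) (j : J) (x : G) (h : (A i j).coeff x ≠ 0) : x ∈ supps A := by
  unfold supps
  simp only [Finset.mem_biUnion, Finset.mem_univ, true_and, Finsupp.mem_support_iff]
  exact ⟨i, j, h⟩

theorem isConj_ord {x y : G} (h : IsConj x y) : orderOf x = orderOf y := by
  obtain ⟨c, hc⟩ := isConj_iff.1 h
  rw [← hc]
  exact (orderOf_injective (MulAut.conj c).toMonoidHom (MulAut.conj c).injective x).symm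

theorem isConj_pw {x y : G} (h : IsConj x y) (k : ℕ) : IsConj (x ^ k) (y ^ k) := by
  obtain ⟨c, hc⟩ := isConj_iff.1 h
  refine isConj_iff.2 ⟨c, ?_⟩
  rw [← hc, conj_pow]

section lev

variable {s : G} {f : G → ℤ} (hf : Adm s f) (hs : orderOf s ≠ 0)

include hs in
theorem lev_fix (l : (lev (et_coc hf)).L) : (lev (et_coc hf)).k l • l = l := by
  rw [smul_lev]
  apply Prod.ext
  · apply Subtype.ext
    exact mul_inv_cancel_right _ _
  · show l.2 + et s f l.1.1 l.1.1 = l.2
    rw [et_self hf hs _ l.1.2, add_zero]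

include hf in
/-- Vanishing over the `p`-adic integers. -/
theorem van (p : ℕ) [hp : Fact p.Prime] (hps : p ∣ orderOf s)
    (A : Matrix I J (MonoidAlgebra ℤ_[p] G)) (B : Matrix J I (MonoidAlgebra ℤ_[p] G))
    (hAB : A * B = 1) (hBA : B * A = 1) (hs : orderOf s ≠ 0) :
    BM (kn s (et s f)) A B = 0 := by
  classical
  have h1 := TM_EM (lev_fin (et_coc hf)) (R := ℤ_[p]) (lev (et_coc hf)).k (fun _ _ h => h) A B
  rw [ker_k] at h1
  rw [← h1, ← PadicInt.ext_of_toZModPow]
  intro e
  rw [map_zero]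
  obtain ⟨K, hK⟩ := EM_atoms (lev_fin (et_coc hf)) A B (supps A) (supps B) (mem_supps A)
    (mem_supps B)
  exact TM_van (lev (et_coc hf)).k (fun _ _ h => h) (lev (et_coc hf)).equi (lev_fix hf hs)
    (EM (lev_fin (et_coc hf)) A B) (EM_idem _ A B hAB hBA) K (yy _ _) hK (orderOf s) hs hps
    (fun l => (isConj_ord l.1.2).symm) e (M := ZMod (p ^ e)) (by
      intro x
      rw [nsmul_eq_mul, ZMod.natCast_self, zero_mul])
    (PadicInt.toZModPow e : ℤ_[p] →+* ZMod (p ^ e)).toAddMonoidHom

theorem pow_aa {x : G} {a a' : ℕ} (h : a * a' ≡ 1 [MOD orderOf x]) : (x ^ a) ^ a' = x := by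
  rw [← pow_mul]
  conv_rhs => rw [← pow_one x]
  rw [pow_eq_pow_iff_modEq]
  exact h

/-- the kernel for the power -/
theorem ker_pow {η : G → G → ℤ} (hη : IsCoc s η) (a a' : ℕ) (h : a * a' ≡ 1 [MOD orderOf s]) :
    ker (Λ := lev hη) (pos hη) (fun l => (lev hη).k l ^ a) =
      kn (s ^ a) (fun y k => η y (k ^ a')) := by
  classical
  funext x z
  unfold kn
  by_cases hc : IsConj (s ^ a) (x * z)
  · rw [if_pos hc]
    have h1 : IsConj s ((x * z) ^ a') := by
      have := isConj_pw hc a'
      rwa [pow_aa h] at this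
    have h2 : ((x * z) ^ a') ^ a = x * z := by
      obtain ⟨c, hc⟩ := isConj_iff.1 hc
      have h3 : s ^ a = (s ^ a) ^ (a' * a) := by
        rw [pow_mul, pow_aa h]
      rw [← hc, ← pow_mul, conj_pow, ← h3]
    refine ker_lev hη _ x z ⟨(x * z) ^ a', h1⟩ (fun l => ⟨fun h3 => ?_, fun h3 => ?_⟩)
    · apply Subtype.ext
      have h4 : l.1.1 ^ a = x * z := h3
      show l.1.1 = (x * z) ^ a'
      rw [← h4, pow_aa]
      rw [← isConj_ord l.1.2]
      exact h
    · show l.1.1 ^ a = x * z
      rw [h3]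
      exact h2
  · rw [if_neg hc]
    apply ker_lev_zero
    intro l h3
    apply hc
    have h4 : l.1.1 ^ a = x * z := h3
    rw [← h4]
    exact isConj_pw l.1.2 a

end lev

theorem rat_zero (r : ℚ) (q : ℕ) [hq : Fact q.Prime] (x : ℤ_[q])
    (hx : (PadicInt.Coe.ringHom (p := q)) x = (r : ℚ_[q])) (h : PadicInt.toZMod x = 0)
    (hr : r.num.natAbs < q) : r = 0 := by
  by_contra hr0
  have hnorm : ‖x‖ < 1 := by
    have h1 : x ∈ RingHom.ker (PadicInt.toZMod (p := q)) := h
    rw [PadicInt.ker_toZMod, IsLocalRing.mem_maximalIdeal, PadicInt.mem_nonunits] at h1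
    exact h1
  have hnorm' : ‖((r : ℚ) : ℚ_[q])‖ < 1 := by
    rw [← hx]
    exact hnorm
  have hdvd : (q : ℤ) ∣ r.num := by
    rw [← Padic.norm_intCast_lt_one_iff]
    have h1 : (r.num : ℚ_[q]) = (r : ℚ_[q]) * (r.den : ℚ_[q]) := by
      have := Rat.mul_den_eq_num r
      have h2 := congrArg (fun x : ℚ => (x : ℚ_[q])) this
      push_cast at h2
      exact h2.symm
    rw [h1, norm_mul]
    have h2 : ‖(r.den : ℚ_[q])‖ ≤ 1 := by
      have := Padic.norm_int_le_one (p := q) (r.den : ℤ)
      exact_mod_cast this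
    calc ‖(r : ℚ_[q])‖ * ‖(r.den : ℚ_[q])‖ ≤ ‖(r : ℚ_[q])‖ * 1 := by gcongr
      _ < 1 := by rwa [mul_one]
  have h9 : q ≤ r.num.natAbs := by
    refine Nat.le_of_dvd (Int.natAbs_pos.2 (Rat.num_ne_zero.2 hr0)) ?_
    exact Int.natCast_dvd.1 hdvd
  omega

/-- lifting to the `q`-adic integers -/
theorem lift_q (A : Matrix I J (MonoidAlgebra ℚ G)) : ∃ N : ℕ, ∀ (q : ℕ) [Fact q.Prime], N < q →
    ∃ A' : Matrix I J (MonoidAlgebra ℤ_[q] G),
      A'.map (ch (PadicInt.Coe.ringHom (p := q)) G) = A.map (ch (Rat.castHom ℚ_[q]) G) := by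
  classical
  refine ⟨Finset.univ.sup fun x : I × J =>
    (A x.1 x.2).coeff.support.sup fun s => ((A x.1 x.2).coeff s).den, ?_⟩
  intro q hq hN
  have hsmall : ∀ i j s, ‖(((A i j).coeff s : ℚ) : ℚ_[q])‖ ≤ 1 := by
    intro i j s
    apply Padic.norm_rat_le_one
    intro hd
    by_cases h0 : (A i j).coeff s = 0
    · rw [h0] at hd
      exact hq.out.one_lt.ne' (Nat.dvd_one.1 (by simpa using hd))
    · have h1 : ((A i j).coeff s).den ≤ _ :=
        (Finset.le_sup (f := fun s => ((A i j).coeff s).den) (Finsupp.mem_support_iff.2 h0)).trans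
          (Finset.le_sup (f := fun x : I × J =>
            (A x.1 x.2).coeff.support.sup fun s => ((A x.1 x.2).coeff s).den) (mem_univ (i, j)))
      have h2 := Nat.le_of_dvd (Rat.den_pos _) hd
      omega
  have h1 : ∀ i j, ∃ y : MonoidAlgebra ℤ_[q] G, ch (PadicInt.Coe.ringHom (p := q)) G y =
      ch (Rat.castHom ℚ_[q]) G (A i j) := by
    intro i j
    apply Pool.Agent.Y69.NK.exists_ch
    intro c
    refine ⟨⟨((A i j).coeff c : ℚ), hsmall i j c⟩, ?_⟩
    rw [ch_coeff]
    rfl
  choose A' hA' using h1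
  refine ⟨Matrix.of A', ?_⟩
  ext1 i j
  exact hA' i j

theorem ch_inj {R S : Type} [CommRing R] [CommRing S] (f : R →+* S) (hf : Function.Injective f) :
    Function.Injective (ch f G) := by
  intro x y hxy
  ext c
  apply hf
  rw [← ch_coeff, ← ch_coeff, hxy]

/-- Galois invariance over the rational numbers. -/
theorem gal {s : G} {f : G → ℤ} (hf : Adm s f) (hs : orderOf s ≠ 0) (hs1 : s ≠ 1)
    (A : Matrix I J (MonoidAlgebra ℚ G)) (B : Matrix J I (MonoidAlgebra ℚ G)) (hAB : A * B = 1)
    (hBA : B * A = 1) (a : ℕ) (ha : a.Coprime (orderOf s)) :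
    BM (kn (s ^ a) (et (s ^ a) f)) A B = BM (kn s (et s f)) A B := by
  classical
  have : NeZero (orderOf s) := ⟨hs⟩
  have hu : IsUnit (a : ZMod (orderOf s)) := (ZMod.isUnit_iff_coprime a _).2 ha
  set a' : ℕ := (↑(hu.unit⁻¹) : ZMod (orderOf s)).val with ha'
  have haa : a * a' ≡ 1 [MOD orderOf s] := by
    rw [← ZMod.natCast_eq_natCast_iff]
    push_cast
    rw [ha', ZMod.natCast_zmod_val]
    exact hu.mul_val_inv
  -- the cocycle for the power
  have hη := et_coc hf
  have hη' : IsCoc (s ^ a) (fun y k => et s f y (k ^ a')) := by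
    intro y z k hk
    have h1 : IsConj s (k ^ a') := by
      have := isConj_pw hk a'
      rwa [pow_aa haa] at this
    show et s f (y * z) (k ^ a') = et s f y ((z * k * z⁻¹) ^ a') + et s f z (k ^ a')
    rw [conj_pow]
    exact hη y z _ h1
  have hcomm : ∀ z, Commute z (s ^ a) → Commute z s := by
    intro z hz
    have := hz.pow_right a'
    rwa [pow_aa haa] at this
  have hsa : s ^ a ≠ 1 := by
    intro h
    apply hs1
    have h1 := pow_aa haa
    rw [h, one_pow] at h1
    exact h1.symm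
  have e1 : BM (kn (s ^ a) (et (s ^ a) f)) A B =
      BM (ker (Λ := lev hη) (pos hη) (fun l => (lev hη).k l ^ a)) A B := by
    rw [ker_pow hη a a' haa]
    symm
    apply BM_coc hsa hη' ?_ A B hAB hBA
    intro z hz
    show et s f z ((s ^ a) ^ a') = f z
    rw [pow_aa haa]
    exact et_comm hf (hcomm z hz)
  have e2 : BM (kn s (et s f)) A B = BM (ker (Λ := lev hη) (pos hη) (lev hη).k) A B := by
    rw [ker_k]
  rw [e1, e2]
  set c₁ := ker (Λ := lev hη) (pos hη) (lev hη).k with hc₁
  set c₂ := ker (Λ := lev hη) (pos hη) (fun l => (lev hη).k l ^ a) with hc₂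
  set r : ℚ := BM c₂ A B - BM c₁ A B with hr
  suffices h : r = 0 from sub_eq_zero.1 h
  obtain ⟨N₁, hN₁⟩ := lift_q A
  obtain ⟨N₂, hN₂⟩ := lift_q B
  set M₁ : ℕ := Finset.univ.sup (fun w => orderOf (yy (supps A) (supps B) w)) with hM₁
  have hu' : IsUnit (a' : ZMod (orderOf s)) := by
    rw [ha', ZMod.natCast_zmod_val]
    exact Units.isUnit _
  have hinf := Nat.infinite_setOfPred_prime_and_eq_mod hu'
  obtain ⟨q, ⟨hq, hqa⟩, hqb⟩ := hinf.exists_gt (M₁ + N₁ + N₂ + r.num.natAbs)
  have hqp : Fact q.Prime := ⟨hq⟩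
  have hmul : a * q ≡ 1 [MOD orderOf s] := by
    rw [← ZMod.natCast_eq_natCast_iff] at haa ⊢
    push_cast at haa ⊢
    rw [hqa]
    exact haa
  obtain ⟨A', hA'⟩ := hN₁ q (by omega)
  obtain ⟨B', hB'⟩ := hN₂ q (by omega)
  have hone : ∀ {R S : Type} [CommRing R] [CommRing S] (φ : R →+* S) {K : Type} [Fintype K]
      [DecidableEq K], (1 : Matrix K K (MonoidAlgebra R G)).map (ch φ G) = 1 := by
    intro R S _ _ φ K _ _
    exact Matrix.map_one _ (map_zero _) (map_one _)
  have hinj : Function.Injective (ch (PadicInt.Coe.ringHom (p := q)) G) :=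
    ch_inj _ Subtype.val_injective
  have hAB' : A' * B' = 1 := by
    have h1 : (A' * B').map (ch (PadicInt.Coe.ringHom (p := q)) G) =
        (1 : Matrix I I (MonoidAlgebra ℤ_[q] G)).map (ch (PadicInt.Coe.ringHom (p := q)) G) := by
      rw [Matrix.map_mul, hA', hB', ← Matrix.map_mul, hAB, hone, hone]
    ext1 i j
    exact hinj (congrFun (congrFun h1 i) j)
  have hBA' : B' * A' = 1 := by
    have h1 : (B' * A').map (ch (PadicInt.Coe.ringHom (p := q)) G) =
        (1 : Matrix J J (MonoidAlgebra ℤ_[q] G)).map (ch (PadicInt.Coe.ringHom (p := q)) G) := by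
      rw [Matrix.map_mul, hA', hB', ← Matrix.map_mul, hBA, hone, hone]
    ext1 i j
    exact hinj (congrFun (congrFun h1 i) j)
  have hval : ∀ c : G → G → ℤ, (PadicInt.Coe.ringHom (p := q)) (BM c A' B') =
      ((BM c A B : ℚ) : ℚ_[q]) := by
    intro c
    rw [← BM_ch, hA', hB', BM_ch]
    rfl
  apply rat_zero r q (BM c₂ A' B' - BM c₁ A' B')
  · rw [map_sub, hval, hval, hr]
    push_cast
    rfl
  · rw [map_sub, ← BM_ch, ← BM_ch, sub_eq_zero, hc₁, hc₂]
    set Aq := A'.map (ch (PadicInt.toZMod (p := q)) G) with hAq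
    set Bq := B'.map (ch (PadicInt.toZMod (p := q)) G) with hBq
    have hABq : Aq * Bq = 1 := by rw [hAq, hBq, ← Matrix.map_mul, hAB', hone]
    have hBAq : Bq * Aq = 1 := by rw [hAq, hBq, ← Matrix.map_mul, hBA', hone]
    have hsA : ∀ i k x, (Aq i k).coeff x ≠ 0 → x ∈ supps A := by
      intro i k x hx
      apply mem_supps A i k x
      intro h0
      apply hx
      have h1 := congrArg (fun X : Matrix I J (MonoidAlgebra ℚ_[q] G) => (X i k).coeff x) hA'
      simp only [Matrix.map_apply, ch_coeff] at h1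
      rw [h0, map_zero] at h1
      have h2 : (A' i k).coeff x = 0 := Subtype.val_injective h1
      rw [hAq, Matrix.map_apply, ch_coeff, h2, map_zero]
    have hsB : ∀ i k x, (Bq i k).coeff x ≠ 0 → x ∈ supps B := by
      intro i k x hx
      apply mem_supps B i k x
      intro h0
      apply hx
      have h1 := congrArg (fun X : Matrix J I (MonoidAlgebra ℚ_[q] G) => (X i k).coeff x) hB'
      simp only [Matrix.map_apply, ch_coeff] at h1
      rw [h0, map_zero] at h1
      have h2 : (B' i k).coeff x = 0 := Subtype.val_injective h1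
      rw [hBq, Matrix.map_apply, ch_coeff, h2, map_zero]
    obtain ⟨K, hK⟩ := EM_atoms (lev_fin hη) Aq Bq (supps A) (supps B) hsA hsB
    have hord : ∀ l : (lev hη).L, orderOf ((lev hη).k l) = orderOf s :=
      fun l => (isConj_ord l.1.2).symm
    have hfib' : ∀ l l' : (lev hη).L, (lev hη).k l ^ a = (lev hη).k l' ^ a →
        (lev hη).k l = (lev hη).k l' := by
      intro l l' h
      have h1 : ((lev hη).k l ^ a) ^ a' = ((lev hη).k l' ^ a) ^ a' := by rw [h]
      rwa [pow_aa (by rw [hord]; exact haa), pow_aa (by rw [hord]; exact haa)] at h1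
    have hback : ∀ w (l : (lev hη).L), (lev hη).k l = yy (supps A) (supps B) w ^ q →
        (lev hη).k l ^ a = yy (supps A) (supps B) w := by
      intro w l h
      have h1 := hord l
      rw [h] at h1
      have h2 : orderOf (yy (supps A) (supps B) w) ≠ 0 := by
        intro h3
        rw [orderOf_pow' _ hq.ne_zero, h3] at h1
        simp at h1
        exact hs h1.symm
      have h3 : orderOf (yy (supps A) (supps B) w) ≤ M₁ :=
        Finset.le_sup (f := fun w => orderOf (yy (supps A) (supps B) w)) (Finset.mem_univ w)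
      have h4 : (orderOf (yy (supps A) (supps B) w)).Coprime q := by
        rw [Nat.coprime_comm, hq.coprime_iff_not_dvd]
        intro hd
        have := Nat.le_of_dvd (Nat.pos_of_ne_zero h2) hd
        omega
      have h5 : orderOf (yy (supps A) (supps B) w) = orderOf s := by
        rw [← h1, Nat.Coprime.orderOf_pow h4]
      rw [h]
      apply pow_aa
      rw [h5, mul_comm]
      exact hmul
    have hfr := TM_frob (I := I) (lev hη).k (fun l => (lev hη).k l ^ a) (lev hη).equi
      (lev_fix hf hs) (fun _ _ h => h) hfib' (EM (lev_fin hη) Aq Bq)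
      (EM_idem _ Aq Bq hABq hBAq) K (yy (supps A) (supps B)) hK
      (fun w l => ⟨hback w l, fun h => by
        rw [← h]
        exact (pow_aa (by rw [hord]; exact hmul)).symm⟩)
      (fun w l h => by
        have h1 := hback w l h
        rw [← h1]
        have h2 := lev_fix hf hs l
        have h3 : ∀ n : ℕ, (lev hη).k l ^ n • l = l := by
          intro n
          induction n with
          | zero => rw [pow_zero, one_smul]
          | succ n ih => rw [pow_succ, mul_smul, h2, ih]
        exact h3 a)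
    rw [TM_EM, TM_EM] at hfr
    exact hfr.symm
  · omega

end

end Pool.Agent.Y69.DZ
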