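import Mathlib
import Pool.Agent.Y69.DZ.GalK
import Pool.Agent.Y69.NK.Fwd

/-!
# Invariants of classes in `K₀(ℤ[G])` that are free over `ℚ` and over `ℤ_p`
-/

set_option autoImplicit false
set_option linter.unusedSectionVars false

namespace Pool.Agent.Y69.DZ

open Finset Matrix
open Pool.Agent.H26R2.IdemLI (ch ch_coeff)
open Pool.Agent.Y69.NK (iQ iP jQ jP jQ_iQ K0 cl cl_eq cl_congr cl_blocks cl_idm idem_blocks Eqv Idm)

noncomputable section

variable {G : Type} [Group G]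

/-- the admissible pairs -/
def Ok (s : G) (f : G → ℤ) : Prop := Adm s f ∧ orderOf s ≠ 0 ∧ s ≠ 1

theorem Ok.coc {s : G} {f : G → ℤ} (h : Ok s f) (x y z : G) :
    kn s (et s f) (x * y) z - kn s (et s f) x (y * z) + kn s (et s f) (z * x) y = 0 :=
  kn_cocycle (et_coc h.1) (et_self h.1 h.2.1) x y z

section lemmas

variable {R : Type} [CommRing R] {I J K L : Type} [Fintype I] [Fintype J] [Fintype K] [Fintype L]
  [DecidableEq I] [DecidableEq J] [DecidableEq K] [DecidableEq L]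

theorem triv_diff {c : G → G → ℤ} (hc : ∀ x y z, c (x * y) z - c x (y * z) + c (z * x) y = 0)
    {F : Matrix K K (MonoidAlgebra R G)} {u : Matrix K J (MonoidAlgebra R G)}
    {u' : Matrix J K (MonoidAlgebra R G)} {t : Matrix K L (MonoidAlgebra R G)}
    {t' : Matrix L K (MonoidAlgebra R G)} (h1 : u * u' = F) (h2 : u' * u = 1) (h3 : t * t' = F)
    (h4 : t' * t = 1) : BM c (u' * t) (t' * u) = BM c u' u - BM c t' t ∧
      (u' * t) * (t' * u) = 1 ∧ (t' * u) * (u' * t) = 1 := by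
  have e1 : t * (t' * u) = u := by
    rw [← Matrix.mul_assoc, h3, ← h1, Matrix.mul_assoc, h2, Matrix.mul_one]
  have e2 : t' * u * u' = t' := by
    rw [Matrix.mul_assoc, h1, ← h3, ← Matrix.mul_assoc, h4, Matrix.one_mul]
  refine ⟨?_, ?_, ?_⟩
  · have h := BM_cocycle c hc u' t (t' * u)
    rw [e1, e2] at h
    linear_combination h
  · rw [Matrix.mul_assoc, e1, h2]
  · rw [← Matrix.mul_assoc, e2, h4]

theorem transport {c : G → G → ℤ} (hc : ∀ x y z, c (x * y) z - c x (y * z) + c (z * x) y = 0)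
    {E : Matrix I I (MonoidAlgebra R G)} {F : Matrix K K (MonoidAlgebra R G)}
    {X : Matrix I K (MonoidAlgebra R G)} {Y : Matrix K I (MonoidAlgebra R G)}
    {w : Matrix I J (MonoidAlgebra R G)} {w' : Matrix J I (MonoidAlgebra R G)}
    (hXY : X * Y = E) (hYX : Y * X = F) (hF : F * F = F) (h1 : w * w' = E) (h2 : w' * w = 1) :
    BM c (w' * X) (Y * w) = BM c w' w - BM c (Y * E) X ∧
      (Y * w) * (w' * X) = F ∧ (w' * X) * (Y * w) = 1 := by
  have e1 : X * (Y * w) = w := by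
    rw [← Matrix.mul_assoc, hXY, ← h1, Matrix.mul_assoc, h2, Matrix.mul_one]
  have e2 : Y * w * w' = Y * E := by rw [Matrix.mul_assoc, h1]
  refine ⟨?_, ?_, ?_⟩
  · have h := BM_cocycle c hc w' X (Y * w)
    rw [e1, e2] at h
    linear_combination h
  · rw [← Matrix.mul_assoc, e2, ← hXY, ← Matrix.mul_assoc, hYX, Matrix.mul_assoc, hYX, hF]
  · rw [Matrix.mul_assoc, e1, h2]

theorem BM_blocks (c : G → G → ℤ) (A : Matrix I J (MonoidAlgebra R G))
    (B : Matrix J I (MonoidAlgebra R G)) (A' : Matrix K L (MonoidAlgebra R G))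
    (B' : Matrix L K (MonoidAlgebra R G)) :
    BM c (fromBlocks A 0 0 A') (fromBlocks B 0 0 B') = BM c A B + BM c A' B' := by
  unfold BM
  rw [Fintype.sum_sum_type]
  congr 1
  · apply Finset.sum_congr rfl
    intro i _
    rw [Fintype.sum_sum_type]
    have h1 : ∑ j : L, bz c (fromBlocks A 0 0 A' (Sum.inl i) (Sum.inr j))
        (fromBlocks B 0 0 B' (Sum.inr j) (Sum.inl i)) = 0 := by
      apply Finset.sum_eq_zero
      intro j _
      exact bil_zero_left _ _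
    rw [h1, add_zero]
    rfl
  · apply Finset.sum_congr rfl
    intro i _
    rw [Fintype.sum_sum_type]
    have h1 : ∑ j : J, bz c (fromBlocks A 0 0 A' (Sum.inr i) (Sum.inl j))
        (fromBlocks B 0 0 B' (Sum.inl j) (Sum.inr i)) = 0 := by
      apply Finset.sum_eq_zero
      intro j _
      exact bil_zero_left _ _
    rw [h1, zero_add]
    rfl

theorem BM_one {s : G} (hs : s ≠ 1) (η : G → G → ℤ) :
    BM (kn s η) (1 : Matrix I I (MonoidAlgebra R G)) 1 = 0 := by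
  unfold BM
  apply Finset.sum_eq_zero
  intro i _
  apply Finset.sum_eq_zero
  intro j _
  by_cases h : i = j
  · subst h
    rw [Matrix.one_apply_eq, MonoidAlgebra.one_def, bz_single]
    unfold kn
    rw [if_neg, Int.cast_zero, mul_zero]
    rw [one_mul, isConj_one_left]
    exact hs
  · rw [Matrix.one_apply_ne h]
    exact bil_zero_left _ _

theorem blocks_one {E : Matrix I I (MonoidAlgebra R G)} {w : Matrix I J (MonoidAlgebra R G)}
    {w' : Matrix J I (MonoidAlgebra R G)} (h1 : w * w' = E) (h2 : w' * w = 1)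
    {E₂ : Matrix K K (MonoidAlgebra R G)} {w₂ : Matrix K L (MonoidAlgebra R G)}
    {w₂' : Matrix L K (MonoidAlgebra R G)} (h3 : w₂ * w₂' = E₂) (h4 : w₂' * w₂ = 1) :
    fromBlocks w 0 0 w₂ * fromBlocks w' 0 0 w₂' = fromBlocks E 0 0 E₂ ∧
      fromBlocks w' 0 0 w₂' * fromBlocks w 0 0 w₂ = 1 := by
  rw [fromBlocks_multiply, fromBlocks_multiply, h1, h2, h3, h4]
  simp

end lemmas

section gen

variable (G) in
/-- the type of the invariants -/
abbrev DT : Type := ∀ p : Nat.Primes, G → (G → ℤ) → ℚ_[p]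

/-- `ℤ_p → ℚ_p` -/
abbrev zq (p : ℕ) [Fact p.Prime] : ℤ_[p] →+* ℚ_[p] := PadicInt.Coe.ringHom (p := p)

/-- classes with invariants -/
def Gen0 (G : Type) [Group G] : Set (K0 (MonoidAlgebra ℤ G) × DT G) :=
  {z | ∃ (I J : Type) (_ : Fintype I) (_ : DecidableEq I) (_ : Fintype J) (_ : DecidableEq J)
    (E : Matrix I I (MonoidAlgebra ℤ G)) (hE : E * E = E) (w : Matrix I J (MonoidAlgebra ℚ G))
    (w' : Matrix J I (MonoidAlgebra ℚ G)), z.1 = cl E hE ∧ w * w' = E.map (iQ G) ∧ w' * w = 1 ∧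
    ∀ p : Nat.Primes, ∃ (v : Matrix I J (MonoidAlgebra ℤ_[p] G))
      (v' : Matrix J I (MonoidAlgebra ℤ_[p] G)), v * v' = E.map (iP G p) ∧ v' * v = 1 ∧
      ∀ s f, Ok s f → z.2 p s f = zq p (BM (kn s (et s f)) v' v) -
        ((BM (kn s (et s f)) w' w : ℚ) : ℚ_[p])}

theorem map_blocks {A B : Type} [Ring A] [Ring B] (θ : A →+* B) {I J K L : Type}
    (X : Matrix I J A) (Y : Matrix K L A) :
    (fromBlocks X 0 0 Y).map θ = fromBlocks (X.map θ) 0 0 (Y.map θ) := by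
  rw [Matrix.fromBlocks_map, Matrix.map_zero _ (map_zero _), Matrix.map_zero _ (map_zero _)]

theorem Gen0.add {z z' : K0 (MonoidAlgebra ℤ G) × DT G} (hz : z ∈ Gen0 G) (hz' : z' ∈ Gen0 G) :
    z + z' ∈ Gen0 G := by
  obtain ⟨I, J, i1, i2, j1, j2, E, hE, w, w', h1, h2, h3, h4⟩ := hz
  obtain ⟨K, L, k1, k2, l1, l2, F, hF, u, u', g1, g2, g3, g4⟩ := hz'
  obtain ⟨b1, b2⟩ := blocks_one h2 h3 g2 g3
  refine ⟨I ⊕ K, J ⊕ L, inferInstance, inferInstance, inferInstance, inferInstance,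
    fromBlocks E 0 0 F, idem_blocks hE hF, fromBlocks w 0 0 u, fromBlocks w' 0 0 u', ?_, ?_, b2,
    fun p => ?_⟩
  · rw [cl_blocks hE hF, ← h1, ← g1]
    rfl
  · rw [b1, map_blocks]
  · obtain ⟨v, v', a1, a2, a3⟩ := h4 p
    obtain ⟨t, t', c1, c2, c3⟩ := g4 p
    obtain ⟨d1, d2⟩ := blocks_one a1 a2 c1 c2
    refine ⟨fromBlocks v 0 0 t, fromBlocks v' 0 0 t', ?_, d2, fun s f hsf => ?_⟩
    · rw [d1, map_blocks]
    · rw [BM_blocks, BM_blocks, map_add, Rat.cast_add]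
      have e1 : (z + z').2 p s f = z.2 p s f + z'.2 p s f := rfl
      rw [e1, a3 s f hsf, c3 s f hsf]
      ring

theorem Gen0.one (n : ℕ) : (cl (1 : Matrix (_root_.Fin n) (_root_.Fin n) (MonoidAlgebra ℤ G))
    (mul_one _), (0 : DT G)) ∈ Gen0 G := by
  refine ⟨_root_.Fin n, _root_.Fin n, inferInstance, inferInstance, inferInstance, inferInstance,
    1, mul_one _, 1, 1, rfl, ?_, mul_one _, fun p => ⟨1, 1, ?_, mul_one _, fun s f hsf => ?_⟩⟩
  · rw [mul_one]
    exact (Matrix.map_one _ (map_zero _) (map_one _)).symm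
  · rw [mul_one]
    exact (Matrix.map_one _ (map_zero _) (map_one _)).symm
  · rw [BM_one hsf.2.2, BM_one hsf.2.2, map_zero, Rat.cast_zero, sub_zero]
    rfl

theorem cl_fin_zero : cl (1 : Matrix (_root_.Fin 0) (_root_.Fin 0) (MonoidAlgebra ℤ G))
    (mul_one _) = 0 := by
  have h3 : cl (1 : Matrix (_root_.Fin 0) (_root_.Fin 0) (MonoidAlgebra ℤ G)) (mul_one _) =
      K0.cls (Idm.zero (MonoidAlgebra ℤ G)) := by
    rw [cl_idm]
    apply cl_congr
    refine Eqv.of_submatrix (mul_one _) (Equiv.refl _) ?_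
    ext i j
    exact i.elim0
  rw [h3]
  exact map_zero (K0.ofV _)

theorem Gen0.zero : (0 : K0 (MonoidAlgebra ℤ G) × DT G) ∈ Gen0 G := by
  have h := Gen0.one (G := G) 0
  rw [cl_fin_zero] at h
  exact h

/-- the properties of the rational functions -/
structure Rat0 (W : G → (G → ℤ) → ℚ) : Prop where
  gal : ∀ s f, Ok s f → ∀ a : ℕ, a.Coprime (orderOf s) → W (s ^ a) f = W s f
  conj : ∀ s f, Ok s f → ∀ n : G, W (n * s * n⁻¹) (fun z => f (n⁻¹ * z * n)) = W s f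
  add : ∀ s f g, Ok s f → Ok s g → W s (fun z => f z + g z) = W s f + W s g

theorem rat0_BM {I J : Type} [Fintype I] [Fintype J] [DecidableEq I] [DecidableEq J]
    (A : Matrix I J (MonoidAlgebra ℚ G)) (B : Matrix J I (MonoidAlgebra ℚ G)) (hAB : A * B = 1)
    (hBA : B * A = 1) : Rat0 (fun s f => BM (kn s (et s f)) A B) := by
  refine ⟨?_, ?_, ?_⟩
  · intro s f hsf a ha
    exact gal hsf.1 hsf.2.1 hsf.2.2 A B hAB hBA a ha
  · intro s f hsf n
    show BM (kn (n * s * n⁻¹) (et (n * s * n⁻¹) fun z => f (n⁻¹ * z * n))) A B =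
      BM (kn s (et s f)) A B
    have h0 : IsConj s (n * s * n⁻¹) := isConj_iff.2 ⟨n, rfl⟩
    have h1 : kn s (et s f) = kn (n * s * n⁻¹) (et s f) := by
      funext x z
      unfold kn
      by_cases hc : IsConj s (x * z)
      · rw [if_pos hc, if_pos (h0.symm.trans hc)]
      · rw [if_neg hc, if_neg (fun h => hc (h0.trans h))]
    rw [h1]
    symm
    apply BM_coc ?_ ?_ ?_ A B hAB hBA
    · intro h
      apply hsf.2.2
      rw [mul_inv_eq_one] at h
      exact mul_eq_left.1 h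
    · intro y z k hk
      exact et_coc hsf.1 y z k (h0.trans hk)
    · intro z hz
      show et s f z (n * s * n⁻¹) = f (n⁻¹ * z * n)
      unfold et
      have h2 : z * (n * s * n⁻¹) * z⁻¹ = n * s * n⁻¹ := by rw [hz.eq, mul_inv_cancel_right]
      rw [h2]
      set c := cc s (n * s * n⁻¹) with hc
      have h3 : c * s = n * s * n⁻¹ * c := cc_spec' h0
      have h4 : Commute (n⁻¹ * c) s := by
        show n⁻¹ * c * s = s * (n⁻¹ * c)
        rw [mul_assoc, h3]
        group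
      have h5 : Commute (n⁻¹ * z * n) s := by
        have h6 : z * (n * s * n⁻¹) = n * s * n⁻¹ * z := hz
        show n⁻¹ * z * n * s = s * (n⁻¹ * z * n)
        calc n⁻¹ * z * n * s = n⁻¹ * (z * (n * s * n⁻¹)) * n := by group
          _ = s * (n⁻¹ * z * n) := by rw [h6]; group
      rw [← hsf.1.conj h4 h5]
      congr 1
      group
  · intro s f g hf hg
    show BM (kn s (et s fun z => f z + g z)) A B = BM (kn s (et s f)) A B + BM (kn s (et s g)) A B
    rw [← BM_add]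
    congr 1
    funext x z
    unfold kn et
    split_ifs <;> rfl

/-- the block sum with an identity matrix -/
abbrev bk {A : Type} [Ring A] {I : Type} (k : ℕ) (E : Matrix I I A) :
    Matrix (I ⊕ _root_.Fin k) (I ⊕ _root_.Fin k) A :=
  fromBlocks E 0 0 (1 : Matrix (_root_.Fin k) (_root_.Fin k) A)

/-- Two families of invariants of the same class. -/
theorem Gen0.unique {x : K0 (MonoidAlgebra ℤ G)} {δ₁ δ₂ : DT G} (h₁ : (x, δ₁) ∈ Gen0 G)
    (h₂ : (x, δ₂) ∈ Gen0 G) : ∃ W : G → (G → ℤ) → ℚ, Rat0 W ∧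
      ∀ (p : Nat.Primes) (s : G) (f : G → ℤ), Ok s f → (p : ℕ) ∣ orderOf s →
        δ₂ p s f - δ₁ p s f = (W s f : ℚ_[p]) := by
  classical
  obtain ⟨I, J, i1, i2, j1, j2, E, hE, w, w', h1, h2, h3, h4⟩ := h₁
  obtain ⟨K, L, k1, k2, l1, l2, F, hF, t, t', g1, g2, g3, g4⟩ := h₂
  have hx : cl E hE = cl F hF := h1.symm.trans g1
  obtain ⟨k, X, Y, hXY, hYX⟩ := cl_eq hE hF hx
  have hF' := idem_blocks hF (mul_one (1 : Matrix (_root_.Fin k) (_root_.Fin k)
    (MonoidAlgebra ℤ G)))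
  have one1 : ∀ {R : Type} [CommRing R], (1 : Matrix (_root_.Fin k) (_root_.Fin k)
    (MonoidAlgebra R G)) * 1 = 1 := fun {R} _ => mul_one _
  have mone : ∀ {R S : Type} [CommRing R] [CommRing S] (φ : R →+* S),
      (1 : Matrix (_root_.Fin k) (_root_.Fin k) (MonoidAlgebra R G)).map (ch φ G) = 1 :=
    fun φ => Matrix.map_one _ (map_zero _) (map_one _)
  -- over the rational numbers
  obtain ⟨b1, b2⟩ := blocks_one h2 h3 one1 one1
  obtain ⟨b3, b4⟩ := blocks_one g2 g3 one1 one1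
  have mp : ∀ {R : Type} [CommRing R] (φ : ℤ →+* R), X.map (ch φ G) * Y.map (ch φ G) =
      (bk k E).map (ch φ G) ∧ Y.map (ch φ G) * X.map (ch φ G) =
      (bk k F).map (ch φ G) ∧ (bk k F).map (ch φ G) *
        (bk k F).map (ch φ G) = (bk k F).map (ch φ G) := by
    intro R _ φ
    refine ⟨?_, ?_, ?_⟩
    · rw [← Matrix.map_mul, hXY]
    · rw [← Matrix.map_mul, hYX]
    · rw [← Matrix.map_mul, hF']
  have mb1 : ∀ {R : Type} [CommRing R] (φ : ℤ →+* R), fromBlocks (E.map (ch φ G)) 0 0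
      (1 : Matrix (_root_.Fin k) (_root_.Fin k) (MonoidAlgebra R G)) = (bk k E).map (ch φ G) := by
    intro R _ φ
    rw [map_blocks, mone]
  have mb2 : ∀ {R : Type} [CommRing R] (φ : ℤ →+* R), fromBlocks (F.map (ch φ G)) 0 0
      (1 : Matrix (_root_.Fin k) (_root_.Fin k) (MonoidAlgebra R G)) = (bk k F).map (ch φ G) := by
    intro R _ φ
    rw [map_blocks, mone]
  rw [mb1] at b1
  rw [mb2] at b3
  obtain ⟨m1, m2, m3⟩ := mp (Int.castRingHom ℚ)
  set W₁ := fromBlocks w 0 0 (1 : Matrix (_root_.Fin k) (_root_.Fin k) (MonoidAlgebra ℚ G))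
    with hW₁
  set W₁' := fromBlocks w' 0 0 (1 : Matrix (_root_.Fin k) (_root_.Fin k) (MonoidAlgebra ℚ G))
    with hW₁'
  set W₂ := fromBlocks t 0 0 (1 : Matrix (_root_.Fin k) (_root_.Fin k) (MonoidAlgebra ℚ G))
    with hW₂
  set W₂' := fromBlocks t' 0 0 (1 : Matrix (_root_.Fin k) (_root_.Fin k) (MonoidAlgebra ℚ G))
    with hW₂'
  set U := Y.map (iQ G) * W₁ with hU
  set U' := W₁' * X.map (iQ G) with hU'
  have hUU : U * U' = (bk k F).map (iQ G) ∧ U' * U = 1 :=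
    (transport (c := fun _ _ => 0) (by intros; rfl) m1 m2 m3 b1 b2).2
  refine ⟨fun s f => BM (kn s (et s f)) (U' * W₂) (W₂' * U), ?_, ?_⟩
  · obtain ⟨_, a1, a2⟩ := triv_diff (c := fun _ _ => 0) (by intros; rfl) hUU.1 hUU.2 b3 b4
    exact rat0_BM _ _ a1 a2
  · intro p s f hsf hps
    obtain ⟨v, v', c1, c2, c3⟩ := h4 p
    obtain ⟨q, q', d1, d2, d3⟩ := g4 p
    obtain ⟨f1, f2⟩ := blocks_one c1 c2 one1 one1
    obtain ⟨f3, f4⟩ := blocks_one d1 d2 one1 one1
    rw [mb1] at f1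
    rw [mb2] at f3
    obtain ⟨n1, n2, n3⟩ := mp (Int.castRingHom ℤ_[p])
    have hc := hsf.coc
    set c := kn s (et s f) with hcd
    obtain ⟨r1, r2, r3⟩ := transport hc m1 m2 m3 b1 b2
    obtain ⟨r4, r5, r6⟩ := transport hc n1 n2 n3 f1 f2
    obtain ⟨r7, r8, r9⟩ := triv_diff hc r2 r3 b3 b4
    obtain ⟨r10, r11, r12⟩ := triv_diff hc r5 r6 f3 f4
    have hv := van hsf.1 p hps _ _ r11 r12 hsf.2.1
    rw [← hcd] at hv
    rw [hv] at r10
    have z1 := d3 s f hsf
    have z2 := c3 s f hsf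
    have y1 : BM c W₁' W₁ = BM c w' w := by
      rw [hW₁, hW₁', BM_blocks, BM_one hsf.2.2, add_zero]
    have y2 : BM c W₂' W₂ = BM c t' t := by
      rw [hW₂, hW₂', BM_blocks, BM_one hsf.2.2, add_zero]
    rw [BM_blocks, BM_one hsf.2.2, add_zero] at r4
    have y4 : BM c (fromBlocks q' 0 0 (1 : Matrix (_root_.Fin k) (_root_.Fin k) _))
        (fromBlocks q 0 0 1) = BM c q' q := by
      rw [BM_blocks, BM_one hsf.2.2, add_zero]
    rw [y4, r4] at r10
    show δ₂ p s f - δ₁ p s f = ((BM c (U' * W₂) (W₂' * U) : ℚ) : ℚ_[p])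
    rw [show δ₂ p s f = _ from z1, show δ₁ p s f = _ from z2]
    rw [show BM c (U' * W₂) (W₂' * U) = _ from r7, y2,
      show BM c (W₁' * X.map (iQ G)) (Y.map (iQ G) * W₁) = _ from r1, y1]
    -- the integral correction
    have y5 : BM c (Y.map (iQ G) * (bk k E).map (iQ G)) (X.map (iQ G)) =
        ((BM c (Y * bk k E) X : ℤ) : ℚ) := by
      rw [← Matrix.map_mul, BM_ch]
      rfl
    have y6 : BM c (Y.map (iP G p) * (bk k E).map (iP G p)) (X.map (iP G p)) =
        ((BM c (Y * bk k E) X : ℤ) : ℤ_[p]) := by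
      rw [← Matrix.map_mul, BM_ch]
      rfl
    rw [show BM c (Y.map (ch (Int.castRingHom ℚ) G) * (bk k E).map
      (ch (Int.castRingHom ℚ) G)) (X.map (ch (Int.castRingHom ℚ) G)) = _ from y5]
    rw [show BM c (Y.map (ch (Int.castRingHom ℤ_[p]) G) * (bk k E).map
      (ch (Int.castRingHom ℤ_[p]) G)) (X.map (ch (Int.castRingHom ℤ_[p]) G)) = _ from y6] at r10
    have r13 := congrArg (zq p) r10
    rw [map_zero, map_sub, map_sub, map_intCast] at r13
    push_cast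
    linear_combination r13

/-- the group generated by the classes with invariants -/
def Inv0 (G : Type) [Group G] : AddSubgroup (K0 (MonoidAlgebra ℤ G) × DT G) :=
  AddSubgroup.closure (Gen0 G)

theorem Inv0.exists_sub {z : K0 (MonoidAlgebra ℤ G) × DT G} (hz : z ∈ Inv0 G) :
    ∃ a ∈ Gen0 G, ∃ b ∈ Gen0 G, z = a - b := by
  unfold Inv0 at hz
  induction hz using AddSubgroup.closure_induction with
  | mem x hx => exact ⟨x, hx, 0, Gen0.zero, (sub_zero x).symm⟩
  | zero => exact ⟨0, Gen0.zero, 0, Gen0.zero, (sub_zero 0).symm⟩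
  | add x y _ _ hx hy =>
    obtain ⟨a, ha, b, hb, rfl⟩ := hx
    obtain ⟨c, hc, d, hd, rfl⟩ := hy
    exact ⟨a + c, Gen0.add ha hc, b + d, Gen0.add hb hd, by abel⟩
  | neg x _ hx =>
    obtain ⟨a, ha, b, hb, rfl⟩ := hx
    exact ⟨b, hb, a, ha, by abel⟩

theorem Inv0.detect {δ : DT G} (h : ((0 : K0 (MonoidAlgebra ℤ G)), δ) ∈ Inv0 G) :
    ∃ W : G → (G → ℤ) → ℚ, Rat0 W ∧ ∀ (p : Nat.Primes) (s : G) (f : G → ℤ), Ok s f →
      (p : ℕ) ∣ orderOf s → δ p s f = (W s f : ℚ_[p]) := by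
  obtain ⟨a, ha, b, hb, hab⟩ := Inv0.exists_sub h
  have h1 : a.1 = b.1 := by
    have := congrArg Prod.fst hab
    exact (sub_eq_zero.1 this.symm)
  have h2 : δ = a.2 - b.2 := congrArg Prod.snd hab
  have ha' : (b.1, a.2) ∈ Gen0 G := by
    rw [← h1]
    exact ha
  obtain ⟨W, hw1, hw2⟩ := Gen0.unique (x := b.1) (δ₁ := b.2) (δ₂ := a.2) hb ha'
  refine ⟨W, hw1, fun p s f hsf hps => ?_⟩
  rw [← hw2 p s f hsf hps, h2]
  rfl

end gen

end

end Pool.Agent.Y69.DZ
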