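import Mathlib
import Pool.Agent.Y69.DZ.Gen0

/-!
# Classes in `K₀(ℤ[G])` coming from products of commutative groups with `ℤ`
-/

set_option autoImplicit false
set_option linter.unusedSectionVars false

namespace Pool.Agent.Y69.DZ

open Finset Matrix LaurentPolynomial
open Pool.Agent.H26R2.IdemLI (ch ch_coeff)
open Pool.Agent.H23R2.Cyc (ell ell_single)
open Pool.Agent.Y69.NK (iQ iP jQ jP jQ_iQ K0 cl idem_map map_cl mL mL_C mL_T Lam lamQ lamK lamZ
  lamZ_coe patch eD c0 dAl dAl' al al' pf ch_pf ch_comp)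

noncomputable section

variable {Γ G : Type} [CommGroup Γ] [Group G]

section lau

variable (R : Type) [CommRing R]

variable (Γ) in
/-- `R[Γ][t, t⁻¹] → R[Γ × ℤ]` -/
def lau : LaurentPolynomial (MonoidAlgebra R Γ) →+* MonoidAlgebra R (Γ × Multiplicative ℤ) :=
  AddMonoidAlgebra.liftNCRingHom (pf R (MonoidHom.inl Γ (Multiplicative ℤ)))
    ((MonoidAlgebra.of R (Γ × Multiplicative ℤ)).comp (MonoidHom.inr Γ (Multiplicative ℤ)))
    (fun _ _ => Commute.all _ _)

theorem lau_single (i : ℤ) (b : MonoidAlgebra R Γ) :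
    lau Γ R (AddMonoidAlgebra.single i b) = pf R (MonoidHom.inl Γ (Multiplicative ℤ)) b *
      MonoidAlgebra.single (1, Multiplicative.ofAdd i) 1 := by
  unfold lau
  exact AddMonoidAlgebra.liftNC_single _ _ _ _

theorem lau_C (b : MonoidAlgebra R Γ) :
    lau Γ R (C b) = pf R (MonoidHom.inl Γ (Multiplicative ℤ)) b := by
  have h := lau_single (Γ := Γ) R 0 b
  have h1 : (MonoidAlgebra.single (1, Multiplicative.ofAdd 0) 1 :
    MonoidAlgebra R (Γ × Multiplicative ℤ)) = 1 := rfl
  rw [h1, mul_one] at h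
  exact h

theorem lau_T (i : ℤ) :
    lau Γ R (LaurentPolynomial.T i) = MonoidAlgebra.single (1, Multiplicative.ofAdd i) 1 := by
  have h := lau_single (Γ := Γ) R i 1
  rw [map_one, one_mul] at h
  exact h

variable {R} in
theorem lau_ch {S : Type} [CommRing S] (f : R →+* S) (x : LaurentPolynomial (MonoidAlgebra R Γ)) :
    ch f (Γ × Multiplicative ℤ) (lau Γ R x) = lau Γ S (mL (ch f Γ) x) := by
  induction x using AddMonoidAlgebra.induction_linear with
  | zero => rw [map_zero, map_zero, map_zero, map_zero]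
  | add x y hx hy => rw [map_add, map_add, map_add, map_add, hx, hy]
  | single i b =>
    have h1 : mL (ch f Γ) (AddMonoidAlgebra.single i b) =
        AddMonoidAlgebra.single i (ch f Γ b) := AddMonoidAlgebra.mapRingHom_single _ _ _
    rw [h1, lau_single, lau_single, map_mul]
    congr 1
    · exact RingHom.congr_fun (ch_pf f (MonoidHom.inl Γ (Multiplicative ℤ))) b
    · have h2 : ch f (Γ × Multiplicative ℤ) (MonoidAlgebra.single (1, Multiplicative.ofAdd i) 1) =
          MonoidAlgebra.single (1, Multiplicative.ofAdd i) (f 1) :=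
        MonoidAlgebra.mapRingHom_single _ _ _
      rw [h2, map_one]

end lau

section colrow

variable {A B : Type} [Ring A] [Ring B]

/-- the first column -/
def col (W : Matrix (_root_.Fin 2) (_root_.Fin 2) A) : Matrix (_root_.Fin 2) Unit A :=
  Matrix.of fun i _ => W i 0

/-- the first row -/
def row (W : Matrix (_root_.Fin 2) (_root_.Fin 2) A) : Matrix Unit (_root_.Fin 2) A :=
  Matrix.of fun _ j => W 0 j

theorem row_mul_col {W' W : Matrix (_root_.Fin 2) (_root_.Fin 2) A} (h : W' * W = 1) :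
    row W' * col W = 1 := by
  ext1 i j
  rw [Matrix.mul_apply, Subsingleton.elim i j, Matrix.one_apply_eq]
  have h1 := congrFun (congrFun h 0) 0
  rw [Matrix.mul_apply, Matrix.one_apply_eq] at h1
  exact h1

theorem col_mul_row (W' W : Matrix (_root_.Fin 2) (_root_.Fin 2) A) :
    col W * row W' =
      W * Matrix.diagonal (fun r => if c0 r then 1 else 0) * W' := by
  ext1 i j
  rw [Matrix.mul_apply, Matrix.mul_apply, Fin.sum_univ_two]
  simp only [Matrix.mul_diagonal, Finset.univ_unique, Finset.sum_singleton]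
  show W i 0 * W' 0 j = W i 0 * (if (0 : _root_.Fin 2) = 0 then 1 else 0) * W' 0 j +
    W i 1 * (if (1 : _root_.Fin 2) = 0 then 1 else 0) * W' 1 j
  rw [if_pos rfl, if_neg (by decide), mul_one, mul_zero, zero_mul, add_zero]

theorem col_map (θ : A →+* B) (W : Matrix (_root_.Fin 2) (_root_.Fin 2) A) :
    col (W.map θ) = (col W).map θ := rfl

theorem row_map (θ : A →+* B) (W : Matrix (_root_.Fin 2) (_root_.Fin 2) A) :
    row (W.map θ) = (row W).map θ := rfl

/-- the matrix of size one -/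
def m1 (a : A) : Matrix Unit Unit A := Matrix.of fun _ _ => a

theorem col_diag (W : Matrix (_root_.Fin 2) (_root_.Fin 2) A) (a b : A) :
    col (W * Matrix.diagonal ![a, b]) = col W * m1 a := by
  ext1 i j
  show (W * Matrix.diagonal ![a, b]) i 0 = _
  rw [Matrix.mul_diagonal, Matrix.mul_apply, Finset.univ_unique, Finset.sum_singleton]
  rfl

theorem row_diag (W : Matrix (_root_.Fin 2) (_root_.Fin 2) A) (a b : A) :
    row (Matrix.diagonal ![a, b] * W) = m1 a * row W := by
  ext1 i j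
  show (Matrix.diagonal ![a, b] * W) 0 j = _
  rw [Matrix.diagonal_mul, Matrix.mul_apply, Finset.univ_unique, Finset.sum_singleton]
  rfl

end colrow

section twist

variable {R : Type} [CommRing R]

theorem bz_add_l (c : G → G → ℤ) (a a' b : MonoidAlgebra R G) :
    bz c (a + a') b = bz c a b + bz c a' b := bil_add_left _ _ _ _

theorem bz_add_r (c : G → G → ℤ) (a b b' : MonoidAlgebra R G) :
    bz c a (b + b') = bz c a b + bz c a b' := bil_add_right _ _ _ _

theorem bz_zero_l (c : G → G → ℤ) (b : MonoidAlgebra R G) : bz c 0 b = 0 := bil_zero_left _ _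

theorem bz_zero_r (c : G → G → ℤ) (b : MonoidAlgebra R G) : bz c b 0 = 0 := bil_zero_right _ _

/-- the functional on `1 - a + a b` -/
theorem bz_twist {c : G → G → ℤ} (hc : ∀ x y z, c (x * y) z - c x (y * z) + c (z * x) y = 0)
    (a b b' : MonoidAlgebra R G) (ha : a * a = a) (hb : b * b' = 1) (hab : a * b = b * a)
    (hab' : a * b' = b' * a) :
    bz c ((1 - a) + a * b) ((1 - a) + a * b') = -bz c (a * b') b := by
  have h1 : a * (1 - a) = 0 := by rw [mul_sub, mul_one, ha, sub_self]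
  have h2 : (1 - a) * a = 0 := by rw [sub_mul, one_mul, ha, sub_self]
  have h3 : (1 - a) * (1 - a) = 1 - a := by rw [mul_sub, mul_one, h2, sub_zero]
  have e1 : bz c (a * b) (1 - a) = 0 := by
    have h := bz_cocycle c hc a (a * b) (1 - a)
    have g1 : a * (a * b) = a * b := by rw [← mul_assoc, ha]
    have g2 : a * b * (1 - a) = 0 := by
      have : b * (1 - a) = (1 - a) * b := by rw [mul_sub, sub_mul, mul_one, one_mul, hab]
      rw [mul_assoc, this, ← mul_assoc, h1, zero_mul]
    rw [g1, g2, h2, bz_zero_r, bz_zero_l] at h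
    linear_combination h
  have e2 : bz c (1 - a) (a * b') = 0 := by
    have h := bz_cocycle c hc (1 - a) (1 - a) (a * b')
    have g1 : (1 - a) * (a * b') = 0 := by rw [← mul_assoc, h2, zero_mul]
    have g2 : a * b' * (1 - a) = 0 := by
      have : b' * (1 - a) = (1 - a) * b' := by rw [mul_sub, sub_mul, mul_one, one_mul, hab']
      rw [mul_assoc, this, ← mul_assoc, h1, zero_mul]
    rw [h3, g1, g2, bz_zero_r, bz_zero_l] at h
    linear_combination h
  have e3 : bz c (1 - a) (1 - a) = 0 := by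
    have h := bz_cocycle c hc (1 - a) (1 - a) (1 - a)
    rw [h3] at h
    linear_combination h
  have e4 : bz c a a = 0 := by
    have h := bz_cocycle c hc a a a
    rw [ha] at h
    linear_combination h
  have e5 : bz c (a * b) (a * b') = -bz c (a * b') b := by
    have h := bz_cocycle c hc a b (a * b')
    have g1 : b * (a * b') = a := by
      rw [← mul_assoc, ← hab, mul_assoc, hb, mul_one]
    have g2 : a * b' * a = a * b' := by rw [mul_assoc, ← hab', ← mul_assoc, ha]
    rw [g1, g2, e4] at h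
    linear_combination h
  rw [bz_add_l, bz_add_r, bz_add_r, e1, e2, e3, e5]
  ring

open Classical in
/-- the value -/
def val (s : G) (f : G → ℤ) (z k : G) : ℤ := if IsConj s k then et s f z k else 0

theorem bz_val {s : G} {f : G → ℤ} (h : Ok s f) (φ : Γ →* G) (z : G)
    (F : MonoidAlgebra R Γ) :
    bz (kn s (et s f)) (pf R φ F * MonoidAlgebra.single z⁻¹ 1) (MonoidAlgebra.single z 1) =
      ell (fun γ => (val s f z (φ γ) : R)) F := by
  induction F using MonoidAlgebra.induction_linear with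
  | zero => rw [map_zero, map_zero, zero_mul, bz_zero_l]
  | add F F' hF hF' => rw [map_add, map_add, add_mul, bz_add_l, hF, hF']
  | single γ r =>
    rw [MonoidAlgebra.mapDomainRingHom_apply, MonoidAlgebra.mapDomain_single,
      MonoidAlgebra.single_mul_single, bz_single, ell_single, mul_one, mul_one]
    congr 2
    unfold kn val
    rw [inv_mul_cancel_right]
    by_cases hc : IsConj s (φ γ)
    · rw [if_pos hc, if_pos hc]
      have h1 : (φ γ * z⁻¹)⁻¹ = z * (φ γ)⁻¹ := by group
      have h2 := et_coc h.1 z (φ γ)⁻¹ (φ γ) hc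
      have h3 : (φ γ)⁻¹ * φ γ * (φ γ)⁻¹⁻¹ = φ γ := by group
      have h4 := et_coc h.1 (φ γ)⁻¹ (φ γ) (φ γ) hc
      have h5 := et_self h.1 h.2.1 (φ γ) hc
      have h6 := (et_coc h.1).one hc
      rw [inv_mul_cancel, mul_inv_cancel_right, h5, h6] at h4
      rw [h1, h2, h3]
      omega
    · rw [if_neg hc, if_neg hc]

end twist

section classes

variable (ψ : Γ × Multiplicative ℤ →* G)

/-- the image of the generator -/
def zz : G := ψ (1, Multiplicative.ofAdd 1)

/-- the restriction to the group -/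
def ff : Γ →* G := ψ.comp (MonoidHom.inl Γ (Multiplicative ℤ))

variable (R : Type) [CommRing R]

/-- `R[Γ][t, t⁻¹] → R[G]` -/
def Th : LaurentPolynomial (MonoidAlgebra R Γ) →+* MonoidAlgebra R G := (pf R ψ).comp (lau Γ R)

theorem pf_comp (F : MonoidAlgebra R Γ) :
    pf R ψ (pf R (MonoidHom.inl Γ (Multiplicative ℤ)) F) = pf R (ff ψ) F := by
  induction F using MonoidAlgebra.induction_linear with
  | zero => rw [map_zero, map_zero, map_zero]
  | add F F' hF hF' => rw [map_add, map_add, map_add, hF, hF']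
  | single γ r =>
    simp only [MonoidAlgebra.mapDomainRingHom_apply, MonoidAlgebra.mapDomain_single]
    rfl

theorem Th_C (F : MonoidAlgebra R Γ) : Th ψ R (C F) = pf R (ff ψ) F := by
  unfold Th
  rw [RingHom.comp_apply, lau_C, pf_comp]

theorem Th_T (i : ℤ) : Th ψ R (LaurentPolynomial.T i) = MonoidAlgebra.single (zz ψ ^ i) 1 := by
  unfold Th
  rw [RingHom.comp_apply, lau_T, MonoidAlgebra.mapDomainRingHom_apply,
    MonoidAlgebra.mapDomain_single]
  congr 1
  unfold zz
  rw [← map_zpow]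
  congr 1
  apply Prod.ext
  · show (1 : Γ) = MonoidHom.fst Γ (Multiplicative ℤ) ((1, Multiplicative.ofAdd 1) ^ i)
    rw [map_zpow]
    exact (_root_.one_zpow i).symm
  · show Multiplicative.ofAdd i =
      MonoidHom.snd Γ (Multiplicative ℤ) ((1, Multiplicative.ofAdd 1) ^ i)
    rw [map_zpow]
    show Multiplicative.ofAdd i = (Multiplicative.ofAdd 1) ^ i
    rw [← ofAdd_zsmul, smul_eq_mul, mul_one]

theorem Th_al (F : MonoidAlgebra R Γ) : Th ψ R (al F) =
    (1 - pf R (ff ψ) F) + pf R (ff ψ) F * MonoidAlgebra.single (zz ψ) 1 := by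
  unfold al
  rw [map_add, map_mul, Th_C, Th_C, Th_T, zpow_one, map_sub, map_one]

theorem Th_al' (F : MonoidAlgebra R Γ) : Th ψ R (al' F) =
    (1 - pf R (ff ψ) F) + pf R (ff ψ) F * MonoidAlgebra.single (zz ψ)⁻¹ 1 := by
  unfold al'
  rw [map_add, map_mul, Th_C, Th_C, Th_T, _root_.zpow_neg_one, map_sub, map_one]

variable {R} in
theorem Th_ch {S : Type} [CommRing S] (f : R →+* S) (x : LaurentPolynomial (MonoidAlgebra R Γ)) :
    ch f G (Th ψ R x) = Th ψ S (mL (ch f Γ) x) := by
  unfold Th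
  rw [RingHom.comp_apply, RingHom.comp_apply, ← lau_ch]
  exact RingHom.congr_fun (ch_pf f ψ) _

variable {R} in
theorem Th_ch_map {S : Type} [CommRing S] (f : R →+* S) {I J : Type}
    (X : Matrix I J (LaurentPolynomial (MonoidAlgebra R Γ))) :
    (X.map (Th ψ R)).map (ch f G) = (X.map (mL (ch f Γ))).map (Th ψ S) := by
  ext1 i j
  exact Th_ch ψ f _

theorem comm_z (F : MonoidAlgebra R Γ) (i : ℤ) :
    pf R (ff ψ) F * MonoidAlgebra.single (zz ψ ^ i) 1 =
      MonoidAlgebra.single (zz ψ ^ i) 1 * pf R (ff ψ) F := by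
  rw [← Th_C, ← Th_T, ← map_mul, ← map_mul]
  congr 1
  exact mul_comm _ _

theorem D_val {s : G} {f : G → ℤ} (h : Ok s f) (F : MonoidAlgebra R Γ) (hF : F * F = F) :
    BM (kn s (et s f)) (m1 (Th ψ R (al F))) (m1 (Th ψ R (al' F))) =
      -ell (fun γ => (val s f (zz ψ) (ff ψ γ) : R)) F := by
  have h1 : BM (kn s (et s f)) (m1 (Th ψ R (al F))) (m1 (Th ψ R (al' F))) =
      bz (kn s (et s f)) (Th ψ R (al F)) (Th ψ R (al' F)) := by
    unfold BM
    rw [Finset.univ_unique, Finset.sum_singleton, Finset.sum_singleton]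
    rfl
  have c1 := comm_z ψ R F 1
  have c2 := comm_z ψ R F (-1)
  rw [zpow_one] at c1
  rw [_root_.zpow_neg_one] at c2
  rw [h1, Th_al, Th_al', bz_twist h.coc (pf R (ff ψ) F) (MonoidAlgebra.single (zz ψ) 1)
    (MonoidAlgebra.single (zz ψ)⁻¹ 1) (by rw [← map_mul, hF]) (by
      rw [MonoidAlgebra.single_mul_single, mul_inv_cancel, mul_one]
      rfl) c1 c2, bz_val h (ff ψ) (zz ψ) F]

open Classical in
/-- the invariants of the class patched from an idempotent -/
def del0 (p : Nat.Primes) (F : MonoidAlgebra ℚ_[p] Γ) : DT G :=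
  Pi.single p (fun s f => -ell (fun γ => (val s f (zz ψ) (ff ψ γ) : ℚ_[p])) F)

theorem del0_same (p : Nat.Primes) (F : MonoidAlgebra ℚ_[p] Γ) (s : G) (f : G → ℤ) :
    del0 ψ p F p s f = -ell (fun γ => (val s f (zz ψ) (ff ψ γ) : ℚ_[p])) F := by
  unfold del0
  rw [Pi.single_eq_same]

theorem del0_ne (p : Nat.Primes) (F : MonoidAlgebra ℚ_[p] Γ) (s : G) (f : G → ℤ) (q : Nat.Primes)
    (h : q ≠ p) : del0 ψ p F q s f = 0 := by
  unfold del0
  rw [Pi.single_eq_of_ne h]
  rfl

theorem BM_anti {R : Type} [CommRing R] {I J : Type} [Fintype I] [Fintype J] [DecidableEq I]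
    [DecidableEq J] {s : G} {f : G → ℤ} (h : Ok s f) (u : Matrix I J (MonoidAlgebra R G))
    (u' : Matrix J I (MonoidAlgebra R G)) (hu : u' * u = 1) (D D' : Matrix J J (MonoidAlgebra R G))
    (hD : D * D' = 1) : BM (kn s (et s f)) (D' * u') (u * D) =
      BM (kn s (et s f)) D' D + BM (kn s (et s f)) u' u := by
  have h1 := BM_cocycle _ h.coc D' u' (u * D)
  have e1 : u' * (u * D) = D := by rw [← Matrix.mul_assoc, hu, Matrix.one_mul]
  have e2 : u * D * D' = u := by rw [Matrix.mul_assoc, hD, Matrix.mul_one]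
  rw [e1, e2] at h1
  have h2 := BM_cocycle _ h.coc (1 : Matrix J J (MonoidAlgebra R G)) u' u
  rw [Matrix.one_mul, hu, Matrix.mul_one, BM_one h.2.2] at h2
  linear_combination h1 - h2

theorem gen_patch0 (p : Nat.Primes) (F : MonoidAlgebra ℚ_[p] Γ)
    (E : Matrix (_root_.Fin 2) (_root_.Fin 2) (LaurentPolynomial (MonoidAlgebra ℤ Γ)))
    (W W' : Matrix (_root_.Fin 2) (_root_.Fin 2) (LaurentPolynomial (MonoidAlgebra (Lam p) Γ)))
    (V V' : Matrix (_root_.Fin 2) (_root_.Fin 2) (LaurentPolynomial (MonoidAlgebra ℤ_[p] Γ)))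
    (hF : F * F = F) (hE : E * E = E) (hW : W' * W = 1) (hV : V' * V = 1)
    (h1 : E.map (mL (ch (Int.castRingHom (Lam p)) Γ)) = W * eD _ c0 * W')
    (h2 : E.map (mL (NK.iP Γ p)) = V * eD _ c0 * V')
    (h3 : V.map (mL (NK.jP Γ p)) = W.map (mL (ch (lamK p p) Γ)) * dAl F)
    (h4 : V'.map (mL (NK.jP Γ p)) = dAl' F * W'.map (mL (ch (lamK p p) Γ))) :
    (cl (E.map (Th ψ ℤ)) (idem_map hE _), del0 ψ p F) ∈ Gen0 G := by
  -- the image of a trivialisation
  have key : ∀ {R S : Type} [CommRing R] [CommRing S] (g : ℤ →+* R) (f : R →+* S)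
      (X X' : Matrix (_root_.Fin 2) (_root_.Fin 2) (LaurentPolynomial (MonoidAlgebra R Γ))),
      X' * X = 1 → E.map (mL (ch g Γ)) = X * eD _ c0 * X' →
      ((col X).map (Th ψ R)).map (ch f G) * ((row X').map (Th ψ R)).map (ch f G) =
        (E.map (Th ψ ℤ)).map (ch (f.comp g) G) ∧
      ((row X').map (Th ψ R)).map (ch f G) * ((col X).map (Th ψ R)).map (ch f G) = 1 := by
    intro R S _ _ g f X X' hX hE'
    constructor
    · rw [← Matrix.map_mul, ← Matrix.map_mul, col_mul_row, ← ch_comp]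
      have e1 : X * Matrix.diagonal (fun r => if c0 r then 1 else 0) * X' =
        E.map (mL (ch g Γ)) := hE'.symm
      rw [e1, ← Th_ch_map]
      rfl
    · rw [← Matrix.map_mul, ← Matrix.map_mul, row_mul_col hX]
      rw [Matrix.map_one _ (map_zero _) (map_one _), Matrix.map_one _ (map_zero _) (map_one _)]
  obtain ⟨a1, a2⟩ := key (Int.castRingHom (Lam p)) (lamQ p) W W' hW h1
  have hz : (lamQ p).comp (Int.castRingHom (Lam p)) = Int.castRingHom ℚ := RingHom.ext_int _ _
  rw [hz] at a1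
  refine ⟨_root_.Fin 2, Unit, inferInstance, inferInstance, inferInstance, inferInstance,
    E.map (Th ψ ℤ), idem_map hE _, ((col W).map (Th ψ (Lam p))).map (ch (lamQ p) G),
    ((row W').map (Th ψ (Lam p))).map (ch (lamQ p) G), rfl, a1, a2, fun q => ?_⟩
  -- the rational part in `ℚ_q`
  have hrat : ∀ c : G → G → ℤ, ((BM c (((row W').map (Th ψ (Lam p))).map (ch (lamQ p) G))
      (((col W).map (Th ψ (Lam p))).map (ch (lamQ p) G)) : ℚ) : ℚ_[q]) =
      BM c (((row W').map (Th ψ (Lam p))).map (ch (lamK p q) G))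
        (((col W).map (Th ψ (Lam p))).map (ch (lamK p q) G)) := by
    intro c
    have e1 := BM_ch (Rat.castHom ℚ_[q]) c (((row W').map (Th ψ (Lam p))).map (ch (lamQ p) G))
      (((col W).map (Th ψ (Lam p))).map (ch (lamQ p) G))
    refine Eq.trans e1.symm ?_
    have e2 : ∀ {I J : Type} (X : Matrix I J (MonoidAlgebra (Lam p) G)),
        (X.map (ch (lamQ p) G)).map (ch (Rat.castHom ℚ_[q]) G) = X.map (ch (lamK p q) G) := by
      intro I J X
      ext1 i j
      exact RingHom.congr_fun (ch_comp (lamQ p) (Rat.castHom ℚ_[q]) G) _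
    rw [e2, e2]
  by_cases hq : q = p
  · subst hq
    obtain ⟨b1, b2⟩ := key (Int.castRingHom ℤ_[q]) (RingHom.id ℤ_[q]) V V' hV h2
    have hid : ∀ {I J : Type} (X : Matrix I J (MonoidAlgebra ℤ_[q] G)),
        X.map (ch (RingHom.id ℤ_[q]) G) = X := by
      intro I J X
      ext1 i j
      ext g
      rw [Matrix.map_apply, ch_coeff]
      rfl
    rw [RingHom.id_comp, hid, hid] at b1
    rw [hid, hid] at b2
    refine ⟨(col V).map (Th ψ ℤ_[q]), (row V').map (Th ψ ℤ_[q]), b1, b2, fun s f hsf => ?_⟩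
    show del0 ψ q F q s f = zq q _ - _
    rw [del0_same, hrat, ← BM_ch]
    have e1 : ((row V').map (Th ψ ℤ_[q])).map (ch (zq q) G) =
        m1 (Th ψ ℚ_[q] (al F)) * ((row W').map (Th ψ (Lam q))).map (ch (lamK q q) G) := by
      rw [Th_ch_map, Th_ch_map, ← row_map, ← row_map]
      have e3 : V'.map (mL (ch (zq q) Γ)) = dAl' F * W'.map (mL (ch (lamK q q) Γ)) := h4
      rw [e3]
      unfold dAl'
      rw [row_map, row_diag, Matrix.map_mul]
      rfl
    have e2 : ((col V).map (Th ψ ℤ_[q])).map (ch (zq q) G) =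
        ((col W).map (Th ψ (Lam q))).map (ch (lamK q q) G) * m1 (Th ψ ℚ_[q] (al' F)) := by
      rw [Th_ch_map, Th_ch_map, ← col_map, ← col_map]
      have e3 : V.map (mL (ch (zq q) Γ)) = W.map (mL (ch (lamK q q) Γ)) * dAl F := h3
      rw [e3]
      unfold dAl
      rw [col_map, col_diag, Matrix.map_mul]
      rfl
    rw [e1, e2, BM_anti hsf _ _ (key (Int.castRingHom (Lam q)) (lamK q q) W W' hW h1).2, D_val
      ψ ℚ_[q] hsf F hF]
    · ring
    · have e4 : Th ψ ℚ_[q] (al' F) * Th ψ ℚ_[q] (al F) = 1 := by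
        rw [← map_mul, NK.al'_mul_al hF, map_one]
      ext1 i j
      rw [Matrix.mul_apply, Finset.univ_unique, Finset.sum_singleton, Subsingleton.elim i j,
        Matrix.one_apply_eq]
      exact e4
  · have hqp : (q : ℕ) ≠ p := fun h => hq (Subtype.ext h)
    obtain ⟨b1, b2⟩ := key (Int.castRingHom (Lam p)) (lamZ p q hqp) W W' hW h1
    have hz' : (lamZ p q hqp).comp (Int.castRingHom (Lam p)) = Int.castRingHom ℤ_[q] :=
      RingHom.ext_int _ _
    rw [hz'] at b1
    refine ⟨_, _, b1, b2, fun s f hsf => ?_⟩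
    show del0 ψ p F q s f = zq q _ - _
    rw [del0_ne ψ p F s f q hq, hrat, ← BM_ch]
    have e2 : ∀ {I J : Type} (X : Matrix I J (MonoidAlgebra (Lam p) G)),
        (X.map (ch (lamZ p q hqp) G)).map (ch (zq q) G) = X.map (ch (lamK p q) G) := by
      intro I J X
      rw [← lamZ_coe p q hqp, ← ch_comp]
      rfl
    rw [e2, e2, sub_self]

theorem exists_class0 (p : Nat.Primes) (F : MonoidAlgebra ℚ_[p] Γ)
    (hF : F * F = F) : ∃ x : K0 (MonoidAlgebra ℤ (Γ × Multiplicative ℤ)),
      ∀ (ψ : Γ × Multiplicative ℤ →* G), (K0.map (pf ℤ ψ) x, del0 ψ p F) ∈ Inv0 G := by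
  obtain ⟨E, W, W', V, V', hE, hW, hV, h1, h2, h3, h4⟩ := patch (p : ℕ) F hF
  refine ⟨cl (E.map (lau Γ ℤ)) (idem_map hE _), fun ψ => ?_⟩
  rw [map_cl]
  exact AddSubgroup.subset_closure (gen_patch0 ψ p F E W W' V V' hF hE hW hV h1 h2 h3 h4)

end classes

end

end Pool.Agent.Y69.DZ
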