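import Mathlib
import Pool.Agent.Y69.DZ.Lin0
import Pool.Agent.Y69.DZ.Patch0
import Pool.Agent.Y69.NK.Count

/-!
# The values of the invariants on the patched classes span
-/

set_option autoImplicit false
set_option linter.unusedSectionVars false

namespace Pool.Agent.Y69.DZ

open Finset Module
open Pool.Agent.H23R2.Cyc (ell ell_single)
open Pool.Agent.Y69.NK (K0 pf SI xel xel_mem crt Gens PRel numClasses Cl rep finite_Cl gens_lift
  coprime_of_rel zpowers_pow_eq exists_basis_family)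

noncomputable section

variable {G : Type} [Group G]

theorem exists_xel0 (p : ℕ) [hp : Fact p.Prime] {Γ : Type} [CommGroup Γ] [Finite Γ]
    (g : Γ) (hpg : p ∣ orderOf g) : ∃ x ∈ SI p Γ, ∃ (T : Finset (ℕ × ℕ)) (e : ℕ × ℕ → ℕ),
      (∀ w ∈ T, ¬ p ∣ e w ∧ ∃ j, e w ≡ p ^ j [MOD orderOf g / p ^ (orderOf g).factorization p]) ∧
      (∃ w ∈ T, g ^ e w = g) ∧ ∀ Φ : Γ → ℚ_[p], ell Φ x = ∑ w ∈ T, Φ (g ^ e w) := by
  classical
  have ho : orderOf g ≠ 0 := (orderOf_pos g).ne'
  obtain ⟨α, β, k, m, hk, hn, hm, hco, hm0, a1, a2, b1, b2⟩ := crt (orderOf g) p hp.out ho hpg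
  have hφ : 0 < m.totient := Nat.totient_pos.2 hm0
  have key : ∀ i j : ℕ, (g ^ α) ^ i * (g ^ β) ^ (p ^ j) = g ^ (α * i + β * p ^ j) := by
    intro i j
    rw [← pow_mul, ← pow_mul, ← pow_add]
  refine ⟨xel p (g ^ α) (g ^ β) k m.totient, xel_mem _ _ _ _ hk ?_ ?_,
    ((range (p ^ k)).filter (fun i => ¬ p ∣ i)) ×ˢ range m.totient,
    fun w => α * w.1 + β * p ^ w.2, ?_, ?_, ?_⟩
  · rw [← pow_mul]
    apply orderOf_dvd_iff_pow_eq_one.1
    rw [hn, mul_comm α]
    exact Nat.mul_dvd_mul_left _ ((Nat.modEq_zero_iff_dvd).1 a2)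
  · rw [← pow_mul]
    rw [pow_eq_pow_iff_modEq, hn]
    rw [← Nat.modEq_and_modEq_iff_modEq_mul (hco.pow_left k)]
    constructor
    · have h1 := b1.mul_right (p ^ m.totient)
      rw [zero_mul] at h1
      exact h1.trans b1.symm
    · have h1 := (Nat.ModEq.refl β).mul (Nat.ModEq.pow_totient hco)
      rwa [mul_one] at h1
  · rintro ⟨i, j⟩ hij
    rw [Finset.mem_product, Finset.mem_filter] at hij
    refine ⟨?_, j, ?_⟩
    · intro hdvd
      have h1 : α * i + β * p ^ j ≡ i [MOD p ^ k] := by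
        have h2 := (a1.mul_right i).add (b1.mul_right (p ^ j))
        rwa [one_mul, zero_mul, add_zero] at h2
      have h3 : α * i + β * p ^ j ≡ i [MOD p] := h1.of_dvd (dvd_pow_self p hk.ne')
      exact hij.1.2 ((h3.dvd_iff dvd_rfl).1 hdvd)
    · rw [← hm]
      have h2 := (a2.mul_right i).add (b2.mul_right (p ^ j))
      rwa [one_mul, zero_mul, zero_add] at h2
  · refine ⟨(1, 0), ?_, ?_⟩
    · rw [Finset.mem_product, Finset.mem_filter, Finset.mem_range, Finset.mem_range]
      refine ⟨⟨Nat.one_lt_pow hk.ne' hp.out.one_lt, ?_⟩, hφ⟩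
      intro h
      exact hp.out.one_lt.ne' (Nat.dvd_one.1 h)
    · show g ^ (α * 1 + β * p ^ 0) = g
      conv_rhs => rw [← pow_one g]
      rw [pow_eq_pow_iff_modEq, hn, ← Nat.modEq_and_modEq_iff_modEq_mul (hco.pow_left k),
        mul_one, pow_zero, mul_one]
      exact ⟨(a1.add b1), (a2.add b2)⟩
  · intro Φ
    unfold xel
    rw [Finset.sum_mul_sum, ← Finset.sum_product', map_sum]
    apply Finset.sum_congr rfl
    rintro ⟨i, j⟩ _
    rw [MonoidAlgebra.single_mul_single, mul_one, ell_single, one_mul, key]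

section fx

variable {D : Subgroup G}

open Classical in
/-- extension by zero -/
def fx (h : Subgroup.centralizer (D : Set G) → ℤ) (x : G) : ℤ :=
  if hx : x ∈ Subgroup.centralizer (D : Set G) then h ⟨x, hx⟩ else 0

theorem fx_mem (h : Subgroup.centralizer (D : Set G) → ℤ) (x : G)
    (hx : x ∈ Subgroup.centralizer (D : Set G)) : fx h x = h ⟨x, hx⟩ := dif_pos hx

theorem mem_cent {s x : G} (hs : Subgroup.zpowers s = D) (hx : Commute x s) :
    x ∈ Subgroup.centralizer (D : Set G) := by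
  rw [Subgroup.mem_centralizer_iff]
  intro d hd
  have hd' : d ∈ Subgroup.zpowers s := by
    rw [hs]
    exact hd
  obtain ⟨k, rfl⟩ := Subgroup.mem_zpowers_iff.1 hd'
  exact (hx.zpow_right k).eq.symm

theorem adm_fx {s : G} (hs : Subgroup.zpowers s = D)
    {h : Subgroup.centralizer (D : Set G) → ℤ} (hh : ∀ x y, h (x * y) = h x + h y) :
    Adm s (fx h) := by
  intro x y hx hy
  rw [fx_mem h x (mem_cent hs hx), fx_mem h y (mem_cent hs hy),
    fx_mem h (x * y) (Subgroup.mul_mem _ (mem_cent hs hx) (mem_cent hs hy)), ← hh]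
  rfl

open Classical in
theorem val_fx {s : G} (hs : Subgroup.zpowers s = D) {P : ℕ → Prop} (h : CentHom D P)
    (z : Subgroup.centralizer (D : Set G)) (u : ℕ) (hu : P u) :
    val s (fx h.1) z (s ^ u) = if IsConj s (s ^ u) then h.1 z else 0 := by
  unfold val
  by_cases hc : IsConj s (s ^ u)
  · rw [if_pos hc, if_pos hc]
    unfold et
    have hsD : s ∈ D := by
      rw [← hs]
      exact Subgroup.mem_zpowers s
    have h1 : (z : G) * s ^ u * (z : G)⁻¹ = s ^ u := by
      have h2 := Subgroup.mem_centralizer_iff.1 z.2 _ (D.pow_mem hsD u)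
      rw [← h2, mul_inv_cancel_right]
    rw [h1]
    set c := cc s (s ^ u) with hcc
    have h2 : c * s * c⁻¹ = s ^ u := cc_spec hc
    have h3 : ∀ d ∈ D, c * d * c⁻¹ = d ^ u := by
      intro d hd
      have hd' : d ∈ Subgroup.zpowers s := by
        rw [hs]
        exact hd
      obtain ⟨k, rfl⟩ := Subgroup.mem_zpowers_iff.1 hd'
      rw [← conj_zpow, h2, ← zpow_natCast, ← zpow_natCast, ← zpow_mul, ← zpow_mul, mul_comm]
    have h4 : c⁻¹ * z * c ∈ Subgroup.centralizer (D : Set G) := by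
      rw [Subgroup.mem_centralizer_iff]
      intro d hd
      have h5 : c * d * c⁻¹ ∈ D := by
        rw [h3 d hd]
        exact D.pow_mem hd u
      have h6 := Subgroup.mem_centralizer_iff.1 z.2 _ h5
      calc d * (c⁻¹ * z * c) = c⁻¹ * (c * d * c⁻¹ * z) * c := by group
        _ = c⁻¹ * z * c * d := by rw [h6]; group
    rw [fx_mem _ _ h4]
    symm
    apply h.2.2 c u hu h3
    show (z : G) = c * (c⁻¹ * z * c) * c⁻¹
    group
  · rw [if_neg hc, if_neg hc]

end fx

section family

variable {ι : Type} [Fintype ι] {Γ : ι → Type} [∀ i, CommGroup (Γ i)] [∀ i, Finite (Γ i)]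
  (φ : ∀ i, Γ i →* G)

/-- the exponents of the `p`-adic conjugacy -/
abbrev UP (p : ℕ) (C : Subgroup G) (u : ℕ) : Prop :=
  ¬ p ∣ u ∧ ∃ j, u ≡ p ^ j [MOD Nat.card C / p ^ (Nat.card C).factorization p]

/-- the rank of the invariants -/
def dP (p : ℕ) (C : Subgroup G) : ℕ := finrank ℤ (CentHom C (UP p C))

/-- the centralizer -/
abbrev Zi (i : ι) : Type := Subgroup.centralizer ((φ i).range : Set G)

/-- the targets for the prime `p` -/
abbrev Tg (p : Nat.Primes) : Type := Σ j : Cl φ p, Fin (dP p (φ j.1).range)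

/-- the sources for the prime `p` -/
abbrev Sc (p : Nat.Primes) : Type :=
  Σ i : ι, {F : MonoidAlgebra ℚ_[p] (Γ i) // F * F = F} × Zi φ i

variable (hb : ∀ (p : Nat.Primes) (i : ι), Fin (dP p (φ i).range) →
  CentHom (φ i).range (UP p (φ i).range))

/-- the values -/
def vl (p : Nat.Primes) (i : ι) (z : Zi φ i) :
    MonoidAlgebra ℚ_[p] (Γ i) →ₗ[ℚ_[p]] (Tg φ p → ℚ_[p]) where
  toFun F := fun jb => -ell (fun γ => (val (rep φ jb.1).1 (fx (hb p jb.1.1 jb.2).1) z (φ i γ) :
    ℚ_[p])) F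
  map_add' F F' := by
    funext jb
    show -ell _ (F + F') = -ell _ F + -ell _ F'
    rw [map_add]
    ring
  map_smul' c F := by
    funext jb
    show -ell _ (c • F) = c * -ell _ F
    have h : ∀ (Φ : Γ i → ℚ_[p]), ell Φ (c • F) = c * ell Φ F := by
      intro Φ
      induction F using MonoidAlgebra.induction_linear with
      | zero => rw [smul_zero, map_zero, mul_zero]
      | add x y hx hy => rw [smul_add, map_add, map_add, mul_add, hx, hy]
      | single g r =>
        rw [MonoidAlgebra.smul_single, ell_single, ell_single, smul_eq_mul, mul_assoc]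
    rw [h]
    ring

variable (hφ : ∀ i, Function.Injective (φ i))
    (hconj : ∀ i j, (∃ g : G, (φ i).range.map (MulAut.conj g).toMonoidHom = (φ j).range) → i = j)
    (hli : ∀ p i, LinearIndependent ℤ (hb p i))

include hφ hconj hli in
theorem span_vl (p : Nat.Primes) : Submodule.span ℚ_[p] (Set.range
    (fun w : Sc φ p => vl φ hb p w.1 w.2.2 w.2.1.1)) = ⊤ := by
  classical
  set S := Submodule.span ℚ_[p] (Set.range
    (fun w : Sc φ p => vl φ hb p w.1 w.2.2 w.2.1.1)) with hS
  have hfin : Finite (Cl φ p) := finite_Cl φ p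
  have : Fintype (Cl φ p) := Fintype.ofFinite _
  -- the single vectors
  suffices hsingle : ∀ jb : Tg φ p, (Pi.single jb 1 : Tg φ p → ℚ_[p]) ∈ S by
    rw [eq_top_iff]
    intro y _
    rw [← Finset.univ_sum_single y]
    apply Submodule.sum_mem
    intro jb _
    have h0 : (Pi.single jb (y jb) : Tg φ p → ℚ_[p]) = y jb • Pi.single jb 1 := by
      rw [← Pi.single_smul, smul_eq_mul, mul_one]
    rw [h0]
    exact Submodule.smul_mem _ _ (hsingle jb)
  rintro ⟨j, b⟩
  -- the vectors for a central element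
  obtain ⟨g, hg, ho⟩ := gens_lift (φ j.1) (hφ j.1) (rep φ j)
  obtain ⟨x, hx, T, e, hT1, ⟨w₀, hw₀, hw₀'⟩, hT3⟩ := exists_xel0 (p : ℕ) g
    (by rw [ho]; exact j.2.2)
  have hcard : Nat.card (φ j.1).range = Nat.card (Γ j.1) :=
    Nat.card_congr (MonoidHom.ofInjective (hφ j.1)).toEquiv.symm
  have hog : orderOf (rep φ j).1 = Nat.card (Γ j.1) := by
    rw [← hg, orderOf_injective _ (hφ j.1), ho]
  let Ej : (Fin (dP p (φ j.1).range) → ℚ_[p]) →ₗ[ℚ_[p]] (Tg φ p → ℚ_[p]) :=
    { toFun := fun y => ∑ b', y b' • (Pi.single ⟨j, b'⟩ 1 : Tg φ p → ℚ_[p])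
      map_add' := by
        intro y y'
        rw [← Finset.sum_add_distrib]
        apply Finset.sum_congr rfl
        intro b' _
        rw [Pi.add_apply, add_smul]
      map_smul' := by
        intro c y
        rw [Finset.smul_sum]
        apply Finset.sum_congr rfl
        intro b' _
        rw [Pi.smul_apply, smul_eq_mul, mul_smul]
        rfl }
  have hEj : ∀ y, Ej y = ∑ b', y b' • (Pi.single ⟨j, b'⟩ 1 : Tg φ p → ℚ_[p]) := fun _ => rfl
  set N : ℕ := (T.filter (fun w => IsConj (rep φ j).1 (φ j.1 (g ^ e w)))).card with hN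
  have hN0 : (N : ℚ_[p]) ≠ 0 := by
    rw [Nat.cast_ne_zero, hN, Finset.card_ne_zero]
    refine ⟨w₀, Finset.mem_filter.2 ⟨hw₀, ?_⟩⟩
    rw [hw₀', hg]
  have hvx : ∀ z : Zi φ j.1, vl φ hb p j.1 z x =
      -(N : ℚ_[p]) • Ej (fun b' => (((hb p j.1 b').1 z : ℤ) : ℚ_[p])) := by
    intro z
    funext jb'
    obtain ⟨j', b'⟩ := jb'
    show -ell (fun γ => (val (rep φ j').1 (fx (hb p j'.1 b').1) z (φ j.1 γ) : ℚ_[p])) x = _
    rw [hT3, hEj, Pi.smul_apply, Finset.sum_apply, smul_eq_mul]
    by_cases hj : j' = j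
    · subst hj
      have h1 : ∀ w ∈ T, ((val (rep φ j').1 (fx (hb p j'.1 b').1) z (φ j'.1 (g ^ e w)) : ℤ) :
          ℚ_[p]) = if IsConj (rep φ j').1 (φ j'.1 (g ^ e w)) then
            (((hb p j'.1 b').1 z : ℤ) : ℚ_[p]) else 0 := by
        intro w hw
        obtain ⟨hw1, hw2⟩ := hT1 w hw
        have h2 := val_fx (rep φ j').2 (hb p j'.1 b') z (e w) ⟨hw1, by
          rw [hcard, ← ho]
          exact hw2⟩
        rw [map_pow, hg, h2]
        split_ifs
        · rfl
        · exact Int.cast_zero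
      rw [Finset.sum_congr rfl h1, ← Finset.sum_filter, Finset.sum_const, ← hN, nsmul_eq_mul]
      rw [Finset.sum_eq_single b']
      · rw [Pi.smul_apply, Pi.single_eq_same, smul_eq_mul, mul_one]
        ring
      · intro b'' _ hb''
        rw [Pi.smul_apply, Pi.single_eq_of_ne, smul_zero]
        intro h3
        apply hb''
        have h4 := (Sigma.mk.inj_iff.1 h3).2
        exact (eq_of_heq h4).symm
      · intro h3
        exact absurd (Finset.mem_univ _) h3
    · have h1 : ∀ w ∈ T, ((val (rep φ j').1 (fx (hb p j'.1 b').1) z (φ j.1 (g ^ e w)) : ℤ) :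
          ℚ_[p]) = 0 := by
        intro w hw
        obtain ⟨hw1, e', hw2⟩ := hT1 w hw
        unfold val
        rw [if_neg, Int.cast_zero]
        intro hc
        apply hj
        rw [map_pow, hg] at hc
        rw [ho] at hw2
        have hcop : (e w).Coprime (orderOf (rep φ j).1) := by
          rw [hog]
          exact coprime_of_rel p.2 Nat.card_pos.ne' hw1 hw2
        have hc' := hc.symm
        have hij : j.1 = j'.1 := by
          apply hconj
          obtain ⟨c, hc2⟩ := isConj_iff.1 hc'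
          refine ⟨c, ?_⟩
          rw [← (rep φ j).2, ← (rep φ j').2, ← zpowers_pow_eq hcop, MonoidHom.map_zpowers, ← hc2]
          rfl
        obtain ⟨i, q⟩ := j
        obtain ⟨i', q'⟩ := j'
        simp only at hij
        subst hij
        congr 1
        apply Subtype.ext
        have h1 : PRel (p : ℕ) (φ i).range (Quot.out q'.1) (Quot.out q.1) :=
          ⟨e w, e', hw1, by rw [hcard]; exact hw2, hc'⟩
        have h2 := Quot.sound h1
        rwa [Quot.out_eq, Quot.out_eq] at h2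
      rw [Finset.sum_congr rfl h1, Finset.sum_const_zero, neg_zero]
      symm
      apply mul_eq_zero_of_right
      apply Finset.sum_eq_zero
      intro b'' _
      rw [Pi.smul_apply, Pi.single_eq_of_ne, smul_zero]
      intro h3
      exact hj (Sigma.mk.inj_iff.1 h3).1
  have hxS : ∀ z : Zi φ j.1, vl φ hb p j.1 z x ∈ S := by
    intro z
    have h1 : vl φ hb p j.1 z x ∈ (SI p (Γ j.1)).map (vl φ hb p j.1 z) := ⟨x, hx, rfl⟩
    unfold SI at h1
    rw [Submodule.map_span] at h1
    refine Submodule.span_mono ?_ h1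
    rintro _ ⟨F, hF, rfl⟩
    exact ⟨⟨j.1, ⟨F, hF⟩, z⟩, rfl⟩
  have hz : ∀ z : Zi φ j.1, Ej (fun b' => (((hb p j.1 b').1 z : ℤ) : ℚ_[p])) ∈ S := by
    intro z
    have h1 := hxS z
    rw [hvx] at h1
    have h2 := Submodule.smul_mem S (-(N : ℚ_[p])⁻¹) h1
    rw [smul_smul] at h2
    have h3 : -(N : ℚ_[p])⁻¹ * -(N : ℚ_[p]) = 1 := by
      rw [neg_mul_neg, inv_mul_cancel₀ hN0]
    rwa [h3, one_smul] at h2
  have hli' : LinearIndependent ℤ (fun b' => (hb p j.1 b').1) := by
    have h1 := (hli p j.1).map' ((CentHom (φ j.1).range (UP p (φ j.1).range)).subtype.toIntLinearMap)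
      (LinearMap.ker_eq_bot.2 Subtype.val_injective)
    exact h1
  have hsp := eval_span (K := ℚ_[p]) (fun b' => (hb p j.1 b').1) hli'
  have hall : ∀ y, Ej y ∈ S := by
    intro y
    have h1 : (⊤ : Submodule ℚ_[p] (Fin (dP p (φ j.1).range) → ℚ_[p])) ≤ S.comap Ej := by
      rw [← hsp, Submodule.span_le]
      rintro _ ⟨z, rfl⟩
      exact hz z
    exact h1 Submodule.mem_top
  have h1 := hall (Pi.single b 1)
  rw [hEj, Finset.sum_eq_single b] at h1
  · rwa [Pi.single_eq_same, one_smul] at h1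
  · intro b' _ hb'
    rw [Pi.single_eq_of_ne hb', zero_smul]
  · intro h2
    exact absurd (Finset.mem_univ _) h2

end family

end

end Pool.Agent.Y69.DZ
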