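import Mathlib
import Pool.Agent.Y69.DZ.Span0

/-!
# The rank of the part of `K₀(ℤ[G])` coming from products of finite cyclic groups with `ℤ`
-/

set_option autoImplicit false
set_option linter.unusedSectionVars false

namespace Pool.Agent.Y69.DZ

open Finset Module
open Pool.Agent.H23R2.Cyc (ell ell_single)
open Pool.Agent.Y69.NK (K0 K0.cls Idm cl pf SI Gens PRel numClasses Cl rep finite_Cl gens_lift
  zpowers_pow_eq exists_basis_family exists_independent PP finite_PP sum_PP card_const finite_quot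
  nc_pos)

noncomputable section

variable {G : Type} [Group G]

/-- the rank of the additive functions on the centralizer that are invariant under the
normalizer -/
def dA (C : Subgroup G) : ℕ := finrank ℤ (CentHom C (fun _ => True))

/-- the class of the free module of rank one -/
def K0one (A : Type) [Ring A] : K0 A := K0.cls ⟨1, 1, mul_one 1⟩

/-- the quotient of `K₀(A)` by the subgroup generated by the class of `A` -/
def RK0 (A : Type) [Ring A] : Type := K0 A ⧸ AddSubgroup.zmultiples (K0one A)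

instance instRK0 (A : Type) [Ring A] : AddCommGroup (RK0 A) :=
  QuotientAddGroup.Quotient.addCommGroup (AddSubgroup.zmultiples (K0one A))

/-- the projection -/
def RK0.mk (A : Type) [Ring A] : K0 A →+ RK0 A :=
  QuotientAddGroup.mk' (AddSubgroup.zmultiples (K0one A))

theorem RK0.mk_zero {A : Type} [Ring A] {x : K0 A} :
    RK0.mk A x = 0 ↔ x ∈ AddSubgroup.zmultiples (K0one A) := QuotientAddGroup.eq_zero_iff x

theorem one_inv {x : K0 (MonoidAlgebra ℤ G)}
    (hx : x ∈ AddSubgroup.zmultiples (K0one (MonoidAlgebra ℤ G))) : (x, (0 : DT G)) ∈ Inv0 G := by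
  obtain ⟨n, rfl⟩ := AddSubgroup.mem_zmultiples_iff.1 hx
  have h1 : (K0one (MonoidAlgebra ℤ G), (0 : DT G)) ∈ Inv0 G := by
    have h2 := AddSubgroup.subset_closure (Gen0.one (G := G) 1)
    rw [← Pool.Agent.Y69.NK.cl_idm ⟨1, 1, mul_one 1⟩] at h2
    exact h2
  have h2 := AddSubgroup.zsmul_mem _ h1 n
  rw [Prod.smul_mk, smul_zero] at h2
  exact h2

theorem inv_sum0 {𝓕 : Type} [Fintype 𝓕] (n : 𝓕 → ℤ) (x : 𝓕 → K0 (MonoidAlgebra ℤ G))
    (δ : 𝓕 → DT G) (h : ∀ F, (x F, δ F) ∈ Inv0 G) :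
    (∑ F, n F • x F, ∑ F, n F • δ F) ∈ Inv0 G := by
  have h1 : (∑ F, n F • x F, ∑ F, n F • δ F) = ∑ F, n F • (x F, δ F) := by
    ext1
    · rw [Prod.fst_sum]
      rfl
    · rw [Prod.snd_sum]
      rfl
  rw [h1]
  exact AddSubgroup.sum_mem _ fun F _ => AddSubgroup.zsmul_mem _ (h F) (n F)

section rank

/-- the rank of a group is finite if the finite rank is positive -/
theorem rank_lt {V : Type} [AddCommGroup V] (h : 0 < finrank ℤ V) :
    Module.rank ℤ V < Cardinal.aleph0 := by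
  by_contra hcon
  push Not at hcon
  have h1 : finrank ℤ V = 0 := Cardinal.toNat_apply_of_aleph0_le hcon
  omega

theorem rank_mono (C : Subgroup G) (P : ℕ → Prop) (h : 0 < finrank ℤ (CentHom C P)) :
    Module.rank ℤ (CentHom C (fun _ => True)) < Cardinal.aleph0 ∧
      dA C ≤ finrank ℤ (CentHom C P) := by
  have h1 := rank_lt h
  have h2 : Module.rank ℤ (CentHom C (fun _ => True)) ≤ Module.rank ℤ (CentHom C P) := by
    let f : CentHom C (fun _ => True) →+ CentHom C P :=
      AddSubgroup.inclusion (CentHom_mono C (fun _ _ => trivial))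
    exact LinearMap.rank_le_of_injective f.toIntLinearMap
      (AddSubgroup.inclusion_injective (CentHom_mono C (fun _ _ => trivial)))
  refine ⟨h2.trans_lt h1, ?_⟩
  exact Cardinal.toNat_le_toNat h2 h1

end rank

section om

variable {D : Subgroup G}

theorem Ok_gen {s : G} (hs : Subgroup.zpowers s = D) [Finite D] (hD : Nat.card D ≠ 1)
    {h : Subgroup.centralizer (D : Set G) → ℤ} (hh : ∀ x y, h (x * y) = h x + h y) :
    Ok s (fx h) := by
  have ho : orderOf s = Nat.card D := by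
    rw [← hs]
    exact (Nat.card_zpowers s).symm
  refine ⟨adm_fx hs hh, ?_, ?_⟩
  · rw [ho]
    exact Nat.card_pos.ne'
  · intro h1
    apply hD
    rw [← ho, h1, orderOf_one]

/-- the functional on the additive functions -/
def om (W : G → (G → ℤ) → ℚ) (hW : Rat0 W) {s : G} (hs : Subgroup.zpowers s = D) [Finite D]
    (hD : Nat.card D ≠ 1) : AH D →+ ℚ :=
  AddMonoidHom.mk' (fun h => W s (fx h.1)) (by
    intro h h'
    rw [← hW.add s _ _ (Ok_gen hs hD h.2.1) (Ok_gen hs hD h'.2.1)]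
    congr 1
    funext z
    by_cases hz : z ∈ Subgroup.centralizer (D : Set G)
    · rw [fx_mem _ _ hz, fx_mem _ _ hz, fx_mem _ _ hz]
      rfl
    · unfold fx
      rw [dif_neg hz, dif_neg hz, dif_neg hz, add_zero])

theorem om_inv (W : G → (G → ℤ) → ℚ) (hW : Rat0 W) {s : G} (hs : Subgroup.zpowers s = D)
    [Finite D] (hD : Nat.card D ≠ 1) (n : Subgroup.normalizer (D : Set G)) (h : AH D) :
    om W hW hs hD (cH n h) = om W hW hs hD h := by
  show W s (fx (cH n h).1) = W s (fx h.1)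
  have ho : orderOf s = Nat.card D := by
    rw [← hs]
    exact (Nat.card_zpowers s).symm
  have hsD : s ∈ D := by
    rw [← hs]
    exact Subgroup.mem_zpowers s
  have h1 := hW.conj s _ (Ok_gen hs hD h.2.1) (n : G)⁻¹
  have h2 : (fun z => fx h.1 ((n : G)⁻¹⁻¹ * z * (n : G)⁻¹)) = fx (cH n h).1 := by
    funext z
    rw [inv_inv]
    by_cases hz : z ∈ Subgroup.centralizer (D : Set G)
    · rw [fx_mem _ _ hz]
      exact fx_mem _ _ (cj D n ⟨z, hz⟩).2
    · unfold fx
      rw [dif_neg hz, dif_neg]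
      intro hz'
      apply hz
      have h3 := (cj D n⁻¹ ⟨_, hz'⟩).2
      have h4 : ((cj D n⁻¹ ⟨_, hz'⟩ : Subgroup.centralizer (D : Set G)) : G) = z := by
        show ((n⁻¹ : Subgroup.normalizer (D : Set G)) : G) * ((n : G) * z * (n : G)⁻¹) *
          ((n⁻¹ : Subgroup.normalizer (D : Set G)) : G)⁻¹ = z
        rw [Subgroup.coe_inv]
        group
      rwa [h4] at h3
  rw [h2] at h1
  -- the conjugate is a power
  have h3 : (n : G)⁻¹ * s * (n : G)⁻¹⁻¹ ∈ D :=
    (Subgroup.mem_normalizer_iff.1 (Subgroup.inv_mem _ n.2) s).1 hsD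
  have h4 : (n : G)⁻¹ * s * (n : G)⁻¹⁻¹ ∈ Submonoid.powers s := by
    have hfs : IsOfFinOrder s := by
      rw [← orderOf_pos_iff, ho]
      exact Nat.card_pos
    rw [hfs.mem_powers_iff_mem_zpowers, hs]
    exact h3
  obtain ⟨u, hu⟩ := h4
  have hcop : u.Coprime (orderOf s) := by
    have h5 : orderOf (s ^ u) = orderOf s := by
      rw [show s ^ u = (n : G)⁻¹ * s * (n : G)⁻¹⁻¹ from hu]
      exact (isConj_ord (isConj_iff.2 ⟨(n : G)⁻¹, rfl⟩)).symm
    have hs0 : orderOf s ≠ 0 := by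
      rw [ho]
      exact Nat.card_pos.ne'
    by_cases hu0 : u = 0
    · subst hu0
      rw [pow_zero, orderOf_one] at h5
      exact absurd (h5.symm.trans rfl) (by rw [ho]; exact hD)
    · rw [orderOf_pow' s hu0] at h5
      rcases Nat.div_eq_self.1 h5 with h6 | h6
      · exact absurd h6 hs0
      · exact Nat.Coprime.symm h6
  rw [← h1, ← show s ^ u = (n : G)⁻¹ * s * (n : G)⁻¹⁻¹ from hu]
  exact (hW.gal s _ (Ok_gen hs hD (cH n h).2.1) u hcop).symm

end om

section main

variable {ι : Type} [Fintype ι] {Γ : ι → Type} [∀ i, CommGroup (Γ i)] [∀ i, Finite (Γ i)]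
  (φ : ∀ i, Γ i →* G)

theorem psi_comm (i : ι) (z : Zi φ i) (γ : Γ i) (n : Multiplicative ℤ) :
    Commute (φ i γ) (zpowersHom G (z : G) n) := by
  have h1 := Subgroup.mem_centralizer_iff.1 z.2 (φ i γ) ⟨γ, rfl⟩
  have h2 : Commute (φ i γ) (z : G) := h1
  exact h2.zpow_right _

/-- the homomorphism given by a central element -/
def psi (i : ι) (z : Zi φ i) : Γ i × Multiplicative ℤ →* G :=
  MonoidHom.noncommCoprod (φ i) (zpowersHom G (z : G)) (psi_comm φ i z)

theorem psi_inl (i : ι) (z : Zi φ i) (γ : Γ i) : psi φ i z (γ, 1) = φ i γ := by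
  show φ i γ * zpowersHom G (z : G) 1 = φ i γ
  rw [map_one, mul_one]

theorem psi_zz (i : ι) (z : Zi φ i) : zz (psi φ i z) = z := by
  show φ i 1 * zpowersHom G (z : G) (Multiplicative.ofAdd 1) = z
  rw [map_one, one_mul]
  exact zpow_one _

theorem psi_ff (i : ι) (z : Zi φ i) : ff (psi φ i z) = φ i := by
  apply MonoidHom.ext
  intro γ
  exact psi_inl φ i z γ

theorem card_Tg (p : Nat.Primes) [Fintype (Tg φ p)] : Fintype.card (Tg φ p) =
    ∑ i, if (p : ℕ) ∣ Nat.card (Γ i) then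
      numClasses p (φ i).range * dP p (φ i).range else 0 := by
  classical
  have h1 : ∀ i, Finite (Quot (PRel (p : ℕ) (φ i).range)) := by
    intro i
    have : Finite (φ i).range := Finite.of_surjective _ (φ i).rangeRestrict_surjective
    exact finite_quot (φ i).range p
  have : ∀ i, Fintype {_q : Quot (PRel (p : ℕ) (φ i).range) // (p : ℕ) ∣ Nat.card (Γ i)} :=
    fun i => Fintype.ofFinite _
  have h2 : Fintype.card (Tg φ p) = ∑ j : Cl φ p, dP p (φ j.1).range := by
    rw [← Nat.card_eq_fintype_card, Nat.card_sigma]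
    apply Finset.sum_congr rfl
    intro j _
    rw [Nat.card_eq_fintype_card, Fintype.card_fin]
  rw [h2, Fintype.sum_sigma]
  apply Finset.sum_congr rfl
  intro i _
  show ∑ _y : {_q : Quot (PRel (p : ℕ) (φ i).range) // (p : ℕ) ∣ Nat.card (Γ i)},
    dP p (φ i).range = _
  rw [Finset.sum_const, Finset.card_univ, ← Nat.card_eq_fintype_card, card_const, smul_eq_mul]
  split_ifs
  · rfl
  · exact zero_mul _

/-- The main theorem for a family of monomorphisms. -/
theorem main0 (hφ : ∀ i, Function.Injective (φ i)) (γ : ∀ i, Γ i)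
    (hγ : ∀ i (x : Γ i), x ∈ Subgroup.zpowers (γ i)) (hne : ∀ i, Nat.card (Γ i) ≠ 1)
    (hconj : ∀ i j, (∃ g : G, (φ i).range.map (MulAut.conj g).toMonoidHom = (φ j).range) →
      i = j) :
    ∃ f : _root_.Fin (∑ i, (∑ p ∈ (Nat.card (Γ i)).primeFactors,
        numClasses p (φ i).range * dP p (φ i).range - dA (φ i).range)) →
      RK0 (MonoidAlgebra ℤ G), LinearIndependent ℤ f ∧
      ∀ k, ∃ (i : ι) (ψ : Γ i × Multiplicative ℤ →* G)
        (x : K0 (MonoidAlgebra ℤ (Γ i × Multiplicative ℤ))),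
        (∀ c, ψ (c, 1) = φ i c) ∧ f k = RK0.mk _ (K0.map (pf ℤ ψ) x) := by
  classical
  set n : ι → ℕ := fun i => Nat.card (Γ i) with hn
  have hn0 : ∀ i, n i ≠ 0 := fun i => Nat.card_pos.ne'
  have hDfin : ∀ i, Finite (φ i).range :=
    fun i => Finite.of_surjective _ (φ i).rangeRestrict_surjective
  have hDcard : ∀ i, Nat.card (φ i).range = Nat.card (Γ i) :=
    fun i => Nat.card_congr (MonoidHom.ofInjective (hφ i)).toEquiv.symm
  have hDne : ∀ i, Nat.card (φ i).range ≠ 1 := fun i => by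
    rw [hDcard]
    exact hne i
  have hPP : Finite (PP ι n) := finite_PP n hn0
  have : Fintype (PP ι n) := Fintype.ofFinite _
  -- the additive functions
  have hex : ∀ (p : Nat.Primes) (i : ι), ∃ b : _root_.Fin (dP p (φ i).range) →
      CentHom (φ i).range (UP p (φ i).range), LinearIndependent ℤ b :=
    fun p i => exists_linearIndependent_of_le_finrank le_rfl
  choose hb hli using hex
  have hex2 : ∀ i : ι, ∃ b : _root_.Fin (dA (φ i).range) →
      CentHom (φ i).range (fun _ => True), LinearIndependent ℤ b :=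
    fun i => exists_linearIndependent_of_le_finrank le_rfl
  choose bA hbA using hex2
  -- the classes
  have hbas : ∀ p : Nat.Primes, ∃ v : Tg φ p → Sc φ p, LinearIndependent ℚ_[p]
      ((fun w : Sc φ p => vl φ hb p w.1 w.2.2 w.2.1.1) ∘ v) := by
    intro p
    have hfin : Finite (Cl φ p) := finite_Cl φ p
    have : Fintype (Tg φ p) := Fintype.ofFinite _
    exact exists_basis_family _ (span_vl φ hb hφ hconj hli p)
  choose v hv using hbas
  choose X hX using fun (i : ι) (p : Nat.Primes)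
    (F : {F : MonoidAlgebra ℚ_[p] (Γ i) // F * F = F}) => exists_class0 (G := G) p F.1 F.2
  have : ∀ p : PP ι n, Finite (Tg φ p.1) := fun p => by
    have hfin : Finite (Cl φ p.1) := finite_Cl φ p.1
    infer_instance
  have : ∀ p : PP ι n, Fintype (Tg φ p.1) := fun p => Fintype.ofFinite _
  let δ : (Σ p : PP ι n, Tg φ p.1) → DT G := fun F =>
    del0 (psi φ (v F.1.1 F.2).1 (v F.1.1 F.2).2.2) F.1.1 (v F.1.1 F.2).2.1.1
  let x : (Σ p : PP ι n, Tg φ p.1) → K0 (MonoidAlgebra ℤ G) := fun F =>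
    K0.map (pf ℤ (psi φ (v F.1.1 F.2).1 (v F.1.1 F.2).2.2))
      (X (v F.1.1 F.2).1 F.1.1 (v F.1.1 F.2).2.1)
  have hxδ : ∀ F, (x F, δ F) ∈ Inv0 G := fun F => hX _ _ _ _
  let Φ : (Σ p : PP ι n, Tg φ p.1) → RK0 (MonoidAlgebra ℤ G) := fun F => RK0.mk _ (x F)
  let T : (Σ p : PP ι n, Tg φ p.1) → (∀ p : PP ι n, Tg φ p.1 → ℚ_[p.1]) := fun F p jb =>
    δ F p.1 (rep φ jb.1).1 (fx (hb p.1 jb.1.1 jb.2).1)
  have hT : LinearIndependent ℚ T := by
    have h1 : T = fun ji : (Σ p : PP ι n, Tg φ p.1) =>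
        Pi.single (M := fun p : PP ι n => (Tg φ p.1 → ℚ_[p.1])) ji.1
          (vl φ hb ji.1.1 (v ji.1.1 ji.2).1 (v ji.1.1 ji.2).2.2 (v ji.1.1 ji.2).2.1.1) := by
      ext1 F
      ext1 p
      ext1 jb
      by_cases h2 : p = F.1
      · subst h2
        rw [Pi.single_eq_same]
        show del0 _ _ _ _ _ _ = -ell _ _
        rw [del0_same, psi_zz, psi_ff]
      · rw [Pi.single_eq_of_ne h2]
        exact del0_ne _ _ _ _ _ _ (fun h3 => h2 (Subtype.ext h3))
    rw [h1]
    apply Pi.linearIndependent_single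
      (v := fun (p : PP ι n) (jb : Tg φ p.1) => vl φ hb p.1 (v p.1 jb).1 (v p.1 jb).2.2
        (v p.1 jb).2.1.1)
    intro p
    exact (hv p.1).restrict_scalars' ℚ
  -- the relations
  let ι₀ : Type := {i : ι // ∃ p : Nat.Primes, (p : ℕ) ∣ n i ∧ 0 < dP p (φ i).range}
  have hr : ∀ (i : ι₀) (h : AH (φ i.1).range), ∃ r : _root_.Fin (dA (φ i.1).range) → ℚ,
      ∀ ω : AH (φ i.1).range →+ ℚ, (∀ n h, ω (cH n h) = ω h) →
        ω h = ∑ j, r j * ω (inA (bA i.1 j)) := by
    intro i h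
    obtain ⟨p, _, hp⟩ := i.2
    exact exists_coef (rank_mono _ _ hp).1 (bA i.1) (hbA i.1) h
  choose r hr using hr
  have hι₀ : ∀ (p : Nat.Primes) (jb : Tg φ p), ∃ q : Nat.Primes, (q : ℕ) ∣ n jb.1.1 ∧
      0 < dP q (φ jb.1.1).range := by
    intro p jb
    exact ⟨p, jb.1.2.2, lt_of_le_of_lt (Nat.zero_le _) jb.2.2⟩
  let d : ((Σ i : ι₀, _root_.Fin (dA (φ i.1).range)) → ℚ) →ₗ[ℚ]
      (∀ p : PP ι n, Tg φ p.1 → ℚ_[p.1]) :=
    { toFun := fun w p jb => ((∑ a, r ⟨jb.1.1, hι₀ p.1 jb⟩ (inA (hb p.1 jb.1.1 jb.2)) a *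
        w ⟨⟨jb.1.1, hι₀ p.1 jb⟩, a⟩ : ℚ) : ℚ_[p.1])
      map_add' := by
        intro w w'
        ext1 p
        ext1 jb
        show ((_ : ℚ) : ℚ_[p.1]) = ((_ : ℚ) : ℚ_[p.1]) + ((_ : ℚ) : ℚ_[p.1])
        rw [← Rat.cast_add, ← Finset.sum_add_distrib]
        congr 1
        apply Finset.sum_congr rfl
        intro a _
        rw [Pi.add_apply, mul_add]
      map_smul' := by
        intro c w
        ext1 p
        ext1 jb
        show ((_ : ℚ) : ℚ_[p.1]) = c • ((_ : ℚ) : ℚ_[p.1])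
        rw [Rat.smul_def, ← Rat.cast_mul, Finset.mul_sum]
        congr 1
        apply Finset.sum_congr rfl
        intro a _
        rw [Pi.smul_apply, smul_eq_mul]
        ring }
  have hcount : ∑ i, (∑ p ∈ (n i).primeFactors,
      numClasses p (φ i).range * dP p (φ i).range - dA (φ i).range) +
      Fintype.card (Σ i : ι₀, _root_.Fin (dA (φ i.1).range)) ≤
        Fintype.card (Σ p : PP ι n, Tg φ p.1) := by
    have h1 : Fintype.card (Σ p : PP ι n, Tg φ p.1) =
        ∑ i, ∑ p ∈ (n i).primeFactors, numClasses p (φ i).range * dP p (φ i).range := by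
      rw [Fintype.card_sigma]
      have h2 : ∀ p : PP ι n, Fintype.card (Tg φ p.1) =
          ∑ i, if (p.1 : ℕ) ∣ n i then numClasses p.1 (φ i).range * dP p.1 (φ i).range
            else 0 := fun p => card_Tg φ p.1
      simp only [h2]
      rw [Finset.sum_comm]
      apply Finset.sum_congr rfl
      intro i _
      exact sum_PP n hn0 i (fun q => numClasses q (φ i).range * dP q (φ i).range)
    have h3 : Fintype.card (Σ i : ι₀, _root_.Fin (dA (φ i.1).range)) =
        ∑ i : ι, if (∃ p : Nat.Primes, (p : ℕ) ∣ n i ∧ 0 < dP p (φ i).range) then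
          dA (φ i).range else 0 := by
      rw [Fintype.card_sigma, ← Finset.sum_filter]
      simp only [Fintype.card_fin]
      symm
      exact Finset.sum_subtype _ (fun i => by simp) (fun i => dA (φ i).range)
    rw [h1, h3, ← Finset.sum_add_distrib]
    apply Finset.sum_le_sum
    intro i _
    split_ifs with h4
    · obtain ⟨p, hp1, hp2⟩ := h4
      have h5 : dA (φ i).range ≤ ∑ p ∈ (n i).primeFactors,
          numClasses p (φ i).range * dP p (φ i).range := by
        refine le_trans (rank_mono _ _ hp2).2 ?_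
        refine le_trans ?_ (Finset.single_le_sum
          (f := fun p => numClasses p (φ i).range * dP p (φ i).range)
          (fun _ _ => Nat.zero_le _) (Nat.mem_primeFactors.2 ⟨p.2, hp1, hn0 i⟩))
        refine Nat.le_mul_of_pos_left _ ?_
        apply nc_pos (⟨φ i (γ i), ?_⟩ : Gens (φ i).range)
        rw [← MonoidHom.map_zpowers]
        have h6 : Subgroup.zpowers (γ i) = ⊤ := by
          rw [eq_top_iff]
          intro x _
          exact hγ i x
        rw [h6, ← MonoidHom.range_eq_map]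
      omega
    · omega
  have hrel : ∀ m : (Σ p : PP ι n, Tg φ p.1) → ℤ, ∑ F, m F • Φ F = 0 →
      ∃ w, ∑ F, m F • T F = d w := by
    intro m hm
    have h1 : ∑ F, m F • x F ∈ AddSubgroup.zmultiples (K0one (MonoidAlgebra ℤ G)) := by
      rw [← RK0.mk_zero, map_sum, ← hm]
      apply Finset.sum_congr rfl
      intro F _
      exact map_zsmul _ _ _
    have h2 := one_inv h1
    have h3 := inv_sum0 m x δ hxδ
    have h4 := AddSubgroup.sub_mem _ h3 h2
    have h5 : ((0 : K0 (MonoidAlgebra ℤ G)), ∑ F, m F • δ F) ∈ Inv0 G := by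
      convert h4 using 1
      rw [Prod.mk_sub_mk, sub_self, sub_zero]
    obtain ⟨W, hW, hW2⟩ := Inv0.detect h5
    have hgen : ∀ i : ι, Subgroup.zpowers (φ i (γ i)) = (φ i).range := by
      intro i
      rw [← MonoidHom.map_zpowers]
      have h6 : Subgroup.zpowers (γ i) = ⊤ := by
        rw [eq_top_iff]
        intro x _
        exact hγ i x
      rw [h6, ← MonoidHom.range_eq_map]
    refine ⟨fun ia => W (φ ia.1.1 (γ ia.1.1)) (fx (bA ia.1.1 ia.2).1), ?_⟩
    ext1 p
    ext1 jb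
    obtain ⟨j, b⟩ := jb
    obtain ⟨g, hg, ho⟩ := gens_lift (φ j.1) (hφ j.1) (rep φ j)
    have ho' : orderOf (rep φ j).1 = Nat.card (Γ j.1) := by
      rw [← hg, orderOf_injective _ (hφ j.1), ho]
    have hok : Ok (rep φ j).1 (fx (hb p.1 j.1 b).1) :=
      Ok_gen (rep φ j).2 (hDne j.1) (hb p.1 j.1 b).2.1
    have hok' : Ok (φ j.1 (γ j.1)) (fx (hb p.1 j.1 b).1) :=
      Ok_gen (hgen j.1) (hDne j.1) (hb p.1 j.1 b).2.1
    have h6 := hW2 p.1 (rep φ j).1 _ hok (by rw [ho']; exact j.2.2)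
    have h7 : W (rep φ j).1 (fx (hb p.1 j.1 b).1) = W (φ j.1 (γ j.1)) (fx (hb p.1 j.1 b).1) := by
      have h8 : g ∈ Submonoid.powers (γ j.1) := by
        rw [mem_powers_iff_mem_zpowers]
        exact hγ j.1 g
      obtain ⟨a, ha⟩ := h8
      have h9 : orderOf (γ j.1) = Nat.card (Γ j.1) :=
        orderOf_eq_card_of_forall_mem_zpowers (hγ j.1)
      have h10 : a.Coprime (orderOf (φ j.1 (γ j.1))) := by
        rw [orderOf_injective _ (hφ j.1), h9]
        have h11 : orderOf (γ j.1 ^ a) = orderOf (γ j.1) := by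
          rw [h9, ← ho]
          exact congrArg orderOf ha
        rw [orderOf_pow] at h11
        rcases Nat.div_eq_self.1 h11 with h12 | h12
        · exact absurd (h9.symm.trans h12) (hn0 _)
        · rw [← h9]
          exact Nat.Coprime.symm h12
      rw [← hg, ← ha, map_pow]
      exact hW.gal _ _ hok' a h10
    have h13 := hr ⟨j.1, hι₀ p.1 ⟨j, b⟩⟩ (inA (hb p.1 j.1 b))
      (om W hW (hgen j.1) (hDne j.1)) (om_inv W hW (hgen j.1) (hDne j.1))
    have h14 : (∑ F, m F • T F) p ⟨j, b⟩ = (∑ F, m F • δ F) p.1 (rep φ j).1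
        (fx (hb p.1 j.1 b).1) := by
      rw [Finset.sum_apply, Finset.sum_apply, Finset.sum_apply, Finset.sum_apply,
        Finset.sum_apply]
      apply Finset.sum_congr rfl
      intro F _
      rfl
    rw [h14, h6, h7]
    show ((W (φ j.1 (γ j.1)) (fx (hb p.1 j.1 b).1) : ℚ) : ℚ_[p.1]) = ((_ : ℚ) : ℚ_[p.1])
    congr 1
  obtain ⟨f, hf⟩ := exists_independent Φ T hT d hrel _ hcount
  exact ⟨Φ ∘ f, hf, fun k => ⟨_, _, _, fun c => psi_inl φ _ _ c, rfl⟩⟩

/-- The main theorem, with names for the images. -/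
theorem main0' (D : ι → Subgroup G) (hD : ∀ i, (φ i).range = D i)
    (hφ : ∀ i, Function.Injective (φ i)) (γ : ∀ i, Γ i)
    (hγ : ∀ i (x : Γ i), x ∈ Subgroup.zpowers (γ i)) (hne : ∀ i, Nat.card (Γ i) ≠ 1)
    (hconj : ∀ i j, (∃ g : G, (D i).map (MulAut.conj g).toMonoidHom = D j) → i = j) :
    ∃ f : _root_.Fin (∑ i, (∑ p ∈ (Nat.card (Γ i)).primeFactors,
        numClasses p (D i) * dP p (D i) - dA (D i))) →
      RK0 (MonoidAlgebra ℤ G), LinearIndependent ℤ f ∧
      ∀ k, ∃ (i : ι) (ψ : Γ i × Multiplicative ℤ →* G)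
        (x : K0 (MonoidAlgebra ℤ (Γ i × Multiplicative ℤ))),
        (∀ c, ψ (c, 1) = φ i c) ∧ f k = RK0.mk _ (K0.map (pf ℤ ψ) x) := by
  obtain rfl : (fun i => (φ i).range) = D := funext hD
  exact main0 φ hφ γ hγ hne hconj

end main

end

end Pool.Agent.Y69.DZ
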